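import Pool.Agent.GTL.Fin

set_option autoImplicit false

/-! In a thin family almost all members have many primes `7` modulo `8`.

Proof. `#{m ∈ FF X : t7 m < K} ≤ 2^K ∑_{m ∈ FF X} 2^(-t7 m)`, bounded by the inequality `ht`
(`TLW/HT.lean`) by `C (X / log X) ∑_{a ∈ FF X} 2^(-t7 a) / a ≤ C (X / log X) ∏_{p ≤ X} (1 + f(p)/p)`,
`f(p) = 1/2` for `p = 7 mod 8`; compared with `DD X` this loses a factor
`∏_{p = 7 mod 8, p ≤ X} (1 + 1/(2p))/(1 + 1/p) → 0` (the sum of `1/p` over `p = 7 mod 8` diverges, from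
`pr_class` in `TLW/RegA.lean` or the `tight0` machinery); `F_lower` (`TLW/Low.lean`) bounds the family
from below by `c (X / log X) DD X`. -/

namespace Pool.Agent.GTL

open Filter Topology Finset

open Pool.Agent.TLW

variable [Dat]

/-- number of primes `7` modulo `8` -/
def t7 (m : ℕ) : ℕ := (m.primeFactors.filter (fun p => p % 8 = 7)).card

/-- the thin family up to `X` -/
noncomputable def famF (X : ℕ) : Finset ℕ :=
  (FF X).filter (fun m => 1 < m ∧ m % 8 = 1)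

private noncomputable def dt7w (p : ℕ) : ℝ := if p % 8 = 7 then 1 / 2 else 1

private lemma dt7_pf {s : Finset ℕ} (hs : ∀ p ∈ s, p.Prime) : (∏ p ∈ s, p).primeFactors = s :=
  Nat.primeFactors_prod hs

private lemma dt7_val {s : Finset ℕ} (hs : ∀ p ∈ s, p.Prime) :
    ((1 : ℝ) / 2) ^ t7 (∏ p ∈ s, p) / ((∏ p ∈ s, p : ℕ) : ℝ) = ∏ p ∈ s, dt7w p / (p : ℝ) := by
  have h1 : ((1 : ℝ) / 2) ^ t7 (∏ p ∈ s, p) = ∏ p ∈ s, dt7w p := by
    unfold t7 dt7w
    rw [dt7_pf hs, Finset.prod_ite, Finset.prod_const, Finset.prod_const_one, mul_one]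
  rw [h1, Finset.prod_div_distrib]
  push_cast
  rfl

private lemma dt7_sum (X : ℕ) : ∑ a ∈ (PP X).divisors, ((1 : ℝ) / 2) ^ t7 a / a =
    ∏ p ∈ pr 0 X, (1 + dt7w p / (p : ℝ)) := by
  rw [sum_PP X (fun a => ((1 : ℝ) / 2) ^ t7 a / a), Finset.prod_one_add]
  refine Finset.sum_congr rfl fun s hs => ?_
  refine dt7_val fun p hp => ?_
  exact (mem_pr.1 (Finset.mem_powerset.1 hs hp)).2.1

private lemma dt7_step (b p : ℕ) (h : F1 (b * p)) (hp : p.Prime) :
    ((1 : ℝ) / 2) ^ t7 (b * p) ≤ 1 * (1 / 2) ^ t7 b := by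
  rw [one_mul]
  refine pow_le_pow_of_le_one (by norm_num) (by norm_num) ?_
  unfold t7
  refine Finset.card_le_card (Finset.filter_subset_filter _ ?_)
  exact Nat.primeFactors_mono (Nat.dvd_mul_right b p) h.1.ne_zero

private lemma dt7_fac {p : ℕ} (hp : 0 < p) :
    1 + dt7w p / (p : ℝ) ≤ (1 + 1 / (p : ℝ)) *
      (if p % 8 = 7 then Real.exp (-(1 / 4) * (1 / (p : ℝ))) else 1) := by
  have hp1 : (1 : ℝ) ≤ p := by exact_mod_cast hp
  unfold dt7w
  split_ifs with h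
  · have h1 : 1 + -(1 / 4) * (1 / (p : ℝ)) ≤ Real.exp (-(1 / 4) * (1 / (p : ℝ))) := by
      have := Real.add_one_le_exp (-(1 / 4) * (1 / (p : ℝ)))
      linarith
    have h2 : (0 : ℝ) < 1 + 1 / (p : ℝ) := by positivity
    refine le_trans ?_ (mul_le_mul_of_nonneg_left h1 h2.le)
    have h3 : (0 : ℝ) ≤ 1 / (p : ℝ) := by positivity
    have h4 : (1 : ℝ) / (p : ℝ) ≤ 1 := by
      rw [div_le_one (by linarith)]; exact hp1
    have e : (1 : ℝ) / 2 / (p : ℝ) = 1 / 2 * (1 / (p : ℝ)) := by ring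
    rw [e]
    nlinarith
  · rw [mul_one]

private lemma dt7_prod (X : ℕ) : ∏ p ∈ pr 0 X, (1 + dt7w p / (p : ℝ)) ≤
    DD X * Real.exp (-(1 / 4) * GTLM.S7 X) := by
  have h1 : ∏ p ∈ pr 0 X, (1 + dt7w p / (p : ℝ)) ≤ ∏ p ∈ pr 0 X, ((1 + 1 / (p : ℝ)) *
      (if p % 8 = 7 then Real.exp (-(1 / 4) * (1 / (p : ℝ))) else 1)) := by
    refine Finset.prod_le_prod (fun p hp => ?_) (fun p hp => dt7_fac (mem_pr.1 hp).2.1.pos)
    have : (0 : ℝ) ≤ dt7w p := by unfold dt7w; split_ifs <;> norm_num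
    positivity
  refine h1.trans (le_of_eq ?_)
  rw [Finset.prod_mul_distrib]
  congr 1
  rw [Finset.prod_ite, Finset.prod_const_one, mul_one, ← Real.exp_sum, ← Finset.mul_sum]
  have h2 : (pr 0 X).filter (fun p => p % 8 = 7) = GTLM.P7 X := by
    rw [pr_eq_P8]
    unfold GTLM.P7
    refine Finset.filter_congr fun p hp => ?_
    have := Dat.C_eight p (GTLM.mem_P8.mp hp).2.2
    omega
  rw [h2]
  rfl

private lemma dt7_small (ε : ℝ) (hε : 0 < ε) : ∃ X0 : ℕ, ∀ X : ℕ, X0 ≤ X →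
    Real.exp (-(1 / 4) * GTLM.S7 X) ≤ ε := by
  obtain ⟨C, _, hC⟩ := GTLM.S7_lower
  have hll : Tendsto (fun X : ℕ => GTLM.d7 * Real.log (Real.log (X : ℝ)) - C) atTop atTop := by
    refine tendsto_atTop_add_const_right _ _ ?_
    refine Tendsto.const_mul_atTop GTLM.d7_pos ?_
    exact Real.tendsto_log_atTop.comp (Real.tendsto_log_atTop.comp tendsto_natCast_atTop_atTop)
  obtain ⟨X1, hX1⟩ := eventually_atTop.1 (hll.eventually_ge_atTop (-4 * Real.log ε))
  refine ⟨max X1 3, fun X hX => ?_⟩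
  have h1 := hX1 X ((le_max_left _ _).trans hX)
  have h2 := hC X ((le_max_right _ _).trans hX)
  rw [← Real.exp_log hε]
  refine Real.exp_le_exp.2 ?_
  linarith

theorem few_t7 (K : ℕ) : Tendsto (fun X : ℕ =>
    (((famF X).filter (fun m => t7 m < K)).card : ℝ) / ((famF X).card : ℝ)) atTop (𝓝 0) := by
  obtain ⟨c, hc, XF, hF⟩ := F_lower
  obtain ⟨C, hC, hht⟩ := ht 1 (by norm_num)
  rw [Metric.tendsto_atTop]
  intro ε hε
  obtain ⟨X1, hX1⟩ := dt7_small (ε / 2 * c / (C * 2 ^ K)) (by positivity)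
  refine ⟨max XF (max X1 3), fun X hX => ?_⟩
  simp only [ge_iff_le, max_le_iff] at hX
  obtain ⟨hXF, hXX1, hX3⟩ := hX
  set D : ℝ := ((X : ℝ) / Real.log X) * DD X with hD
  have hXr : (3 : ℝ) ≤ X := by exact_mod_cast hX3
  have hlog : 0 < Real.log X := Real.log_pos (by linarith)
  have hDD : (1 : ℝ) ≤ DD X := one_le_DD X
  have hXl : 0 < (X : ℝ) / Real.log X := by positivity
  have hD0 : 0 < D := by rw [hD]; positivity
  have hlow : c * D ≤ ((famF X).card : ℝ) := by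
    have := hF X hXF
    rw [hD, ← mul_assoc]
    exact this
  have hN : (0 : ℝ) < ((famF X).card : ℝ) := lt_of_lt_of_le (by positivity) hlow
  have h1 : (((famF X).filter (fun m => t7 m < K)).card : ℝ) ≤
      2 ^ K * ∑ m ∈ FF X, ((1 : ℝ) / 2) ^ t7 m := by
    have h2 : (((famF X).filter (fun m => t7 m < K)).card : ℝ) ≤
        ∑ m ∈ (famF X).filter (fun m => t7 m < K), 2 ^ K * ((1 : ℝ) / 2) ^ t7 m := by
      rw [← nsmul_one (A := ℝ), ← Finset.sum_const]
      refine Finset.sum_le_sum fun m hm => ?_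
      have h3 := (mem_filter.1 hm).2
      have h4 : ((1 : ℝ) / 2) ^ K ≤ (1 / 2) ^ t7 m :=
        pow_le_pow_of_le_one (by norm_num) (by norm_num) h3.le
      calc (1 : ℝ) = 2 ^ K * (1 / 2) ^ K := by rw [← mul_pow]; norm_num
        _ ≤ _ := by gcongr
    refine h2.trans ?_
    rw [Finset.mul_sum]
    refine Finset.sum_le_sum_of_subset_of_nonneg ?_ (fun m _ _ => by positivity)
    refine (Finset.filter_subset _ _).trans ?_
    unfold famF
    exact Finset.filter_subset _ _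
  have h2 : ∑ m ∈ FF X, ((1 : ℝ) / 2) ^ t7 m ≤
      C * ((X : ℝ) / Real.log X) * (DD X * Real.exp (-(1 / 4) * GTLM.S7 X)) := by
    have h3 := hht (fun m => ((1 : ℝ) / 2) ^ t7 m) (fun n => by positivity) dt7_step X (by omega)
    refine h3.trans ?_
    gcongr
    refine le_trans ?_ (dt7_prod X)
    rw [← dt7_sum]
    exact Finset.sum_le_sum_of_subset_of_nonneg (FF_subset X) (fun m _ _ => by positivity)
  have h3 := hX1 X hXX1
  have h4 : (((famF X).filter (fun m => t7 m < K)).card : ℝ) ≤ ε / 2 * (famF X).card := by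
    calc (((famF X).filter (fun m => t7 m < K)).card : ℝ)
        ≤ 2 ^ K * ∑ m ∈ FF X, ((1 : ℝ) / 2) ^ t7 m := h1
      _ ≤ 2 ^ K * (C * ((X : ℝ) / Real.log X) * (DD X * Real.exp (-(1 / 4) * GTLM.S7 X))) := by
          gcongr
      _ ≤ 2 ^ K * (C * ((X : ℝ) / Real.log X) * (DD X * (ε / 2 * c / (C * 2 ^ K)))) := by
          gcongr
      _ = ε / 2 * (c * D) := by rw [hD]; field_simp
      _ ≤ _ := by gcongr
  rw [Real.dist_eq, sub_zero, abs_of_nonneg (by positivity), div_lt_iff₀ hN]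
  have : ε / 2 < ε := by linarith
  exact h4.trans_lt (mul_lt_mul_of_pos_right this hN)

end Pool.Agent.GTL
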