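import Pool.Agent.TLW.Defs

set_option autoImplicit false

/-!
# GTL: the law of the Redei determinant in thin families of squarefree numbers.

Generalisation of `Pool.Agent.TLW` (primes `1, 7` modulo `8`, class bit modulo `16`): the primes are
those of a class `Dat.C` (a subgroup of the residues modulo `Dat.Q`, contained in `1, 7` modulo `8`),
with a class bit `Dat.lam`.  The linear algebra is the one of `TLW`.
-/

namespace Pool.Agent.GTL

open Finset

export Pool.Agent.TLW (sg MM CC brd crk kerN PJ Pinf hJ KK zN K0 GG exR exv Recip sy Ix Ra nn sa wq Ph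
  avg smo big Rgh)

/-- a class of primes and a class bit -/
class Dat where
  /-- the modulus -/
  Q : ℕ
  /-- the class -/
  C : ℕ → Prop
  decC : DecidablePred C
  /-- the class bit -/
  lam : ℕ → ZMod 2
  /-- the odd primes of the modulus that define the class -/
  S : Finset ℕ
  Q_pos : 0 < Q
  eight : 8 ∣ Q
  C_mod : ∀ n, C (n % Q) ↔ C n
  lam_mod : ∀ n, lam (n % Q) = lam n
  C_eight : ∀ n, C n → n % 8 = 1 ∨ n % 8 = 7
  C_cop : ∀ n, C n → Nat.Coprime n Q
  C_mul : ∀ a n, C a → (C (a * n) ↔ C n)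
  lam_mul : ∀ a n, C a → C n → lam (a * n) = lam a + lam n
  surj : ∀ s l : ZMod 2, ∃ n, C n ∧ (if n % 8 = 7 then (1 : ZMod 2) else 0) = s ∧ lam n = l
  S_pr : ∀ q ∈ S, q.Prime ∧ q ≠ 2 ∧ q ∣ Q
  C_iff : ∀ p : ℕ, p.Prime → p ≠ 2 → p ∉ S →
    (C p ↔ (p % 8 = 1 ∨ p % 8 = 7) ∧ ∀ q ∈ S, jacobiSym (q : ℤ) p = 1)

instance [Dat] : DecidablePred Dat.C := Dat.decC

section
variable [Dat]

/-- primes of the class -/
def P8 (p : ℕ) : Prop := p.Prime ∧ Dat.C p

instance : DecidablePred P8 := fun _ => inferInstanceAs (Decidable (_ ∧ _))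

/-- squarefree numbers all of whose primes are in the class -/
def F1 (a : ℕ) : Prop := Squarefree a ∧ ∀ p ∈ a.primeFactors, Dat.C p

instance : DecidablePred F1 := fun _ => inferInstanceAs (Decidable (_ ∧ _))

/-- second class bit -/
def lam (q : ℕ) : ZMod 2 := Dat.lam q

/-- class vectors of `a` -/
def la (a : ℕ) : Ix a → ZMod 2 := fun i => lam i

/-- `K(a)` -/
noncomputable def Kf (a : ℕ) : ℝ := KK (Ra a) (sa a) (la a)

/-- `K0(a)` -/
noncomputable def K0f (a : ℕ) : ℝ := K0 (Ra a) (sa a)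

/-- `G_J(a)` -/
noncomputable def Gf (J a : ℕ) : ℝ := GG J (Ra a) (sa a) (la a)

end

section
variable [Dat]

/-- value at the prime `q` -/
def ev (a : ℕ) (f : Ph a) (q : ℕ) : ℝ := f (wq a q) (nn q) (lam q)

/-- primes of `P8` in `(x, y]` -/
def pr (x y : ℕ) : Finset ℕ := (Ioc x y).filter P8

/-- character sum over a set of primes -/
noncomputable def SS (I : Finset ℕ) (ρ : ℕ → ℝ) (d : ℕ) (i j : ZMod 2) : ℝ :=
  ∑ q ∈ I, ρ q * (jacobiSym (q : ℤ) d : ℝ) * sg (i * nn q + j * lam q)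

/-- product of the primes of `P8` up to `Y` -/
def PP (Y : ℕ) : ℕ := ∏ p ∈ pr 0 Y, p

/-- numbers up to `x` in `F1` -/
def FF (x : ℕ) : Finset ℕ := (Icc 1 x).filter F1

/-- yardstick: `prod_{p <= Y} (1 + 1/p)` -/
noncomputable def DD (Y : ℕ) : ℝ := ∏ p ∈ pr 0 Y, (1 + 1 / (p : ℝ))

end

end Pool.Agent.GTL
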