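import Pool.Agent.TLW.Rei
import Pool.Agent.GTL.Defs
import Pool.Agent.TLW.Ifc
set_option autoImplicit false

/-! interface: the data of `a * q` -/

namespace Pool.Agent.GTL

open Pool.Agent.TLW

open Finset

variable [Dat]

theorem P8_odd {q : ℕ} (hq : P8 q) : q % 2 = 1 := by
  rcases Dat.C_eight q hq.2 with h | h <;> omega

theorem F1_ne_zero {a : ℕ} (ha : F1 a) : a ≠ 0 := ha.1.ne_zero

theorem F1_P8 {a : ℕ} (ha : F1 a) (i : Ix a) : P8 i :=
  ⟨Nat.prime_of_mem_primeFactors i.2, ha.2 _ i.2⟩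

theorem cop_of {a q : ℕ} (hq : P8 q) (hqa : ¬ q ∣ a) : Nat.Coprime a q :=
  ((Nat.Prime.coprime_iff_not_dvd hq.1).2 hqa).symm

theorem pf_mul {a q : ℕ} (ha : F1 a) (hq : P8 q) :
    (a * q).primeFactors = a.primeFactors ∪ {q} := by
  rw [Nat.primeFactors_mul (F1_ne_zero ha) hq.1.ne_zero, hq.1.primeFactors]

theorem F1_mul {a q : ℕ} (ha : F1 a) (hq : P8 q) (hqa : ¬ q ∣ a) : F1 (a * q) := by
  refine ⟨(Nat.squarefree_mul (cop_of hq hqa)).2 ⟨ha.1, hq.1.prime.squarefree⟩, ?_⟩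
  intro p hp
  rw [pf_mul ha hq, Finset.mem_union, Finset.mem_singleton] at hp
  rcases hp with h | rfl
  · exact ha.2 p h
  · exact hq.2

theorem F1_dvd {a d : ℕ} (ha : F1 a) (hd : d ∣ a) : F1 d :=
  ⟨ha.1.squarefree_of_dvd hd, fun p hp => ha.2 p (Nat.primeFactors_mono hd (F1_ne_zero ha) hp)⟩

/-- reciprocity -/
theorem sy_rec {p q : ℕ} (hp : P8 p) (hq : P8 q) (hpq : p ≠ q) :
    sy q p = sy p q + nn p * nn q := by
  have hcop : Nat.Coprime p q := (Nat.coprime_primes hp.1 hq.1).2 hpq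
  have hpo : Odd p := Nat.odd_iff.2 (P8_odd hp)
  have hqo : Odd q := Nat.odd_iff.2 (P8_odd hq)
  have h1 : jacobiSym (q : ℤ) p = 1 ∨ jacobiSym (q : ℤ) p = -1 := by
    refine jacobiSym.eq_one_or_neg_one ?_
    rw [Int.gcd_natCast_natCast]
    exact hcop.symm
  unfold sy nn
  rcases Dat.C_eight p hp.2 with h | h
  · rw [jacobiSym.quadratic_reciprocity_one_mod_four (by omega : p % 4 = 1) hqo, if_neg (by omega : ¬ p % 8 = 7), zero_mul, add_zero]
  · rcases Dat.C_eight q hq.2 with h' | h'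
    · rw [jacobiSym.quadratic_reciprocity_one_mod_four (by omega : q % 4 = 1) hpo,
        if_neg (by omega : ¬ q % 8 = 7), mul_zero, add_zero]
    · rw [jacobiSym.quadratic_reciprocity_three_mod_four (by omega : p % 4 = 3)
        (by omega : q % 4 = 3), if_pos h, if_pos h']
      rcases h1 with h1 | h1 <;> rw [h1] <;> decide

theorem recip_a (a : ℕ) (ha : F1 a) : Recip (Ra a) (sa a) := by
  intro i j hij
  exact sy_rec (F1_P8 ha i) (F1_P8 ha j) fun h => hij (Subtype.ext h)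

/-- The index type of `a q`. -/
noncomputable def ixe (a q : ℕ) (ha : F1 a) (hq : P8 q) (hqa : ¬ q ∣ a) :
    Option (Ix a) ≃ Ix (a * q) :=
  Equiv.ofBijective
    (fun o => o.elim ⟨q, by rw [pf_mul ha hq]; simp⟩
      fun i => ⟨i, by rw [pf_mul ha hq]; exact Finset.mem_union_left _ i.2⟩) <| by
    constructor
    · intro x y hxy
      rcases x with _ | x <;> rcases y with _ | y
      · rfl
      · exact absurd (Nat.dvd_of_mem_primeFactors y.2)
          (by have := congrArg Subtype.val hxy; simp only [Option.elim] at this; rwa [← this])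
      · exact absurd (Nat.dvd_of_mem_primeFactors x.2)
          (by have := congrArg Subtype.val hxy; simp only [Option.elim] at this; rwa [this])
      · have := congrArg Subtype.val hxy
        simp only [Option.elim] at this
        exact congrArg some (Subtype.ext this)
    · rintro ⟨y, hy⟩
      have hy' := hy
      rw [pf_mul ha hq, Finset.mem_union, Finset.mem_singleton] at hy'
      rcases hy' with h | h
      · exact ⟨some ⟨y, h⟩, rfl⟩
      · exact ⟨none, Subtype.ext h.symm⟩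

section
variable {a q : ℕ} (ha : F1 a) (hq : P8 q) (hqa : ¬ q ∣ a)

theorem ixe_none : ((ixe a q ha hq hqa none : Ix (a * q)) : ℕ) = q := rfl

theorem ixe_some (i : Ix a) : ((ixe a q ha hq hqa (some i) : Ix (a * q)) : ℕ) = i := rfl

theorem ixe_R (i j : Option (Ix a)) (hij : i ≠ j) :
    Ra (a * q) (ixe a q ha hq hqa i) (ixe a q ha hq hqa j) =
      exR (Ra a) (sa a) (wq a q) (nn q) i j := by
  rcases i with _ | i <;> rcases j with _ | j
  · exact absurd rfl hij
  · show sy q j = sy j q + nn q * nn j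
    have hne : (j : ℕ) ≠ q := by
      intro h; apply hqa; rw [← h]; exact Nat.dvd_of_mem_primeFactors j.2
    rw [sy_rec (F1_P8 ha j) hq hne, mul_comm]
  · rfl
  · rfl

theorem ixe_s (i : Option (Ix a)) :
    sa (a * q) (ixe a q ha hq hqa i) = exv (sa a) (nn q) i := by
  rcases i with _ | i <;> rfl

theorem ixe_l (i : Option (Ix a)) :
    la (a * q) (ixe a q ha hq hqa i) = exv (la a) (lam q) i := by
  rcases i with _ | i <;> rfl

end

theorem Kf_mul (a q : ℕ) (ha : F1 a) (hq : P8 q) (hqa : ¬ q ∣ a) :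
    Kf (a * q) =
      KK (exR (Ra a) (sa a) (wq a q) (nn q)) (exv (sa a) (nn q)) (exv (la a) (lam q)) :=
  KK_reindex (ixe a q ha hq hqa) _ _ _ _ _ _ (ixe_R ha hq hqa) (ixe_s ha hq hqa)
    (ixe_l ha hq hqa)

theorem Gf_mul (J a q : ℕ) (ha : F1 a) (hq : P8 q) (hqa : ¬ q ∣ a) :
    Gf J (a * q) =
      GG J (exR (Ra a) (sa a) (wq a q) (nn q)) (exv (sa a) (nn q)) (exv (la a) (lam q)) :=
  GG_reindex J (ixe a q ha hq hqa) _ _ _ _ _ _ (ixe_R ha hq hqa) (ixe_s ha hq hqa)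
    (ixe_l ha hq hqa)

/-- the function `Gf J (a q)` of the symbols of `q` -/
noncomputable def GPh (J a : ℕ) : Ph a :=
  fun w s l => GG J (exR (Ra a) (sa a) w s) (exv (sa a) s) (exv (la a) l)

theorem GPh_ev (J a q : ℕ) (ha : F1 a) (hq : P8 q) (hqa : ¬ q ∣ a) :
    ev a (GPh J a) q = Gf J (a * q) := (Gf_mul J a q ha hq hqa).symm

theorem GPh_abs (J a : ℕ) (w : Ix a → ZMod 2) (s l : ZMod 2) : |GPh J a w s l| ≤ 1 := by
  rw [GPh, abs_of_nonneg (GG_nonneg _ _ _ _)]
  exact GG_le_one _ _ _ _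

theorem GPh_avg (J a : ℕ) (ha : F1 a) : |avg a (GPh J a) - Gf (J + 1) a| ≤ 2 * (K0f a - 1) := by
  have h := GG_step (la a) (recip_a a ha) J
  rw [card_Ix] at h
  exact h

theorem Kf_le (a q : ℕ) (ha : F1 (a * q)) (hq : q.Prime) : Kf (a * q) ≤ 2 * Kf a := by
  have ha' : F1 a := F1_dvd ha (Nat.dvd_mul_right a q)
  have hq' : P8 q := ⟨hq, ha.2 q (Nat.mem_primeFactors.2
    ⟨hq, Nat.dvd_mul_left q a, F1_ne_zero ha⟩)⟩
  have hqa : ¬ q ∣ a := by
    intro h
    have h2 : q * q ∣ a * q := Nat.mul_dvd_mul_right h q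
    exact hq.prime.not_isUnit (ha.1 q h2)
  rw [Kf_mul a q ha' hq' hqa]
  exact KK_ext_le _ _ _ _ _ _

theorem one_le_Kf (a : ℕ) : 1 ≤ Kf a := KK_pos _ _ _

theorem one_le_K0f (a : ℕ) : 1 ≤ K0f a := one_le_K0 _ _

theorem Gf_bound (J a : ℕ) : |Gf J a - Pinf| ≤ Kf a / 2 ^ J := by
  have h := GG_bound J (Ra a) (sa a) (la a)
  rw [one_div, inv_pow] at h
  rw [div_eq_inv_mul]
  exact h

end Pool.Agent.GTL
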