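import Pool.Agent.GTL.PrdA
import Pool.Agent.GTL.Defs
import Pool.Agent.TLW.PrdB
set_option autoImplicit false

/-! product formulas with a smooth part -/

namespace Pool.Agent.GTL

open Pool.Agent.TLW

open Finset

variable [Dat]

section
variable {z x : ℕ} {s t : Finset ℕ}

lemma union_primeFactors (hs : s ⊆ pr 0 z) (ht : t ⊆ pr z x) :
    (∏ p ∈ s ∪ t, p).primeFactors = s ∪ t := by
  apply Nat.primeFactors_prod
  intro p hp
  rw [Finset.mem_union] at hp
  rcases hp with hp | hp
  · exact pr_prime (hs hp)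
  · exact pr_prime (ht hp)

lemma filter_le_union (hs : s ⊆ pr 0 z) (ht : t ⊆ pr z x) :
    (s ∪ t).filter (· ≤ z) = s := by
  ext p
  rw [Finset.mem_filter, Finset.mem_union]
  constructor
  · rintro ⟨h | h, h'⟩
    · exact h
    · have := (mem_pr.1 (ht h)).1.1
      omega
  · intro h
    exact ⟨Or.inl h, (mem_pr.1 (hs h)).1.2⟩

lemma filter_lt_union (hs : s ⊆ pr 0 z) (ht : t ⊆ pr z x) :
    (s ∪ t).filter (z < ·) = t := by
  ext p
  rw [Finset.mem_filter, Finset.mem_union]
  constructor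
  · rintro ⟨h | h, h'⟩
    · have := (mem_pr.1 (hs h)).1.2
      omega
    · exact h
  · intro h
    exact ⟨Or.inr h, (mem_pr.1 (ht h)).1.1⟩

lemma smo_union (hs : s ⊆ pr 0 z) (ht : t ⊆ pr z x) : smo z (∏ p ∈ s ∪ t, p) = ∏ p ∈ s, p := by
  unfold smo
  rw [union_primeFactors hs ht, filter_le_union hs ht]

lemma big_union (hs : s ⊆ pr 0 z) (ht : t ⊆ pr z x) : big z (∏ p ∈ s ∪ t, p) = t.card := by
  unfold big
  rw [union_primeFactors hs ht, filter_lt_union hs ht]

lemma cast_union (hs : s ⊆ pr 0 z) (ht : t ⊆ pr z x) :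
    ((∏ p ∈ s ∪ t, p : ℕ) : ℝ) = ((∏ p ∈ s, p : ℕ) : ℝ) * ((∏ p ∈ t, p : ℕ) : ℝ) := by
  rw [Finset.prod_union]
  · push_cast
    rfl
  · exact Finset.disjoint_of_subset_left hs (Finset.disjoint_of_subset_right ht (pr_disj z x))

end

/-- sums over smooth part times rough part -/
theorem sum_smo (z x : ℕ) (hzx : z ≤ x) (f : ℕ → ℝ) :
    ∑ m ∈ (PP x).divisors, f (smo z m) / m =
      (∑ a ∈ (PP z).divisors, f a / a) * ∏ p ∈ pr z x, (1 + 1 / (p : ℝ)) := by
  rw [sum_PP x (fun m => f (smo z m) / m), ← pr_union hzx, sum_powerset_union (pr_disj z x),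
    sum_PP z (fun a => f a / a), Finset.prod_one_add, Finset.sum_mul_sum]
  apply Finset.sum_congr rfl
  intro s hs
  rw [Finset.mem_powerset] at hs
  apply Finset.sum_congr rfl
  intro t ht
  rw [Finset.mem_powerset] at ht
  rw [smo_union hs ht, cast_union hs ht, ← inv_prod]
  simp only [div_eq_mul_inv, mul_inv, one_mul]
  ring

/-- rough numbers -/
theorem sum_rough (z x : ℕ) (hzx : z ≤ x) :
    ∑ m ∈ (PP x).divisors.filter (Rgh z), 1 / (m : ℝ) = ∏ p ∈ pr z x, (1 + 1 / (p : ℝ)) := by
  have h1 := sum_smo z x hzx (fun a => if a = 1 then 1 else 0)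
  have h2 : ∑ a ∈ (PP z).divisors, (if a = 1 then (1 : ℝ) else 0) / a = 1 := by
    rw [Finset.sum_eq_single 1]
    · simp
    · intro b _ hb
      rw [if_neg hb, zero_div]
    · intro h
      exact absurd (Nat.one_mem_divisors.2 (PP_ne_zero z)) h
  rw [h2, one_mul] at h1
  rw [← h1, Finset.sum_filter]
  apply Finset.sum_congr rfl
  intro m hm
  have hm' := (mem_PP_divisors_iff_sub x m).1 hm
  have h3 : smo z m = 1 ↔ Rgh z m := by
    unfold smo Rgh
    constructor
    · intro h p hp
      by_contra hlt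
      have hmem : p ∈ m.primeFactors.filter (· ≤ z) := by
        rw [Finset.mem_filter]
        exact ⟨hp, by omega⟩
      have := Finset.dvd_prod_of_mem (fun p => p) hmem
      rw [h] at this
      exact (Nat.prime_of_mem_primeFactors hp).one_lt.ne' (Nat.dvd_one.1 this)
    · intro h
      have : m.primeFactors.filter (· ≤ z) = ∅ := by
        rw [Finset.filter_eq_empty_iff]
        intro p hp
        have := h p hp
        omega
      rw [this, Finset.prod_empty]
  by_cases h4 : Rgh z m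
  · rw [if_pos h4, if_pos (h3.2 h4)]
  · rw [if_neg h4, if_neg (fun h => h4 (h3.1 h)), zero_div]

/-- elementary symmetric sums are at most powers -/
lemma esymm_le (f : ℕ → ℝ) (hf : ∀ p, 0 ≤ f p) (B : Finset ℕ) : ∀ j : ℕ,
    ∑ t ∈ B.powersetCard j, ∏ p ∈ t, f p ≤ (∑ p ∈ B, f p) ^ j := by
  induction B using Finset.induction_on with
  | empty =>
    intro j
    rcases Nat.eq_zero_or_pos j with rfl | hj
    · simp
    · rw [Finset.powersetCard_eq_empty.2 (by simpa using hj), Finset.sum_empty]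
      simp [hj.ne']
  | insert b B hb ih =>
    intro j
    have hS : 0 ≤ ∑ p ∈ B, f p := Finset.sum_nonneg fun p _ => hf p
    rcases Nat.eq_zero_or_pos j with rfl | hj
    · simp
    · obtain ⟨k, rfl⟩ : ∃ k, j = k + 1 := ⟨j - 1, by omega⟩
      rw [Finset.powersetCard_succ_insert hb, Finset.sum_union, Finset.sum_insert hb]
      · have h1 : ∑ t ∈ (B.powersetCard k).image (insert b), ∏ p ∈ t, f p =
            f b * ∑ t ∈ B.powersetCard k, ∏ p ∈ t, f p := by
          rw [Finset.sum_image, Finset.mul_sum]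
          · apply Finset.sum_congr rfl
            intro t ht
            rw [Finset.mem_powersetCard] at ht
            rw [Finset.prod_insert (fun h => hb (ht.1 h))]
          · intro t ht t' ht' h
            rw [Finset.mem_coe, Finset.mem_powersetCard] at ht ht'
            have e1 := Finset.erase_insert (fun h => hb (ht.1 h))
            have e2 := Finset.erase_insert (fun h => hb (ht'.1 h))
            rw [← e1, ← e2, h]
        rw [h1]
        have h2 := ih (k + 1)
        have h3 := ih k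
        have h4 : (∑ p ∈ B, f p) ^ k ≤ (f b + ∑ p ∈ B, f p) ^ k :=
          pow_le_pow_left₀ hS (by linarith [hf b]) k
        calc ∑ t ∈ B.powersetCard (k + 1), ∏ p ∈ t, f p + f b * ∑ t ∈ B.powersetCard k, ∏ p ∈ t, f p
            ≤ (∑ p ∈ B, f p) ^ (k + 1) + f b * (∑ p ∈ B, f p) ^ k :=
              add_le_add h2 (mul_le_mul_of_nonneg_left h3 (hf b))
          _ = (f b + ∑ p ∈ B, f p) * (∑ p ∈ B, f p) ^ k := by ring
          _ ≤ (f b + ∑ p ∈ B, f p) * (f b + ∑ p ∈ B, f p) ^ k :=
              mul_le_mul_of_nonneg_left h4 (by linarith [hf b])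
          _ = (f b + ∑ p ∈ B, f p) ^ (k + 1) := by ring
      · rw [Finset.disjoint_left]
        intro t ht ht'
        rw [Finset.mem_powersetCard] at ht
        rw [Finset.mem_image] at ht'
        obtain ⟨t', _, rfl⟩ := ht'
        exact hb (ht.1 (Finset.mem_insert_self b t'))

/-- few large primes -/
theorem sum_few (z x J0 : ℕ) (hzx : z ≤ x) :
    ∑ m ∈ (PP x).divisors.filter (fun m => big z m < J0), 1 / (m : ℝ) ≤
      DD z * ∑ j ∈ range J0, (∑ p ∈ pr z x, 1 / (p : ℝ)) ^ j := by
  rw [Finset.sum_filter, sum_PP x (fun m => if big z m < J0 then 1 / (m : ℝ) else 0),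
    ← pr_union hzx, sum_powerset_union (pr_disj z x)]
  have h1 : ∀ s ∈ (pr 0 z).powerset, ∑ t ∈ (pr z x).powerset,
      (if big z (∏ p ∈ s ∪ t, p) < J0 then 1 / ((∏ p ∈ s ∪ t, p : ℕ) : ℝ) else 0) =
      1 / ((∏ p ∈ s, p : ℕ) : ℝ) * ∑ t ∈ (pr z x).powerset,
        (if t.card < J0 then ∏ p ∈ t, 1 / (p : ℝ) else 0) := by
    intro s hs
    rw [Finset.mem_powerset] at hs
    rw [Finset.mul_sum]
    apply Finset.sum_congr rfl
    intro t ht
    rw [Finset.mem_powerset] at ht
    rw [big_union hs ht, cast_union hs ht, ← inv_prod t]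
    split_ifs
    · simp only [div_eq_mul_inv, mul_inv, one_mul]
    · rw [mul_zero]
  rw [Finset.sum_congr rfl h1, ← Finset.sum_mul]
  have h2 : ∑ s ∈ (pr 0 z).powerset, 1 / ((∏ p ∈ s, p : ℕ) : ℝ) = DD z := by
    rw [← DD_eq, sum_PP z (fun a => 1 / (a : ℝ))]
  rw [h2]
  apply mul_le_mul_of_nonneg_left _ (by linarith [one_le_DD z])
  have h3 : ∑ t ∈ (pr z x).powerset, (if t.card < J0 then ∏ p ∈ t, 1 / (p : ℝ) else 0) =
      ∑ j ∈ range J0, ∑ t ∈ (pr z x).powersetCard j, ∏ p ∈ t, 1 / (p : ℝ) := by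
    rw [← Finset.sum_filter, ← Finset.sum_biUnion]
    · apply Finset.sum_congr _ (fun _ _ => rfl)
      ext t
      rw [Finset.mem_filter, Finset.mem_powerset, Finset.mem_biUnion]
      constructor
      · rintro ⟨h, h'⟩
        exact ⟨t.card, Finset.mem_range.2 h', Finset.mem_powersetCard.2 ⟨h, rfl⟩⟩
      · rintro ⟨j, hj, h⟩
        rw [Finset.mem_powersetCard] at h
        rw [Finset.mem_range] at hj
        exact ⟨h.1, by rw [h.2]; exact hj⟩
    · intro i _ j _ hij
      rw [Function.onFun, Finset.disjoint_left]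
      intro t ht ht'
      rw [Finset.mem_powersetCard] at ht ht'
      exact hij (ht.2.symm.trans ht'.2)
  rw [h3]
  apply Finset.sum_le_sum
  intro j _
  exact esymm_le (fun p => 1 / (p : ℝ)) (fun p => by positivity) _ j

end Pool.Agent.GTL
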