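import Pool.Agent.GTL.RegB
import Pool.Agent.GTL.Defs
import Pool.Agent.TLW.RegC
set_option autoImplicit false

/-! regularity of the yardstick `DD` -/

namespace Pool.Agent.GTL

open Pool.Agent.TLW

open Finset Filter Topology

variable [Dat]

/-- the lower exponent -/
noncomputable def al : ℝ := dn / 2

lemma al_pos : 0 < al := by have := dn_pos; unfold al; linarith

lemma al_le : al ≤ 1 / 4 := by have := dn_le; unfold al; linarith

/-- the factor between `Y` and `Z` -/
lemma DD_div {Y Z : ℕ} (h : Y ≤ Z) : DD Z / DD Y = ∏ p ∈ pr Y Z, (1 + 1 / (p : ℝ)) := by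
  rw [DD_mul h, mul_div_cancel_left₀]
  have := one_le_DD Y
  linarith

lemma log_DD_div (Y Z : ℕ) : Real.log (∏ p ∈ pr Y Z, (1 + 1 / (p : ℝ))) =
    ∑ p ∈ pr Y Z, Real.log (1 + 1 / (p : ℝ)) := by
  apply Real.log_prod
  intro p _
  have := one_le_factor p
  linarith

lemma log_DD_le (Y Z : ℕ) : Real.log (∏ p ∈ pr Y Z, (1 + 1 / (p : ℝ))) ≤
    ∑ p ∈ pr Y Z, 1 / (p : ℝ) := by
  rw [log_DD_div]
  apply Finset.sum_le_sum
  intro p _
  have h1 := one_le_factor p
  have := Real.log_le_sub_one_of_pos (x := 1 + 1 / (p : ℝ)) (by linarith)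
  linarith

lemma le_log_DD {Y Z : ℕ} (hY : 1 ≤ Y) (hZ : Y ≤ Z) : ∑ p ∈ pr Y Z, 1 / (p : ℝ) - 1 / Y ≤
    Real.log (∏ p ∈ pr Y Z, (1 + 1 / (p : ℝ))) := by
  rw [log_DD_div]
  have h1 : ∑ p ∈ pr Y Z, (1 / (p : ℝ) - (1 / (p : ℝ)) ^ 2) ≤
      ∑ p ∈ pr Y Z, Real.log (1 + 1 / (p : ℝ)) :=
    Finset.sum_le_sum fun p _ => log_one_add_ge (by positivity)
  rw [Finset.sum_sub_distrib] at h1
  have h2 : ∑ p ∈ pr Y Z, (1 / (p : ℝ)) ^ 2 ≤ ∑ n ∈ Ioc Y Z, (1 / (n : ℝ)) ^ 2 := by
    apply Finset.sum_le_sum_of_subset_of_nonneg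
    · exact Finset.filter_subset _ _
    · intro i _ _
      positivity
  have h3 := sum_inv_sq_le hY Z hZ
  have h4 : (0 : ℝ) ≤ 1 / Z := by positivity
  linarith

/-- one squaring step -/
lemma DD_sq_step : ∃ Y0 : ℕ, 2 ≤ Y0 ∧ ∀ Y : ℕ, Y0 ≤ Y →
    (2 : ℝ) ^ al * DD Y ≤ DD (Y ^ 2) ∧ DD (Y ^ 2) ≤ (2 : ℝ) ^ (3 / 5 : ℝ) * DD Y := by
  have hlog : Tendsto (fun Y : ℕ => Real.log (∏ p ∈ pr Y (Y ^ 2), (1 + 1 / (p : ℝ)))) atTop
      (𝓝 (dn * Real.log 2)) := by
    have h1 : Tendsto (fun Y : ℕ => ∑ p ∈ pr Y (Y ^ 2), 1 / (p : ℝ) - 1 / Y) atTop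
        (𝓝 (dn * Real.log 2 - 0)) := pr_sum_sq.sub (tendsto_one_div_atTop_nhds_zero_nat (𝕜 := ℝ))
    rw [sub_zero] at h1
    refine tendsto_of_tendsto_of_tendsto_of_le_of_le' h1 pr_sum_sq ?_ ?_
    · filter_upwards [eventually_ge_atTop 1] with Y hY
      exact le_log_DD hY (by nlinarith)
    · filter_upwards with Y
      exact log_DD_le _ _
  have h2 : 0 < Real.log 2 := Real.log_pos (by norm_num)
  have hlo := hlog.eventually (lt_mem_nhds (a := al * Real.log 2) (by
    have := dn_pos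
    unfold al
    nlinarith))
  have hhi := hlog.eventually (gt_mem_nhds (show dn * Real.log 2 < 3 / 5 * Real.log 2 by
    have := dn_le
    nlinarith))
  obtain ⟨Y0, hY0⟩ := Filter.eventually_atTop.1 (hlo.and hhi)
  refine ⟨max Y0 2, le_max_right _ _, fun Y hY => ?_⟩
  have hY2 : 2 ≤ Y := (le_max_right _ _).trans hY
  have hYY : Y ≤ Y ^ 2 := by nlinarith
  obtain ⟨h3, h4⟩ := hY0 Y ((le_max_left _ _).trans hY)
  have hpos : 0 < ∏ p ∈ pr Y (Y ^ 2), (1 + 1 / (p : ℝ)) := by
    have := one_le_prod (pr Y (Y ^ 2))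
    linarith
  have hD := one_le_DD Y
  rw [DD_mul hYY, mul_comm (DD Y)]
  constructor
  · apply mul_le_mul_of_nonneg_right _ (by linarith)
    rw [← Real.log_le_log_iff (by positivity) hpos, Real.log_rpow (by norm_num)]
    exact h3.le
  · apply mul_le_mul_of_nonneg_right _ (by linarith)
    rw [← Real.log_le_log_iff hpos (by positivity), Real.log_rpow (by norm_num)]
    exact h4.le

/-- iterated squaring -/
lemma DD_iter {Y0 : ℕ} (h2 : 2 ≤ Y0) (h : ∀ Y : ℕ, Y0 ≤ Y →
    (2 : ℝ) ^ al * DD Y ≤ DD (Y ^ 2) ∧ DD (Y ^ 2) ≤ (2 : ℝ) ^ (3 / 5 : ℝ) * DD Y)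
    {Y : ℕ} (hY : Y0 ≤ Y) : ∀ j : ℕ,
    ((2 : ℝ) ^ j) ^ al * DD Y ≤ DD (Y ^ 2 ^ j) ∧
      DD (Y ^ 2 ^ j) ≤ ((2 : ℝ) ^ j) ^ (3 / 5 : ℝ) * DD Y := by
  intro j
  induction j with
  | zero => simp
  | succ j ih =>
    have h3 : Y0 ≤ Y ^ 2 ^ j := by
      calc Y0 ≤ Y := hY
        _ = Y ^ 1 := (pow_one Y).symm
        _ ≤ Y ^ 2 ^ j := Nat.pow_le_pow_right (by omega) Nat.one_le_two_pow
    obtain ⟨h4, h5⟩ := h _ h3
    have h6 : (Y ^ 2 ^ j) ^ 2 = Y ^ 2 ^ (j + 1) := by rw [← pow_mul, ← pow_succ]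
    rw [h6] at h4 h5
    have e : ∀ r : ℝ, ((2 : ℝ) ^ (j + 1)) ^ r = (2 : ℝ) ^ r * ((2 : ℝ) ^ j) ^ r := by
      intro r
      rw [pow_succ', Real.mul_rpow (by norm_num) (by positivity)]
    rw [e, e]
    constructor
    · calc (2 : ℝ) ^ al * ((2 : ℝ) ^ j) ^ al * DD Y
          = (2 : ℝ) ^ al * (((2 : ℝ) ^ j) ^ al * DD Y) := by ring
        _ ≤ (2 : ℝ) ^ al * DD (Y ^ 2 ^ j) :=
          mul_le_mul_of_nonneg_left ih.1 (by positivity)
        _ ≤ _ := h4
    · calc DD (Y ^ 2 ^ (j + 1)) ≤ (2 : ℝ) ^ (3 / 5 : ℝ) * DD (Y ^ 2 ^ j) := h5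
        _ ≤ (2 : ℝ) ^ (3 / 5 : ℝ) * (((2 : ℝ) ^ j) ^ (3 / 5 : ℝ) * DD Y) :=
          mul_le_mul_of_nonneg_left ih.2 (by positivity)
        _ = _ := by ring

/-- large arguments -/
lemma DD_big {Y0 : ℕ} (h2 : 2 ≤ Y0) (h : ∀ Y : ℕ, Y0 ≤ Y →
    (2 : ℝ) ^ al * DD Y ≤ DD (Y ^ 2) ∧ DD (Y ^ 2) ≤ (2 : ℝ) ^ (3 / 5 : ℝ) * DD Y)
    {y x : ℕ} (hy : Y0 ≤ y) (hx : y ≤ x) :
    DD y ≤ 2 * (Real.log y / Real.log x) ^ al * DD x ∧
      DD x ≤ 2 * (Real.log x / Real.log y) ^ (3 / 5 : ℝ) * DD y := by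
  have hy2 : 2 ≤ y := h2.trans hy
  have hyr : (2 : ℝ) ≤ y := by exact_mod_cast hy2
  have hxr : (y : ℝ) ≤ x := by exact_mod_cast hx
  have hly : 0 < Real.log y := Real.log_pos (by linarith)
  have hlx : 0 < Real.log x := Real.log_pos (by linarith)
  -- the exponent
  have hex : ∃ j : ℕ, x < y ^ 2 ^ (j + 1) := by
    refine ⟨x, ?_⟩
    calc x < 2 ^ x := Nat.lt_two_pow_self
      _ ≤ y ^ x := Nat.pow_le_pow_left hy2 x
      _ ≤ y ^ 2 ^ (x + 1) := by
        apply Nat.pow_le_pow_right (by omega)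
        have : x + 1 < 2 ^ (x + 1) := Nat.lt_two_pow_self
        omega
  classical
  obtain ⟨j, hj1, hj2⟩ : ∃ j : ℕ, y ^ 2 ^ j ≤ x ∧ x < y ^ 2 ^ (j + 1) := by
    refine ⟨Nat.find hex, ?_, Nat.find_spec hex⟩
    rcases Nat.eq_zero_or_pos (Nat.find hex) with h0 | h0
    · rw [h0]
      simpa using hx
    · have := Nat.find_min hex (m := Nat.find hex - 1) (by omega)
      rw [not_lt, Nat.sub_add_cancel h0] at this
      exact this
  have hlog : ∀ i : ℕ, Real.log ((y ^ 2 ^ i : ℕ) : ℝ) = 2 ^ i * Real.log y := by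
    intro i
    push_cast
    rw [Real.log_pow]
    push_cast
    rfl
  have hL1 : (2 : ℝ) ^ j * Real.log y ≤ Real.log x := by
    rw [← hlog]
    apply Real.log_le_log
    · exact_mod_cast Nat.pos_of_ne_zero (by positivity)
    · exact_mod_cast hj1
  have hL2 : Real.log x ≤ (2 : ℝ) ^ (j + 1) * Real.log y := by
    rw [← hlog]
    apply Real.log_le_log (by linarith)
    exact_mod_cast hj2.le
  have hq1 : (2 : ℝ) ^ j ≤ Real.log x / Real.log y := by rwa [le_div_iff₀ hly]
  have hq2 : Real.log x / Real.log y ≤ (2 : ℝ) ^ (j + 1) := by rwa [div_le_iff₀ hly]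
  obtain ⟨i1, _⟩ := DD_iter h2 h hy j
  obtain ⟨_, i2⟩ := DD_iter h2 h hy (j + 1)
  have hm1 := DD_mono hj1
  have hm2 := DD_mono hj2.le
  have hDy := one_le_DD y
  have hDx := one_le_DD x
  set q : ℝ := Real.log x / Real.log y with hq
  have hq0 : 0 < q := by positivity
  constructor
  · have e1 : Real.log y / Real.log x = q⁻¹ := by rw [hq, inv_div]
    rw [e1, Real.inv_rpow hq0.le]
    have h3 : q ^ al * DD y ≤ 2 * DD x := by
      have h4 : q ^ al ≤ 2 * ((2 : ℝ) ^ j) ^ al := by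
        calc q ^ al ≤ ((2 : ℝ) ^ (j + 1)) ^ al :=
              Real.rpow_le_rpow hq0.le hq2 al_pos.le
          _ = (2 : ℝ) ^ al * ((2 : ℝ) ^ j) ^ al := by
              rw [pow_succ', Real.mul_rpow (by norm_num) (by positivity)]
          _ ≤ 2 * ((2 : ℝ) ^ j) ^ al := by
              apply mul_le_mul_of_nonneg_right _ (by positivity)
              calc (2 : ℝ) ^ al ≤ (2 : ℝ) ^ (1 : ℝ) :=
                    Real.rpow_le_rpow_of_exponent_le (by norm_num) (by have := al_le; linarith)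
                _ = 2 := Real.rpow_one 2
      calc q ^ al * DD y ≤ 2 * ((2 : ℝ) ^ j) ^ al * DD y :=
            mul_le_mul_of_nonneg_right h4 (by linarith)
        _ = 2 * (((2 : ℝ) ^ j) ^ al * DD y) := by ring
        _ ≤ 2 * DD x := by
            apply mul_le_mul_of_nonneg_left (i1.trans hm1) (by norm_num)
    have hqp : 0 < q ^ al := Real.rpow_pos_of_pos hq0 _
    calc DD y = (q ^ al)⁻¹ * (q ^ al * DD y) := by
          field_simp
      _ ≤ (q ^ al)⁻¹ * (2 * DD x) := mul_le_mul_of_nonneg_left h3 (by positivity)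
      _ = 2 * (q ^ al)⁻¹ * DD x := by ring
  · calc DD x ≤ ((2 : ℝ) ^ (j + 1)) ^ (3 / 5 : ℝ) * DD y := hm2.trans i2
      _ = (2 : ℝ) ^ (3 / 5 : ℝ) * ((2 : ℝ) ^ j) ^ (3 / 5 : ℝ) * DD y := by
          rw [pow_succ', Real.mul_rpow (by norm_num) (by positivity)]
      _ ≤ 2 * q ^ (3 / 5 : ℝ) * DD y := by
          apply mul_le_mul_of_nonneg_right _ (by linarith)
          apply mul_le_mul _ _ (by positivity) (by norm_num)
          · calc (2 : ℝ) ^ (3 / 5 : ℝ) ≤ (2 : ℝ) ^ (1 : ℝ) :=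
                  Real.rpow_le_rpow_of_exponent_le (by norm_num) (by norm_num)
              _ = 2 := Real.rpow_one 2
          · exact Real.rpow_le_rpow (by positivity) hq1 (by norm_num)

theorem DD_reg : ∃ C : ℝ, 0 < C ∧ ∀ y x : ℕ, 2 ≤ y → y ≤ x →
    DD y ≤ C * (Real.log y / Real.log x) ^ al * DD x ∧
      DD x ≤ C * (Real.log x / Real.log y) ^ (3 / 5 : ℝ) * DD y := by
  obtain ⟨Y0, h2, h⟩ := DD_sq_step
  have hD0 := one_le_DD Y0
  have hl2 : 0 < Real.log 2 := Real.log_pos (by norm_num)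
  have hY0r : (2 : ℝ) ≤ Y0 := by exact_mod_cast h2
  have hl0 : Real.log 2 ≤ Real.log Y0 := Real.log_le_log (by norm_num) hY0r
  set K : ℝ := Real.log Y0 / Real.log 2 with hK
  have hK1 : 1 ≤ K := by rwa [hK, le_div_iff₀ hl2, one_mul]
  have hKle : ∀ r : ℝ, r ≤ 1 → K ^ r ≤ K := by
    intro r hr
    calc K ^ r ≤ K ^ (1 : ℝ) := Real.rpow_le_rpow_of_exponent_le hK1 hr
      _ = K := Real.rpow_one K
  refine ⟨2 * K * DD Y0, by positivity, fun y x hy hx => ?_⟩
  have hyr : (2 : ℝ) ≤ y := by exact_mod_cast hy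
  have hxr : (y : ℝ) ≤ x := by exact_mod_cast hx
  have hly2 : Real.log 2 ≤ Real.log y := Real.log_le_log (by norm_num) hyr
  have hly : 0 < Real.log y := by linarith
  have hlyx : Real.log y ≤ Real.log x := Real.log_le_log (by linarith) hxr
  have hlx : 0 < Real.log x := by linarith
  have hDy := one_le_DD y
  have hDx := one_le_DD x
  have hYK : Real.log Y0 ≤ K * Real.log y := by
    have : Real.log Y0 = K * Real.log 2 := by
      rw [hK]
      field_simp
    rw [this]
    exact mul_le_mul_of_nonneg_left hly2 (by linarith)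
  rcases le_or_gt Y0 y with hc | hc
  · obtain ⟨a1, a2⟩ := DD_big h2 h hc hx
    have hcoef : (2 : ℝ) ≤ 2 * K * DD Y0 := by nlinarith
    constructor
    · refine a1.trans ?_
      apply mul_le_mul_of_nonneg_right _ (by linarith)
      exact mul_le_mul_of_nonneg_right hcoef (by positivity)
    · refine a2.trans ?_
      apply mul_le_mul_of_nonneg_right _ (by linarith)
      exact mul_le_mul_of_nonneg_right hcoef (by positivity)
  · rcases le_or_gt Y0 x with hcx | hcx
    · obtain ⟨a1, a2⟩ := DD_big h2 h le_rfl hcx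
      constructor
      · have hm := DD_mono hc.le
        refine (hm.trans a1).trans ?_
        apply mul_le_mul_of_nonneg_right _ (by linarith)
        have h3 : Real.log Y0 / Real.log x ≤ K * (Real.log y / Real.log x) := by
          rw [← mul_div_assoc]
          exact div_le_div_of_nonneg_right hYK hlx.le
        have h4 : (Real.log Y0 / Real.log x) ^ al ≤
            K * (Real.log y / Real.log x) ^ al := by
          calc (Real.log Y0 / Real.log x) ^ al
              ≤ (K * (Real.log y / Real.log x)) ^ al :=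
                Real.rpow_le_rpow (by positivity) h3 al_pos.le
            _ = K ^ al * (Real.log y / Real.log x) ^ al :=
                Real.mul_rpow (by linarith) (by positivity)
            _ ≤ K * (Real.log y / Real.log x) ^ al := by
                apply mul_le_mul_of_nonneg_right _ (by positivity)
                exact hKle _ (by have := al_le; linarith)
        have h5 : 0 ≤ (Real.log y / Real.log x) ^ al := by positivity
        calc 2 * (Real.log Y0 / Real.log x) ^ al
            ≤ 2 * (K * (Real.log y / Real.log x) ^ al) :=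
              mul_le_mul_of_nonneg_left h4 (by norm_num)
          _ = 2 * K * 1 * (Real.log y / Real.log x) ^ al := by ring
          _ ≤ 2 * K * DD Y0 * (Real.log y / Real.log x) ^ al := by
              apply mul_le_mul_of_nonneg_right _ h5
              apply mul_le_mul_of_nonneg_left hD0 (by linarith)
      · refine a2.trans ?_
        have h3 : (Real.log x / Real.log Y0) ^ (3 / 5 : ℝ) ≤
            (Real.log x / Real.log y) ^ (3 / 5 : ℝ) := by
          apply Real.rpow_le_rpow (by positivity) _ (by norm_num)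
          apply div_le_div_of_nonneg_left hlx.le hly
          apply Real.log_le_log (by linarith)
          exact_mod_cast hc.le
        have h5 : 0 ≤ (Real.log x / Real.log y) ^ (3 / 5 : ℝ) := by positivity
        calc 2 * (Real.log x / Real.log Y0) ^ (3 / 5 : ℝ) * DD Y0
            ≤ 2 * (Real.log x / Real.log y) ^ (3 / 5 : ℝ) * DD Y0 := by
              apply mul_le_mul_of_nonneg_right _ (by linarith)
              exact mul_le_mul_of_nonneg_left h3 (by norm_num)
          _ = 2 * 1 * DD Y0 * (Real.log x / Real.log y) ^ (3 / 5 : ℝ) * 1 := by ring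
          _ ≤ 2 * K * DD Y0 * (Real.log x / Real.log y) ^ (3 / 5 : ℝ) * DD y := by
              apply mul_le_mul _ hDy (by norm_num) (by positivity)
              apply mul_le_mul_of_nonneg_right _ h5
              apply mul_le_mul_of_nonneg_right _ (by linarith)
              exact mul_le_mul_of_nonneg_left hK1 (by norm_num)
    · constructor
      · have hm := DD_mono hx
        have h3 : Real.log x ≤ K * Real.log y := by
          refine le_trans ?_ hYK
          apply Real.log_le_log (by linarith)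
          exact_mod_cast hcx.le
        have h4 : K⁻¹ ≤ Real.log y / Real.log x := by
          rw [inv_eq_one_div, div_le_div_iff₀ (by linarith) hlx]
          linarith
        have h6 : 1 ≤ K * (Real.log y / Real.log x) ^ al := by
          have h7 : (K⁻¹) ^ al ≤ (Real.log y / Real.log x) ^ al :=
            Real.rpow_le_rpow (by positivity) h4 al_pos.le
          have h8 : K⁻¹ ≤ (K⁻¹) ^ al := by
            rw [Real.inv_rpow (by linarith)]
            apply inv_anti₀ (by positivity)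
            exact hKle _ (by have := al_le; linarith)
          have h9 : K * K⁻¹ = 1 := mul_inv_cancel₀ (by linarith)
          calc (1 : ℝ) = K * K⁻¹ := h9.symm
            _ ≤ _ := mul_le_mul_of_nonneg_left (h8.trans h7) (by linarith)
        calc DD y ≤ 1 * DD x := by rw [one_mul]; exact hm
          _ ≤ 2 * K * DD Y0 * (Real.log y / Real.log x) ^ al * DD x := by
              apply mul_le_mul_of_nonneg_right _ (by linarith)
              have e : 2 * K * DD Y0 * (Real.log y / Real.log x) ^ al =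
                (2 * DD Y0) * (K * (Real.log y / Real.log x) ^ al) := by ring
              rw [e]
              nlinarith
      · have hm := DD_mono hcx.le
        have h3 : 1 ≤ (Real.log x / Real.log y) ^ (3 / 5 : ℝ) := by
          apply Real.one_le_rpow _ (by norm_num)
          rw [le_div_iff₀ hly, one_mul]
          exact hlyx
        calc DD x ≤ DD Y0 := hm
          _ = 1 * 1 * DD Y0 * 1 * 1 := by ring
          _ ≤ 2 * K * DD Y0 * (Real.log x / Real.log y) ^ (3 / 5 : ℝ) * DD y := by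
              apply mul_le_mul _ hDy (by norm_num) (by positivity)
              apply mul_le_mul _ h3 (by norm_num) (by positivity)
              apply mul_le_mul_of_nonneg_right _ (by linarith)
              nlinarith

end Pool.Agent.GTL
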