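import Pool.Agent.GTL.HT
import Pool.Agent.GTL.PrdB
import Pool.Agent.GTL.RegC
import Pool.Agent.GTL.Defs
import Pool.Agent.TLW.Rou
set_option autoImplicit false

/-! counting rough numbers of `F1` -/

namespace Pool.Agent.GTL

open Pool.Agent.TLW

open Finset

variable [Dat]

theorem rough_cnt : ∃ C : ℝ, 0 < C ∧ ∀ z y : ℕ, 2 ≤ z → z ≤ y →
    (((FF y).filter (Rgh z)).card : ℝ) ≤ C * ((y : ℝ) / Real.log z) := by
  obtain ⟨C, hC, h⟩ := ht 1 (by norm_num)
  obtain ⟨D, hD, hreg⟩ := DD_reg
  refine ⟨C * D, mul_pos hC hD, fun z y hz hzy => ?_⟩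
  have hzr : (2 : ℝ) ≤ z := by exact_mod_cast hz
  have hyr : (z : ℝ) ≤ y := by exact_mod_cast hzy
  have hlz : 0 < Real.log z := Real.log_pos (by linarith)
  have hlzy : Real.log z ≤ Real.log y := Real.log_le_log (by linarith) hyr
  have hly : 0 < Real.log y := by linarith
  have h1 := h (fun n => if Rgh z n then 1 else 0)
    (fun n => by split_ifs <;> norm_num)
    (by
      intro b p hbp _
      rw [one_mul]
      by_cases h2 : Rgh z (b * p)
      · have h3 : Rgh z b := by
          intro q hq
          apply h2 q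
          exact Nat.primeFactors_mono (Dvd.intro _ rfl) hbp.1.ne_zero hq
        simp only [if_pos h2, if_pos h3]
        exact le_refl _
      · simp only [if_neg h2]
        split_ifs <;> norm_num) y (hz.trans hzy)
  have h2 : ∑ m ∈ FF y, (if Rgh z m then (1 : ℝ) else 0) =
      (((FF y).filter (Rgh z)).card : ℝ) := by
    rw [← Finset.sum_filter]
    simp
  have h3 : ∑ m ∈ FF y, (if Rgh z m then (1 : ℝ) else 0) / m ≤
      ∏ p ∈ pr z y, (1 + 1 / (p : ℝ)) := by
    rw [← sum_rough z y hzy, Finset.sum_filter]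
    calc ∑ m ∈ FF y, (if Rgh z m then (1 : ℝ) else 0) / m
        = ∑ m ∈ FF y, (if Rgh z m then 1 / (m : ℝ) else 0) := by
          apply Finset.sum_congr rfl
          intro m _
          split_ifs
          · rfl
          · rw [zero_div]
      _ ≤ ∑ m ∈ (PP y).divisors, (if Rgh z m then 1 / (m : ℝ) else 0) := by
          apply Finset.sum_le_sum_of_subset_of_nonneg (FF_subset y)
          intro i _ _
          split_ifs
          · positivity
          · exact le_refl _
  rw [h2] at h1
  have h4 : ∏ p ∈ pr z y, (1 + 1 / (p : ℝ)) ≤ D * (Real.log y / Real.log z) := by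
    rw [← DD_div hzy, div_le_iff₀ (by linarith [one_le_DD z])]
    refine (hreg z y hz hzy).2.trans ?_
    apply mul_le_mul_of_nonneg_right _ (by linarith [one_le_DD z])
    apply mul_le_mul_of_nonneg_left _ hD.le
    have hq : 1 ≤ Real.log y / Real.log z := by
      rw [le_div_iff₀ hlz, one_mul]
      exact hlzy
    calc (Real.log y / Real.log z) ^ (3 / 5 : ℝ) ≤ (Real.log y / Real.log z) ^ (1 : ℝ) :=
          Real.rpow_le_rpow_of_exponent_le hq (by norm_num)
      _ = _ := Real.rpow_one _
  calc (((FF y).filter (Rgh z)).card : ℝ)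
      ≤ C * ((y : ℝ) / Real.log y) * ∑ m ∈ FF y, (if Rgh z m then (1 : ℝ) else 0) / m := h1
    _ ≤ C * ((y : ℝ) / Real.log y) * (D * (Real.log y / Real.log z)) :=
        mul_le_mul_of_nonneg_left (h3.trans h4) (by positivity)
    _ = C * D * ((y : ℝ) / Real.log z) := by
        field_simp

end Pool.Agent.GTL
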