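import Pool.Agent.GTL.Tight
import Pool.Agent.GTL.Rou
import Pool.Agent.GTL.Ifc
import Pool.Agent.GTL.Defs
import Pool.Agent.TLW.K0s
set_option autoImplicit false

/-! the degenerate terms -/

namespace Pool.Agent.GTL

open Pool.Agent.TLW

open Finset

variable [Dat]

private lemma k0s_mem_pr {x y p : ℕ} : p ∈ pr x y ↔ x < p ∧ p ≤ y ∧ P8 p := by
  unfold pr; rw [mem_filter, mem_Ioc]; tauto

private lemma k0s_mem_FF {x n : ℕ} : n ∈ FF x ↔ 1 ≤ n ∧ n ≤ x ∧ F1 n := by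
  unfold FF; rw [mem_filter, mem_Icc]; tauto

/-- a rough number up to `X < (z+1)^k` has fewer than `k` prime factors -/
private lemma k0s_omega {k z X m : ℕ} (hX : X < (z + 1) ^ k) (hm : m ≤ X) (hm0 : m ≠ 0)
    (hr : Rgh z m) : m.primeFactors.card ≤ k := by
  by_contra hcon
  push Not at hcon
  have h1 : (z + 1) ^ m.primeFactors.card ≤ ∏ p ∈ m.primeFactors, p := by
    rw [← prod_const]
    exact prod_le_prod' fun p hp => hr p hp
  have h2 : ∏ p ∈ m.primeFactors, p ≤ m := Nat.le_of_dvd (Nat.pos_of_ne_zero hm0)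
    (Nat.prod_primeFactors_dvd m)
  have h3 : (z + 1) ^ k ≤ (z + 1) ^ m.primeFactors.card :=
    Nat.pow_le_pow_right (Nat.succ_pos _) hcon.le
  omega

private lemma k0s_per_b (k z X b : ℕ) (hz : 1 ≤ z) (hX : X < (z + 1) ^ k) (hb : 1 ≤ b) :
    (∑ n ∈ (FF (X / z)).filter (fun n => b ∣ n ∧ Rgh z (n / b)), ((pr z (X / n)).card : ℝ)) ≤
      k * (((FF (X / b)).filter (Rgh z)).card : ℝ) + (X : ℝ) / b * (1 / z) := by
  classical
  set S : Finset (Σ _ : ℕ, ℕ) := ((FF (X / z)).filter (fun n => b ∣ n ∧ Rgh z (n / b))).sigma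
    fun n => pr z (X / n) with hS
  have hcard : (∑ n ∈ (FF (X / z)).filter (fun n => b ∣ n ∧ Rgh z (n / b)),
      ((pr z (X / n)).card : ℝ)) = (S.card : ℝ) := by
    rw [hS, card_sigma]; push_cast; rfl
  have hmem : ∀ u ∈ S, 1 ≤ u.1 ∧ F1 u.1 ∧ b * (u.1 / b) = u.1 ∧ Rgh z (u.1 / b) ∧ z < u.2 ∧
      P8 u.2 ∧ u.1 * u.2 ≤ X ∧ 1 ≤ u.1 / b := by
    intro u hu
    rw [hS, mem_sigma, mem_filter, k0s_mem_FF, k0s_mem_pr] at hu
    obtain ⟨⟨⟨h1, h2, h3⟩, h4, h5⟩, h6, h7, h8⟩ := hu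
    refine ⟨h1, h3, Nat.mul_div_cancel' h4, h5, h6, h8, ?_, ?_⟩
    · calc u.1 * u.2 ≤ u.1 * (X / u.1) := Nat.mul_le_mul_left _ h7
        _ ≤ X := Nat.mul_div_le X u.1
    · exact Nat.div_pos (Nat.le_of_dvd h1 h4) hb
  have hsplit := card_filter_add_card_filter_not (s := S) (fun u => u.2 ∣ u.1 / b)
  -- first part
  have h1 : (S.filter (fun u => ¬ u.2 ∣ u.1 / b)).card ≤
      k * ((FF (X / b)).filter (Rgh z)).card := by
    have hT : (((FF (X / b)).filter (Rgh z)).sigma fun m => m.primeFactors).card ≤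
        k * ((FF (X / b)).filter (Rgh z)).card := by
      rw [card_sigma, mul_comm, ← smul_eq_mul]
      refine sum_le_card_nsmul _ _ _ fun m hm => ?_
      rw [mem_filter, k0s_mem_FF] at hm
      exact k0s_omega hX (hm.1.2.1.trans (Nat.div_le_self _ _)) (by omega) hm.2
    refine le_trans (card_le_card_of_injOn
      (fun u => (⟨u.1 / b * u.2, u.2⟩ : Σ _ : ℕ, ℕ)) ?_ ?_) hT
    · intro u hu
      rw [mem_coe, mem_filter] at hu
      obtain ⟨a1, a2, a3, a4, a5, a6, a7, a8⟩ := hmem u hu.1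
      have hF : F1 (u.1 / b) := F1_dvd a2 ⟨b, by rw [mul_comm]; exact a3.symm⟩
      have hF' := F1_mul hF a6 hu.2
      have hne : u.1 / b * u.2 ≠ 0 := hF'.1.ne_zero
      rw [mem_coe, mem_sigma, mem_filter, k0s_mem_FF]
      refine ⟨⟨⟨Nat.pos_of_ne_zero hne, ?_, hF'⟩, ?_⟩, ?_⟩
      · show u.1 / b * u.2 ≤ X / b
        rw [Nat.le_div_iff_mul_le hb]
        calc u.1 / b * u.2 * b = b * (u.1 / b) * u.2 := by ring
          _ ≤ X := by rw [a3]; exact a7
      · intro p hp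
        rw [Nat.mem_primeFactors] at hp
        rcases (hp.1.dvd_mul).mp hp.2.1 with h | h
        · exact a4 p (Nat.mem_primeFactors.mpr ⟨hp.1, h, by omega⟩)
        · rw [(Nat.prime_dvd_prime_iff_eq hp.1 a6.1).mp h]; exact a5
      · exact Nat.mem_primeFactors.mpr ⟨a6.1, Dvd.intro_left _ rfl, hne⟩
    · intro u hu v hv huv
      rw [mem_coe, mem_filter] at hu hv
      obtain ⟨a1, a2, a3, a4, a5, a6, a7, a8⟩ := hmem u hu.1
      obtain ⟨b1, b2, b3, b4, b5, b6, b7, b8⟩ := hmem v hv.1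
      simp only [Sigma.mk.injEq, heq_eq_eq] at huv
      obtain ⟨e1, e2⟩ := huv
      rw [e2] at e1
      have e3 := Nat.eq_of_mul_eq_mul_right b6.1.pos e1
      have e4 : u.1 = v.1 := by rw [← a3, ← b3, e3]
      cases u; cases v
      simp only at e2 e4
      subst e2; subst e4; rfl
  -- second part
  have h2 : ((S.filter (fun u => u.2 ∣ u.1 / b)).card : ℝ) ≤ (X : ℝ) / b * (1 / z) := by
    have hT : (((Ioc z (X + z + 1)).sigma fun q => Icc 1 (X / (b * q ^ 2))).card : ℝ) ≤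
        (X : ℝ) / b * (1 / z) := by
      rw [card_sigma]
      push_cast
      have e1 : ∑ q ∈ Ioc z (X + z + 1), (((Icc 1 (X / (b * q ^ 2))).card : ℕ) : ℝ) ≤
          ∑ q ∈ Ioc z (X + z + 1), (X : ℝ) / b * (((q : ℝ) ^ 2)⁻¹) := by
        refine sum_le_sum fun q hq => ?_
        rw [Nat.card_Icc, Nat.add_sub_cancel]
        refine (Nat.cast_div_le).trans (le_of_eq ?_)
        push_cast
        rw [← div_div, div_eq_mul_inv ((X : ℝ) / b)]
      refine e1.trans ?_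
      rw [← mul_sum]
      refine mul_le_mul_of_nonneg_left ?_ (by positivity)
      have e2 := sum_Ioc_inv_sq_le_sub (α := ℝ) (k := z) (n := X + z + 1) (by omega) (by omega)
      refine e2.trans ?_
      rw [one_div]
      have : (0 : ℝ) ≤ ((X + z + 1 : ℕ) : ℝ)⁻¹ := by positivity
      linarith
    refine le_trans ?_ hT
    refine Nat.cast_le.mpr (card_le_card_of_injOn
      (fun u => (⟨u.2, u.1 / b / u.2⟩ : Σ _ : ℕ, ℕ)) ?_ ?_)
    · intro u hu
      rw [mem_coe, mem_filter] at hu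
      obtain ⟨a1, a2, a3, a4, a5, a6, a7, a8⟩ := hmem u hu.1
      have hq : u.2 * (u.1 / b / u.2) = u.1 / b := Nat.mul_div_cancel' hu.2
      rw [mem_coe, mem_sigma, mem_Ioc, mem_Icc]
      refine ⟨⟨a5, ?_⟩, ?_, ?_⟩
      · show u.2 ≤ X + z + 1
        have : u.2 ≤ u.1 * u.2 := Nat.le_mul_of_pos_left _ a1
        omega
      · exact Nat.div_pos (Nat.le_of_dvd (by omega) hu.2) a6.1.pos
      · show u.1 / b / u.2 ≤ X / (b * u.2 ^ 2)
        rw [Nat.le_div_iff_mul_le (Nat.mul_pos hb (pow_pos a6.1.pos 2))]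
        calc u.1 / b / u.2 * (b * u.2 ^ 2) = b * (u.2 * (u.1 / b / u.2)) * u.2 := by ring
          _ = u.1 * u.2 := by rw [hq, a3]
          _ ≤ X := a7
    · intro u hu v hv huv
      rw [mem_coe, mem_filter] at hu hv
      obtain ⟨a1, a2, a3, a4, a5, a6, a7, a8⟩ := hmem u hu.1
      obtain ⟨b1, b2, b3, b4, b5, b6, b7, b8⟩ := hmem v hv.1
      have hq : u.2 * (u.1 / b / u.2) = u.1 / b := Nat.mul_div_cancel' hu.2
      have hq' : v.2 * (v.1 / b / v.2) = v.1 / b := Nat.mul_div_cancel' hv.2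
      simp only [Sigma.mk.injEq, heq_eq_eq] at huv
      obtain ⟨e1, e2⟩ := huv
      have e4 : u.1 = v.1 := by rw [← a3, ← b3, ← hq, ← hq', e2, e1]
      cases u; cases v
      simp only at e1 e4
      subst e1; subst e4; rfl
  rw [hcard, ← hsplit]
  push_cast
  have h1R : ((S.filter (fun u => ¬ u.2 ∣ u.1 / b)).card : ℝ) ≤
      k * (((FF (X / b)).filter (Rgh z)).card : ℝ) := by exact_mod_cast h1
  linarith

theorem K0sum (k : ℕ) (hk : 1 ≤ k) (ε : ℝ) (hε : 0 < ε) : ∃ X0 : ℕ, ∀ X : ℕ, X0 ≤ X →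
    ∀ z : ℕ, z ^ k ≤ X → X < (z + 1) ^ k →
    ∑ n ∈ FF (X / z), ∑ b ∈ n.divisors.filter (fun b => Rgh z (n / b)),
      (K0f b - 1) * ((pr z (X / n)).card : ℝ) ≤ ε * ((X : ℝ) / Real.log X) * DD X := by
  classical
  obtain ⟨C, hC, hrough⟩ := rough_cnt
  have hkR : (1 : ℝ) ≤ k := by exact_mod_cast hk
  set ε' : ℝ := ε / (2 * k * (k * C + 1)) with hε'
  have hε'0 : 0 < ε' := by positivity
  obtain ⟨Y0, hY0⟩ := tight0 ε' hε'0
  refine ⟨max Y0 (3 ^ k), fun X hX z hz1 hz2 => ?_⟩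
  have hXY : Y0 ≤ X := (le_max_left _ _).trans hX
  have hX3 : 3 ^ k ≤ X := (le_max_right _ _).trans hX
  have hz : 3 ≤ z + 1 := by
    by_contra hcon
    push Not at hcon
    have := Nat.pow_le_pow_left hcon.le k
    omega
  have hz' : 2 ≤ z := by omega
  have hzR : (2 : ℝ) ≤ z := by exact_mod_cast hz'
  have hX3' : 3 ≤ X := by
    calc 3 = 3 ^ 1 := rfl
      _ ≤ 3 ^ k := Nat.pow_le_pow_right (by norm_num) hk
      _ ≤ X := hX3
  have hXR : (3 : ℝ) ≤ X := by exact_mod_cast hX3'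
  have hlX : 0 < Real.log X := Real.log_pos (by linarith)
  have hlz : 0 < Real.log z := Real.log_pos (by linarith)
  have hlog : Real.log X ≤ 2 * k * Real.log z := by
    have h1 : (X : ℝ) ≤ ((z : ℝ) ^ 2) ^ k := by
      have : (z + 1) ^ k ≤ (z ^ 2) ^ k := Nat.pow_le_pow_left (by nlinarith) _
      exact_mod_cast hz2.le.trans this
    have h2 := Real.log_le_log (by linarith) h1
    rw [Real.log_pow, Real.log_pow] at h2
    push_cast at h2
    linarith
  -- swap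
  have hswap : ∑ n ∈ FF (X / z), ∑ b ∈ n.divisors.filter (fun b => Rgh z (n / b)),
      (K0f b - 1) * ((pr z (X / n)).card : ℝ) =
      ∑ b ∈ FF (X / z), (K0f b - 1) *
        ∑ n ∈ (FF (X / z)).filter (fun n => b ∣ n ∧ Rgh z (n / b)), ((pr z (X / n)).card : ℝ) := by
    simp_rw [mul_sum]
    refine sum_comm' fun n b => ?_
    rw [mem_filter, mem_filter, Nat.mem_divisors]
    constructor
    · rintro ⟨h1, ⟨h2, h3⟩, h4⟩
      refine ⟨⟨h1, h2, h4⟩, ?_⟩
      rw [k0s_mem_FF] at h1 ⊢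
      exact ⟨Nat.pos_of_dvd_of_pos h2 h1.1, (Nat.le_of_dvd h1.1 h2).trans h1.2.1,
        F1_dvd h1.2.2 h2⟩
    · rintro ⟨⟨h1, h2, h4⟩, h5⟩
      rw [k0s_mem_FF] at h1
      exact ⟨k0s_mem_FF.mpr h1, ⟨h2, by omega⟩, h4⟩
  rw [hswap]
  have hK0 : ∀ b, 0 ≤ K0f b - 1 := fun b => by linarith [one_le_K0f b]
  have hterm : ∀ b ∈ FF (X / z), (K0f b - 1) *
      ∑ n ∈ (FF (X / z)).filter (fun n => b ∣ n ∧ Rgh z (n / b)), ((pr z (X / n)).card : ℝ) ≤
      (K0f b - 1) / b * ((k * C + 1) * X / Real.log z) := by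
    intro b hb
    obtain ⟨hb1, hb2, hb3⟩ := k0s_mem_FF.mp hb
    have hbR : (1 : ℝ) ≤ b := by exact_mod_cast hb1
    have hXb : z ≤ X / b := by
      rw [Nat.le_div_iff_mul_le hb1]
      rw [Nat.le_div_iff_mul_le (by omega)] at hb2
      rwa [mul_comm]
    have h1 := k0s_per_b k z X b (by omega) hz2 hb1
    have h2 := hrough z (X / b) hz' hXb
    have h3 : ((X / b : ℕ) : ℝ) ≤ (X : ℝ) / b := Nat.cast_div_le
    have h4 : (1 : ℝ) / z ≤ 1 / Real.log z := by
      refine one_div_le_one_div_of_le hlz ?_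
      have := Real.log_le_sub_one_of_pos (show (0 : ℝ) < z by linarith)
      linarith
    have h5 : ∑ n ∈ (FF (X / z)).filter (fun n => b ∣ n ∧ Rgh z (n / b)),
        ((pr z (X / n)).card : ℝ) ≤ (k * C + 1) * ((X : ℝ) / b) / Real.log z := by
      refine h1.trans ?_
      have e1 : (k : ℝ) * (((FF (X / b)).filter (Rgh z)).card : ℝ) ≤
          k * (C * (((X : ℝ) / b) / Real.log z)) := by
        refine mul_le_mul_of_nonneg_left (h2.trans ?_) (by positivity)
        refine mul_le_mul_of_nonneg_left ?_ hC.le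
        exact div_le_div_of_nonneg_right h3 hlz.le
      have e2 : (X : ℝ) / b * (1 / z) ≤ (X : ℝ) / b * (1 / Real.log z) :=
        mul_le_mul_of_nonneg_left h4 (by positivity)
      calc _ ≤ k * (C * (((X : ℝ) / b) / Real.log z)) + (X : ℝ) / b * (1 / Real.log z) :=
            add_le_add e1 e2
        _ = _ := by ring
    calc _ ≤ (K0f b - 1) * ((k * C + 1) * ((X : ℝ) / b) / Real.log z) :=
          mul_le_mul_of_nonneg_left h5 (hK0 b)
      _ = _ := by ring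
  refine (sum_le_sum hterm).trans ?_
  rw [← sum_mul]
  have hsum : ∑ b ∈ FF (X / z), (K0f b - 1) / b ≤ ε' * DD X := by
    refine le_trans ?_ (hY0 X hXY)
    refine sum_le_sum_of_subset_of_nonneg ?_ fun b _ _ => div_nonneg (hK0 b) (Nat.cast_nonneg _)
    intro b hb
    refine FF_subset X ?_
    rw [k0s_mem_FF] at hb ⊢
    exact ⟨hb.1, hb.2.1.trans (Nat.div_le_self _ _), hb.2.2⟩
  have hDD := one_le_DD X
  have hfac : (k * C + 1) * X / Real.log z ≤ (k * C + 1) * X * (2 * k) / Real.log X := by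
    rw [div_le_div_iff₀ hlz hlX]
    have : 0 ≤ (k * C + 1) * (X : ℝ) := by positivity
    nlinarith
  calc (∑ b ∈ FF (X / z), (K0f b - 1) / b) * ((k * C + 1) * X / Real.log z)
      ≤ (ε' * DD X) * ((k * C + 1) * X * (2 * k) / Real.log X) :=
        mul_le_mul hsum hfac (by positivity) (by positivity)
    _ = ε * ((X : ℝ) / Real.log X) * DD X := by
        rw [hε']; field_simp

end Pool.Agent.GTL
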