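import Pool.Agent.GTL.Defs
import Pool.Agent.TLW.DC
set_option autoImplicit false

/-! double counting: definitions and end terms -/

namespace Pool.Agent.GTL

open Pool.Agent.TLW

open Finset

variable [Dat]

/-- sum over pairs `(n, b)` -/
noncomputable def AS (X z J i : ℕ) (H : ℕ → ℝ) : ℝ :=
  ∑ n ∈ (FF X).filter (fun n => big z n = J), ∑ b ∈ dv z i n, H b

/-- sum over triples `(n, b, q)`, the new number is `n q` -/
noncomputable def BS (X z J i : ℕ) (H : ℕ → ℕ → ℝ) : ℝ :=
  ∑ n ∈ (FF (X / z)).filter (fun n => big z n + 1 = J), ∑ b ∈ dv z i n,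
    ∑ q ∈ (pr z (X / n)).filter (fun q => ¬ q ∣ n), H b q

private lemma FF_pos {X n : ℕ} (h : n ∈ FF X) : 0 < n := by
  unfold FF at h
  rw [mem_filter, mem_Icc] at h
  omega

private lemma FF_le {X n : ℕ} (h : n ∈ FF X) : n ≤ X := by
  unfold FF at h
  rw [mem_filter, mem_Icc] at h
  omega

private lemma FF_sq {X n : ℕ} (h : n ∈ FF X) : Squarefree n := by
  unfold FF at h
  rw [mem_filter] at h
  exact h.2.1

private lemma dv_zero {z n : ℕ} (h0 : 0 < n) : dv z 0 n = {n} := by
  ext b
  unfold dv
  rw [mem_filter, mem_singleton, Nat.mem_divisors]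
  constructor
  · rintro ⟨⟨hb, _⟩, _, hc⟩
    rw [card_eq_zero, Nat.primeFactors_eq_empty] at hc
    have hbp : 0 < b := Nat.pos_of_dvd_of_pos hb h0
    rcases hc with hc | hc
    · have : n < b := by
        by_contra hcon
        have := Nat.div_pos (not_lt.mp hcon) hbp
        omega
      exact absurd (Nat.le_of_dvd h0 hb) (not_le.mpr this)
    · have := Nat.div_mul_cancel hb
      rw [hc, one_mul] at this
      exact this
  · rintro rfl
    refine ⟨⟨dvd_rfl, h0.ne'⟩, ?_, ?_⟩
    · rw [Nat.div_self h0]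
      intro p hp
      simp at hp
    · rw [Nat.div_self h0]
      simp

private lemma split_prod {z n : ℕ} (hs : Squarefree n) :
    smo z n * ∏ p ∈ n.primeFactors.filter (z < ·), p = n := by
  unfold smo
  have h1 : n.primeFactors.filter (z < ·) = n.primeFactors.filter (fun p => ¬ p ≤ z) := by
    apply filter_congr
    intro p _
    exact not_le.symm
  rw [h1, prod_filter_mul_prod_filter_not]
  exact Nat.prod_primeFactors_of_squarefree hs

private lemma pf_prod {n : ℕ} (S : Finset ℕ) (hS : S ⊆ n.primeFactors) :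
    (∏ p ∈ S, p).primeFactors = S := by
  exact Nat.primeFactors_prod (fun p hp => Nat.prime_of_mem_primeFactors (hS hp))

private lemma dv_top {z n : ℕ} (h0 : 0 < n) (hs : Squarefree n) :
    dv z (big z n) n = {smo z n} := by
  have hsp := split_prod (z := z) hs
  have hspos : 0 < smo z n := by
    rcases Nat.eq_zero_or_pos (smo z n) with h | h
    · rw [h, zero_mul] at hsp
      omega
    · exact h
  ext b
  unfold dv
  rw [mem_filter, mem_singleton, Nat.mem_divisors]
  constructor
  · rintro ⟨⟨hb, _⟩, hr, hc⟩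
    obtain ⟨c, rfl⟩ := hb
    have hbp : 0 < b := Nat.pos_of_mul_pos_right h0
    have hbc : b * c / b = c := Nat.mul_div_cancel_left c hbp
    rw [hbc] at hr hc
    have hcp : 0 < c := Nat.pos_of_mul_pos_left h0
    have hcop : Nat.Coprime b c := Nat.coprime_of_squarefree_mul hs
    have hsub : c.primeFactors ⊆ (b * c).primeFactors.filter (z < ·) := by
      intro p hp
      rw [mem_filter]
      refine ⟨?_, hr p hp⟩
      rw [Nat.primeFactors_mul hbp.ne' hcp.ne']
      exact mem_union_right _ hp
    have heq : c.primeFactors = (b * c).primeFactors.filter (z < ·) := by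
      apply eq_of_subset_of_card_le hsub
      rw [hc]
      exact le_refl _
    have hcs : Squarefree c := hs.of_mul_right
    have hce : c = ∏ p ∈ (b * c).primeFactors.filter (z < ·), p := by
      rw [← heq]
      exact (Nat.prod_primeFactors_of_squarefree hcs).symm
    rw [← hce] at hsp
    exact (Nat.eq_of_mul_eq_mul_right hcp hsp).symm
  · rintro rfl
    have hq : n / smo z n = ∏ p ∈ n.primeFactors.filter (z < ·), p := by
      exact Nat.div_eq_of_eq_mul_right hspos hsp.symm
    refine ⟨⟨⟨_, hsp.symm⟩, h0.ne'⟩, ?_, ?_⟩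
    · rw [hq]
      intro p hp
      rw [pf_prod _ (filter_subset _ _), mem_filter] at hp
      exact hp.2
    · rw [hq, pf_prod _ (filter_subset _ _)]
      rfl

theorem AS_zero (X z J : ℕ) (H : ℕ → ℝ) :
    AS X z J 0 H = ∑ n ∈ (FF X).filter (fun n => big z n = J), H n := by
  unfold AS
  apply sum_congr rfl
  intro n hn
  rw [mem_filter] at hn
  rw [dv_zero (FF_pos hn.1), sum_singleton]

theorem AS_top (X z J : ℕ) (H : ℕ → ℝ) :
    AS X z J J H = ∑ n ∈ (FF X).filter (fun n => big z n = J), H (smo z n) := by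
  unfold AS
  apply sum_congr rfl
  intro n hn
  rw [mem_filter] at hn
  obtain ⟨hn1, hn2⟩ := hn
  subst hn2
  rw [dv_top (FF_pos hn1) (FF_sq hn1), sum_singleton]

theorem big_lt (X z k n : ℕ) (hX : X < (z + 1) ^ k) (hn : n ∈ FF X) : big z n < k := by
  by_contra hcon
  rw [not_lt] at hcon
  have h0 := FF_pos hn
  have hs := FF_sq hn
  have h1 : (z + 1) ^ k ≤ (z + 1) ^ big z n := Nat.pow_le_pow_right (Nat.succ_pos z) hcon
  have h2 : (z + 1) ^ big z n ≤ ∏ p ∈ n.primeFactors.filter (z < ·), p := by
    unfold big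
    rw [← prod_const]
    apply prod_le_prod'
    intro p hp
    rw [mem_filter] at hp
    exact hp.2
  have h3 : ∏ p ∈ n.primeFactors.filter (z < ·), p ≤ n := by
    apply Nat.le_of_dvd h0
    exact ⟨smo z n, by rw [mul_comm]; exact (split_prod hs).symm⟩
  have := FF_le hn
  omega

end Pool.Agent.GTL
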