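import Pool.Agent.GTL.L2
import Pool.Agent.GTL.NSa
import Pool.Agent.GTL.NSb
import Pool.Agent.GTL.NSc
import Pool.Agent.GTL.DC
import Pool.Agent.GTL.Defs
import Pool.Agent.TLW.NS
set_option autoImplicit false

/-! the natural step lemma -/

namespace Pool.Agent.GTL

open Pool.Agent.TLW

open Finset Filter Topology

variable [Dat]

theorem log_le_of_lt {X z k : ℕ} (hz : 2 ≤ z) (hX1 : 1 ≤ X) (hX : X < (z + 1) ^ k) :
    Real.log X ≤ 2 * k * Real.log z := by
  have hX0 : (0 : ℝ) < X := by exact_mod_cast hX1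
  have hz0 : (0 : ℝ) < z := by exact_mod_cast (by omega : 0 < z)
  have h1 : (X : ℝ) ≤ ((z : ℝ) ^ 2) ^ k := by
    have h2 : X ≤ (z ^ 2) ^ k := hX.le.trans (Nat.pow_le_pow_left (by nlinarith) k)
    exact_mod_cast h2
  calc Real.log X ≤ Real.log (((z : ℝ) ^ 2) ^ k) := Real.log_le_log hX0 h1
    _ = 2 * k * Real.log z := by rw [Real.log_pow, Real.log_pow]; push_cast; ring

/-- number of divisors with rough cofactor -/
theorem card_rough_div {n z : ℕ} (hn : Squarefree n) :
    (n.divisors.filter (fun b => Rgh z (n / b))).card ≤ 2 ^ big z n := by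
  have hn0 : n ≠ 0 := hn.ne_zero
  unfold big
  rw [← Finset.card_powerset]
  refine Finset.card_le_card_of_injOn (fun b => (n / b).primeFactors) ?_ ?_
  · intro b hb
    rw [Finset.mem_coe, mem_filter, Nat.mem_divisors] at hb
    rw [Finset.mem_coe, mem_powerset]
    intro p hp
    rw [mem_filter]
    refine ⟨?_, hb.2 p hp⟩
    exact Nat.primeFactors_mono (Nat.div_dvd_of_dvd hb.1.1) hn0 hp
  · intro b hb b' hb' h
    rw [Finset.mem_coe, mem_filter, Nat.mem_divisors] at hb hb'
    simp only at h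
    have hs : ∀ c, c ∣ n → Squarefree (n / c) := fun c hc =>
      hn.squarefree_of_dvd (Nat.div_dvd_of_dvd hc)
    have h1 : n / b = n / b' := by
      rw [← Nat.prod_primeFactors_of_squarefree (hs b hb.1.1),
        ← Nat.prod_primeFactors_of_squarefree (hs b' hb'.1.1), h]
    calc b = n / (n / b) := (Nat.div_div_self hb.1.1 hn0).symm
      _ = n / (n / b') := by rw [h1]
      _ = b' := Nat.div_div_self hb'.1.1 hn0

theorem WS_eq_TT (b : ℝ) (x D : ℕ) : WS b x D = ∑ d ∈ FF D, (d : ℝ) ^ (b - 1) * TT x d := by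
  unfold WS TT
  refine Finset.sum_congr rfl fun d _ => ?_
  rw [Finset.mul_sum]
  refine Finset.sum_congr rfl fun i _ => ?_
  rw [Finset.mul_sum]
  refine Finset.sum_congr rfl fun j _ => ?_
  unfold triv
  split_ifs
  · simp
  · rfl

theorem sqrt_sum_TT_le {b : ℝ} (hb : 0 < b) {V Y D : ℕ} (hY : Y ≤ D) {E : ℝ}
    (hW : WS b V D ≤ E ^ 2) (hE : 0 ≤ E) :
    Real.sqrt (∑ d ∈ FF Y, (1 + Real.log d) / d * TT V d) ≤ Real.sqrt (1 + 1 / b) * E := by
  have h1 : ∑ d ∈ FF Y, (1 + Real.log d) / d * TT V d ≤ (1 + 1 / b) * E ^ 2 := by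
    calc ∑ d ∈ FF Y, (1 + Real.log d) / d * TT V d
        ≤ ∑ d ∈ FF Y, (1 + 1 / b) * ((d : ℝ) ^ (b - 1) * TT V d) := by
          refine Finset.sum_le_sum fun d hd => ?_
          rw [← mul_assoc]
          exact mul_le_mul_of_nonneg_right (weight_le hb (mem_FF.mp hd).1.1) (TT_nonneg V d)
      _ ≤ ∑ d ∈ FF D, (1 + 1 / b) * ((d : ℝ) ^ (b - 1) * TT V d) := by
          refine Finset.sum_le_sum_of_subset_of_nonneg ?_ ?_
          · intro d hd
            rw [mem_FF] at hd ⊢
            exact ⟨⟨hd.1.1, hd.1.2.trans hY⟩, hd.2⟩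
          · intro d _ _
            have := TT_nonneg V d
            positivity
      _ = (1 + 1 / b) * WS b V D := by rw [← Finset.mul_sum, WS_eq_TT]
      _ ≤ _ := by gcongr
  calc Real.sqrt (∑ d ∈ FF Y, (1 + Real.log d) / d * TT V d)
      ≤ Real.sqrt ((1 + 1 / b) * E ^ 2) := Real.sqrt_le_sqrt h1
    _ = Real.sqrt (1 + 1 / b) * E := by
      rw [Real.sqrt_mul (by positivity), Real.sqrt_sq hE]

theorem NS_T1 (k : ℕ) (hk : 2 ≤ k) (κ : ℝ) (h0 : 0 < κ) (h1 : κ ≤ 1 / 2) (ε : ℝ) (hε : 0 < ε) :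
    ∃ Z0 : ℕ, ∀ z : ℕ, Z0 ≤ z → ∀ X : ℕ, z ^ k ≤ X → X < (z + 1) ^ k →
    ∑ n ∈ FF (X / z), Real.sqrt (∑ d ∈ n.divisors, TT (gV κ (gi κ (X / n))) d)
      ≤ ε * (((X : ℝ) / Real.log X) * DD X) := by
  obtain ⟨C1, hC1, hblk⟩ := ns_block
  obtain ⟨Cg, hCg, Xg, hgrid⟩ := ns_grid κ h0 (by linarith)
  obtain ⟨b, hb0, -, hL2⟩ := L2_main (2 * k)
  have hk0 : (0 : ℝ) < k := by exact_mod_cast (by omega : 0 < k)
  set Cb : ℝ := Real.sqrt (1 + 1 / b) with hCb
  have hCb0 : 0 < Cb := Real.sqrt_pos.mpr (by positivity)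
  set K : ℝ := C1 * 2 * (4 * k) * Cg * Cb with hK
  have hK0 : 0 < K := by positivity
  obtain ⟨x0, hx0⟩ := eventually_atTop.mp (hL2 ((ε / K) ^ 2) (by positivity))
  refine ⟨max 18 (max (3 * x0) (max Xg 18)), fun z hz X hX1 hX2 => ?_⟩
  have hz18 : 18 ≤ z := le_trans (le_max_left _ _) hz
  have hzx0 : 3 * x0 ≤ z := le_trans (le_trans (le_max_left _ _) (le_max_right _ _)) hz
  have hzXg : Xg ≤ z := le_trans (le_trans (le_trans (le_max_left _ _) (le_max_right _ _))
    (le_max_right _ _)) hz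
  have hzX : z ≤ X := le_trans (Nat.le_self_pow (by omega) z) hX1
  have hX18 : 18 ≤ X := hz18.trans hzX
  have hXr : (1 : ℝ) < X := by exact_mod_cast (by omega : 1 < X)
  have hM : 0 < Real.log X := Real.log_pos hXr
  set M := Real.log X with hMdef
  have hMz : M ≤ 2 * k * Real.log z := log_le_of_lt (by omega) (by omega) hX2
  -- the points
  have hy : ∀ n ∈ FF (X / z), 1 ≤ n ∧ z ≤ X / n ∧ F1 n := by
    intro n hn
    rw [mem_FF] at hn
    refine ⟨hn.1.1, ?_, hn.2⟩
    rw [Nat.le_div_iff_mul_le (by omega)]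
    have := (Nat.le_div_iff_mul_le (by omega : 0 < z)).mp hn.1.2
    rw [mul_comm]; exact this
  have hmaps : ∀ n ∈ FF (X / z), gi κ (X / n) ∈ range (gi κ X + 1) := by
    intro n hn
    rw [mem_range, Nat.lt_succ_iff]
    exact gi_mono h0 (by have := (hy n hn).2.1; omega) (Nat.div_le_self X n)
  rw [← Finset.sum_fiberwise_of_maps_to hmaps]
  set K1 : ℝ := C1 * (2 * X) * (4 * k / M) * (Cb * (ε / K)) with hK1
  have hK10 : 0 < K1 := by
    have : (0 : ℝ) < X := by linarith
    positivity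
  have hfib : ∀ i ∈ range (gi κ X + 1),
      ∑ n ∈ (FF (X / z)).filter (fun n => gi κ (X / n) = i),
        Real.sqrt (∑ d ∈ n.divisors, TT (gV κ (gi κ (X / n))) d)
      ≤ K1 * (DD (max 2 (X / ⌊(1 + κ) ^ i⌋₊)) /
        Real.log ((max 2 (X / ⌊(1 + κ) ^ i⌋₊) : ℕ) : ℝ)) := by
    intro i _
    change _ ≤ K1 * (DD (max 2 (X / gV κ i)) / Real.log ((max 2 (X / gV κ i) : ℕ) : ℝ))
    set V := gV κ i with hV
    set Y := max 2 (X / V) with hY
    have hY2 : 2 ≤ Y := le_max_left _ _
    have hlY : 0 < Real.log (Y : ℝ) := Real.log_pos (by exact_mod_cast (by omega : 1 < Y))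
    have hDY : 0 ≤ DD Y := le_trans zero_le_one (one_le_DD Y)
    rcases Finset.eq_empty_or_nonempty ((FF (X / z)).filter (fun n => gi κ (X / n) = i)) with he | he
    · rw [he, Finset.sum_empty]
      positivity
    · obtain ⟨n0, hn0⟩ := he
      rw [mem_filter] at hn0
      obtain ⟨hn1, hzy, hF⟩ := hy n0 hn0.1
      have hy1 : 1 ≤ X / n0 := by omega
      have h3 : (((X / n0 : ℕ) : ℝ)) ≤ 3 * gV κ (gi κ (X / n0)) := le_three_gV h0 h1 hy1
      rw [hn0.2, ← hV] at h3
      have h3' : X / n0 ≤ 3 * V := by exact_mod_cast h3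
      have hz3 : z ≤ 3 * V := hzy.trans h3'
      have hVX : V ≤ X := by
        have h4 : gV κ (gi κ (X / n0)) ≤ X / n0 := gV_le h0 hy1
        rw [hn0.2, ← hV] at h4
        exact h4.trans (Nat.div_le_self X n0)
      have hV6 : 6 ≤ V := by omega
      have hV0 : 0 < V := by omega
      have hVx0 : x0 ≤ V := by omega
      have hzV : z + 1 ≤ V ^ 2 := by nlinarith
      have hVr : (0 : ℝ) < V := by exact_mod_cast hV0
      have hlV : 0 < Real.log V := Real.log_pos (by exact_mod_cast (by omega : 1 < V))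
      -- the logarithm
      have hlog : M ≤ 4 * k * Real.log V := by
        have h5 : (z : ℝ) ≤ (V : ℝ) ^ 2 := by exact_mod_cast (by omega : z ≤ V ^ 2)
        have h6 := Real.log_le_log (by exact_mod_cast (by omega : 0 < z)) h5
        rw [Real.log_pow] at h6
        push_cast at h6
        calc M ≤ 2 * k * Real.log z := hMz
          _ ≤ 2 * k * (2 * Real.log V) := by gcongr
          _ = _ := by ring
      -- the product
      have hYV : (Y : ℝ) * V ≤ 2 * X := by
        have : Y * V ≤ 2 * X := by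
          rw [hY]
          rcases le_total 2 (X / V) with h | h
          · rw [max_eq_right h]
            have := Nat.div_mul_le_self X V
            omega
          · rw [max_eq_left h]
            omega
        exact_mod_cast this
      have hYD : Y ≤ V ^ (2 * k) := by
        rw [hY]
        refine max_le ?_ ?_
        · calc 2 ≤ V := by omega
            _ ≤ _ := Nat.le_self_pow (by omega) V
        · calc X / V ≤ X := Nat.div_le_self X V
            _ ≤ (z + 1) ^ k := hX2.le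
            _ ≤ (V ^ 2) ^ k := Nat.pow_le_pow_left hzV k
            _ = _ := by rw [← pow_mul]
      have hW : WS b V (V ^ (2 * k)) ≤ (ε / K * (V / Real.log V)) ^ 2 := by
        rw [mul_pow]; exact hx0 V hVx0
      have h7 := sqrt_sum_TT_le hb0 hYD hW (by positivity)
      have h8 : ∑ n ∈ (FF (X / z)).filter (fun n => gi κ (X / n) = i),
          Real.sqrt (∑ d ∈ n.divisors, TT (gV κ (gi κ (X / n))) d)
          ≤ ∑ n ∈ FF Y, Real.sqrt (∑ d ∈ n.divisors, TT V d) := by
        have h9 : ∀ n ∈ (FF (X / z)).filter (fun n => gi κ (X / n) = i),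
            Real.sqrt (∑ d ∈ n.divisors, TT (gV κ (gi κ (X / n))) d)
              = Real.sqrt (∑ d ∈ n.divisors, TT V d) := by
          intro n hn
          rw [mem_filter] at hn
          rw [hn.2]
        rw [Finset.sum_congr rfl h9]
        refine Finset.sum_le_sum_of_subset_of_nonneg ?_ fun _ _ _ => Real.sqrt_nonneg _
        intro n hn
        rw [mem_filter] at hn
        obtain ⟨hn1, hzy, hF⟩ := hy n hn.1
        have h4 : gV κ (gi κ (X / n)) ≤ X / n := gV_le h0 (by omega)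
        rw [hn.2, ← hV, Nat.le_div_iff_mul_le (by omega)] at h4
        rw [mem_FF]
        refine ⟨⟨hn1, ?_⟩, hF⟩
        have : n ≤ X / V := by
          rw [Nat.le_div_iff_mul_le hV0, mul_comm]; exact h4
        exact this.trans (le_max_right _ _)
      refine h8.trans ((hblk Y hY2 (TT V) (TT_nonneg V)).trans ?_)
      have h10 : (V : ℝ) / Real.log V ≤ V * (4 * k / M) := by
        rw [div_eq_mul_inv]
        gcongr
        rw [inv_le_comm₀ hlV (by positivity), inv_div, div_le_iff₀ (by positivity)]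
        linarith
      calc C1 * ((Y : ℝ) * DD Y / Real.log Y) *
            Real.sqrt (∑ d ∈ FF Y, (1 + Real.log d) / d * TT V d)
          ≤ C1 * ((Y : ℝ) * DD Y / Real.log Y) * (Cb * (ε / K * (V / Real.log V))) := by
            gcongr
        _ ≤ C1 * ((Y : ℝ) * DD Y / Real.log Y) * (Cb * (ε / K * (V * (4 * k / M)))) := by
            gcongr
        _ = C1 * (Y * V) * (4 * k / M) * (Cb * (ε / K)) * (DD Y / Real.log Y) := by ring
        _ ≤ C1 * (2 * X) * (4 * k / M) * (Cb * (ε / K)) * (DD Y / Real.log Y) := by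
            gcongr
        _ = _ := by rw [hK1]
  refine (Finset.sum_le_sum hfib).trans ?_
  rw [← Finset.mul_sum]
  have hg := hgrid X (hzXg.trans hzX) (gi κ X) (gi_spec h0 (by omega)).1
  calc K1 * ∑ i ∈ range (gi κ X + 1), DD (max 2 (X / ⌊(1 + κ) ^ i⌋₊)) /
        Real.log ((max 2 (X / ⌊(1 + κ) ^ i⌋₊) : ℕ) : ℝ)
      ≤ K1 * (Cg * DD X) := by gcongr
    _ = ε * (X / M * DD X) := by
      rw [hK1, hK]
      field_simp

/-- few primes up to `z` -/
theorem pr_card_ev : ∀ᶠ z : ℕ in atTop, ((pr 0 z).card : ℝ) ≤ z / Real.log z := by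
  have h := pr_count.eventually_le_const (show dn < 1 by have := dn_le; linarith)
  filter_upwards [h, eventually_gt_atTop 1] with z hz hz1
  have hz0 : (0 : ℝ) < z := by exact_mod_cast (by omega : 0 < z)
  have hl : 0 < Real.log z := Real.log_pos (by exact_mod_cast hz1)
  rwa [div_le_one (by positivity)] at hz

theorem NS_T3 (k : ℕ) (hk : 2 ≤ k) (κ : ℝ) (h0 : 0 < κ) (h1 : κ ≤ 1 / 2) :
    ∃ Z0 : ℕ, ∀ z : ℕ, Z0 ≤ z → ∀ X : ℕ, z ^ k ≤ X → X < (z + 1) ^ k →
    ∑ n ∈ FF (X / z), ((pr (gV κ (gi κ (X / n))) (X / n)).card : ℝ)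
      ≤ 8 * k * κ * (((X : ℝ) / Real.log X) * DD X) := by
  obtain ⟨V0, hV0⟩ := pr_short (2 * κ) (by linarith) (by linarith)
  have hk0 : (0 : ℝ) < k := by exact_mod_cast (by omega : 0 < k)
  set B : ℕ := ⌈(1 + κ) / κ⌉₊ with hB
  refine ⟨max 18 (max (3 * V0) (3 * B)), fun z hz X hX1 hX2 => ?_⟩
  have hz18 : 18 ≤ z := le_trans (le_max_left _ _) hz
  have hzV0 : 3 * V0 ≤ z := le_trans (le_trans (le_max_left _ _) (le_max_right _ _)) hz
  have hzB : 3 * B ≤ z := le_trans (le_trans (le_max_right _ _) (le_max_right _ _)) hz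
  have hzX : z ≤ X := le_trans (Nat.le_self_pow (by omega) z) hX1
  have hXr : (1 : ℝ) < X := by exact_mod_cast (by omega : 1 < X)
  have hX0 : (0 : ℝ) < X := by linarith
  have hM : 0 < Real.log X := Real.log_pos hXr
  set M := Real.log X with hMdef
  have hMz : M ≤ 2 * k * Real.log z := log_le_of_lt (by omega) (by omega) hX2
  have hn : ∀ n ∈ FF (X / z), ((pr (gV κ (gi κ (X / n))) (X / n)).card : ℝ)
      ≤ 8 * k * κ * (X / M) * (1 / n) := by
    intro n hn
    rw [mem_FF] at hn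
    have hn1 := hn.1.1
    have hn0 : (0 : ℝ) < n := by exact_mod_cast hn1
    have hzy : z ≤ X / n := by
      rw [Nat.le_div_iff_mul_le (by omega)]
      have := (Nat.le_div_iff_mul_le (by omega : 0 < z)).mp hn.1.2
      rw [mul_comm]; exact this
    set y := X / n with hy
    have hy1 : 1 ≤ y := by omega
    set V := gV κ (gi κ y) with hV
    have h3 : (y : ℝ) ≤ 3 * V := le_three_gV h0 h1 hy1
    have h3' : y ≤ 3 * V := by exact_mod_cast h3
    have hVy : V ≤ y := gV_le h0 hy1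
    have hVV0 : V0 ≤ V := by omega
    have hVB : B ≤ V := by omega
    have hV6 : 6 ≤ V := by omega
    have hVr : (0 : ℝ) < V := by exact_mod_cast (by omega : 0 < V)
    have hlV : 0 < Real.log V := Real.log_pos (by exact_mod_cast (by omega : 1 < V))
    have hsh : (y : ℝ) ≤ (1 + 2 * κ) * V := by
      refine le_short h0 hy1 ?_
      have h5 : (1 + κ) / κ ≤ B := Nat.le_ceil _
      have h6 : (B : ℝ) ≤ V := by exact_mod_cast hVB
      rw [div_le_iff₀ h0] at h5
      calc 1 + κ ≤ B * κ := h5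
        _ ≤ V * κ := by gcongr
        _ = κ * V := mul_comm _ _
    have h7 := hV0 V y hVV0 hVy hsh
    have hlog : M ≤ 4 * k * Real.log V := by
      have h5 : (z : ℝ) ≤ (V : ℝ) ^ 2 := by
        have : z ≤ V ^ 2 := by nlinarith
        exact_mod_cast this
      have h6 := Real.log_le_log (by exact_mod_cast (by omega : 0 < z)) h5
      rw [Real.log_pow] at h6
      push_cast at h6
      calc M ≤ 2 * k * Real.log z := hMz
        _ ≤ 2 * k * (2 * Real.log V) := by gcongr
        _ = _ := by ring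
    have h10 : (V : ℝ) / Real.log V ≤ V * (4 * k / M) := by
      rw [div_eq_mul_inv]
      gcongr
      rw [inv_le_comm₀ hlV (by positivity), inv_div, div_le_iff₀ (by positivity)]
      linarith
    have h11 : (V : ℝ) ≤ X / n := by
      have : (V : ℝ) ≤ y := by exact_mod_cast hVy
      refine this.trans ?_
      rw [hy]
      exact Nat.cast_div_le
    calc ((pr V y).card : ℝ) ≤ 2 * κ * (V / Real.log V) := h7
      _ ≤ 2 * κ * (V * (4 * k / M)) := by gcongr
      _ ≤ 2 * κ * (X / n * (4 * k / M)) := by gcongr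
      _ = _ := by ring
  refine (Finset.sum_le_sum hn).trans ?_
  rw [← Finset.mul_sum]
  have h12 : ∑ n ∈ FF (X / z), 1 / (n : ℝ) ≤ DD X :=
    (sum_FF_le (X / z)).trans (DD_mono (Nat.div_le_self X z))
  calc 8 * k * κ * (X / M) * ∑ n ∈ FF (X / z), 1 / (n : ℝ)
      ≤ 8 * k * κ * (X / M) * DD X := by gcongr
    _ = _ := by ring

/-- number of `n` -/
theorem FF_card_le : ∃ C : ℝ, 0 < C ∧ ∀ x : ℕ, 2 ≤ x →
    ((FF x).card : ℝ) ≤ C * x * (DD x / Real.log x) := by
  obtain ⟨C, hC, h⟩ := cnt_div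
  refine ⟨C, hC, fun x hx => ?_⟩
  have h1 : F1 1 := by
    refine ⟨squarefree_one, ?_⟩
    simp
  have h2 := h x 1 hx h1
  have e : (FF x).filter (fun n => 1 ∣ n) = FF x := by
    rw [Finset.filter_true_of_mem]
    intro n _
    exact one_dvd n
  rw [e] at h2
  simpa using h2

theorem NS_T2 (k : ℕ) (hk : 2 ≤ k) (ε : ℝ) (hε : 0 < ε) :
    ∃ Z0 : ℕ, ∀ z : ℕ, Z0 ≤ z → ∀ X : ℕ, z ^ k ≤ X → X < (z + 1) ^ k →
    ((FF (X / z)).card : ℝ) * ((pr 0 z).card : ℝ)
      ≤ ε * (((X : ℝ) / Real.log X) * DD X) := by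
  obtain ⟨C, hC, hFF⟩ := FF_card_le
  have hk0 : (0 : ℝ) < k := by exact_mod_cast (by omega : 0 < k)
  have hlogz : ∀ᶠ z : ℕ in atTop, C * (2 * k) / ε ≤ Real.log z :=
    (Real.tendsto_log_atTop.comp tendsto_natCast_atTop_atTop).eventually_ge_atTop _
  obtain ⟨Z1, hZ1⟩ := eventually_atTop.mp (hlogz.and pr_card_ev)
  refine ⟨max 2 Z1, fun z hz X hX1 hX2 => ?_⟩
  have hz2 : 2 ≤ z := le_trans (le_max_left _ _) hz
  obtain ⟨hlz, hpz⟩ := hZ1 z (le_trans (le_max_right _ _) hz)
  have hzX : z ≤ X := le_trans (Nat.le_self_pow (by omega) z) hX1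
  have hz0 : (0 : ℝ) < z := by exact_mod_cast (by omega : 0 < z)
  have hXr : (1 : ℝ) < X := by exact_mod_cast (by omega : 1 < X)
  have hX0 : (0 : ℝ) < X := by linarith
  have hM : 0 < Real.log X := Real.log_pos hXr
  have hlz0 : 0 < Real.log z := Real.log_pos (by exact_mod_cast (by omega : 1 < z))
  have hMz : Real.log X ≤ 2 * k * Real.log z := log_le_of_lt (by omega) (by omega) hX2
  have hzz : z ≤ X / z := by
    rw [Nat.le_div_iff_mul_le (by omega)]
    calc z * z = z ^ 2 := (sq z).symm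
      _ ≤ z ^ k := Nat.pow_le_pow_right (by omega) hk
      _ ≤ X := hX1
  have h1 := hFF (X / z) (by omega)
  have hDD : DD (X / z) ≤ DD X := DD_mono (Nat.div_le_self X z)
  have hDD0 : 0 ≤ DD X := le_trans zero_le_one (one_le_DD X)
  have hDD0' : 0 ≤ DD (X / z) := le_trans zero_le_one (one_le_DD _)
  have hlzz : Real.log z ≤ Real.log ((X / z : ℕ) : ℝ) :=
    Real.log_le_log hz0 (by exact_mod_cast hzz)
  have hcast : ((X / z : ℕ) : ℝ) ≤ (X : ℝ) / z := Nat.cast_div_le
  have h2 : ((FF (X / z)).card : ℝ) ≤ C * (X / z) * (DD X / Real.log z) := by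
    refine h1.trans ?_
    gcongr
  calc ((FF (X / z)).card : ℝ) * ((pr 0 z).card : ℝ)
      ≤ (C * (X / z) * (DD X / Real.log z)) * (z / Real.log z) := by gcongr
    _ = C * X * DD X / (Real.log z * Real.log z) := by field_simp
    _ ≤ ε * (X / Real.log X * DD X) := by
      have h3 : C * Real.log X ≤ ε * (Real.log z * Real.log z) := by
        rw [div_le_iff₀ hε] at hlz
        calc C * Real.log X ≤ C * (2 * k * Real.log z) := by gcongr
          _ = (C * (2 * k)) * Real.log z := by ring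
          _ ≤ (Real.log z * ε) * Real.log z := by gcongr
          _ = _ := by ring
      rw [div_le_iff₀ (by positivity)]
      calc C * X * DD X = (C * Real.log X) * (X / Real.log X * DD X) := by field_simp
        _ ≤ (ε * (Real.log z * Real.log z)) * (X / Real.log X * DD X) := by gcongr
        _ = _ := by ring

theorem NS_T4 (k : ℕ) (hk : 2 ≤ k) (ε : ℝ) (hε : 0 < ε) :
    ∃ Z0 : ℕ, ∀ z : ℕ, Z0 ≤ z → ∀ X : ℕ, z ^ k ≤ X → X < (z + 1) ^ k →
    ∑ n ∈ FF (X / z), (n.primeFactors.card : ℝ)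
      ≤ ε * (((X : ℝ) / Real.log X) * DD X) := by
  have hk0 : (0 : ℝ) < k := by exact_mod_cast (by omega : 0 < k)
  have hev : ∀ᶠ z : ℕ in atTop, 2 * (2 * k * Real.log z) ^ 2 ≤ ε * z := by
    have h1 : (fun x : ℝ => Real.log x ^ 2) =o[atTop] fun x : ℝ => x := by
      exact Real.isLittleO_pow_log_id_atTop (n := 2)
    have h2 := (h1.def (show (0 : ℝ) < ε / (8 * k ^ 2) by positivity)).natCast_atTop
    filter_upwards [h2, eventually_gt_atTop 1] with z hz hz1
    have hz0 : (0 : ℝ) < z := by exact_mod_cast (by omega : 0 < z)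
    rw [Real.norm_eq_abs, Real.norm_eq_abs, abs_of_nonneg (by positivity), abs_of_pos hz0] at hz
    calc 2 * (2 * k * Real.log z) ^ 2 = 8 * k ^ 2 * (Real.log z ^ 2) := by ring
      _ ≤ 8 * k ^ 2 * (ε / (8 * k ^ 2) * z) := by gcongr
      _ = _ := by field_simp
  obtain ⟨Z1, hZ1⟩ := eventually_atTop.mp hev
  refine ⟨max 2 Z1, fun z hz X hX1 hX2 => ?_⟩
  have hz2 : 2 ≤ z := le_trans (le_max_left _ _) hz
  have hlz := hZ1 z (le_trans (le_max_right _ _) hz)
  have hzX : z ≤ X := le_trans (Nat.le_self_pow (by omega) z) hX1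
  have hz0 : (0 : ℝ) < z := by exact_mod_cast (by omega : 0 < z)
  have hXr : (1 : ℝ) < X := by exact_mod_cast (by omega : 1 < X)
  have hX0 : (0 : ℝ) < X := by linarith
  have hM : 0 < Real.log X := Real.log_pos hXr
  have hMz : Real.log X ≤ 2 * k * Real.log z := log_le_of_lt (by omega) (by omega) hX2
  have h1 : ∀ n ∈ FF (X / z), (n.primeFactors.card : ℝ) ≤ 2 * Real.log X := by
    intro n hn
    rw [mem_FF] at hn
    have hn0 : (0 : ℝ) < n := by exact_mod_cast hn.1.1
    refine (card_primeFactors_le_log (by omega)).trans ?_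
    have : (n : ℝ) ≤ X := by exact_mod_cast hn.1.2.trans (Nat.div_le_self X z)
    have := Real.log_le_log hn0 this
    linarith
  have h2 : ((FF (X / z)).card : ℝ) ≤ X / z := by
    have h3 : (FF (X / z)).card ≤ X / z := by
      refine (Finset.card_filter_le _ _).trans ?_
      simp
    have h4 : ((FF (X / z)).card : ℝ) ≤ ((X / z : ℕ) : ℝ) := by exact_mod_cast h3
    exact h4.trans Nat.cast_div_le
  refine (Finset.sum_le_sum h1).trans ?_
  rw [Finset.sum_const, nsmul_eq_mul]
  have h5 : 2 * Real.log X ^ 2 ≤ ε * z := by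
    refine le_trans ?_ hlz
    gcongr
  have hDD1 : 1 ≤ DD X := one_le_DD X
  calc ((FF (X / z)).card : ℝ) * (2 * Real.log X) ≤ (X / z) * (2 * Real.log X) := by gcongr
    _ = X / (z * Real.log X) * (2 * Real.log X ^ 2) := by field_simp
    _ ≤ X / (z * Real.log X) * (ε * z) := by gcongr
    _ = ε * (X / Real.log X * 1) := by field_simp
    _ ≤ ε * (X / Real.log X * DD X) := by gcongr

theorem NS (k : ℕ) (hk : 1 ≤ k) (ε : ℝ) (hε : 0 < ε) : ∃ X0 : ℕ, ∀ X : ℕ, X0 ≤ X →
    ∀ z : ℕ, z ^ k ≤ X → X < (z + 1) ^ k → ∀ f : (b : ℕ) → Ph b, (∀ b w s l, |f b w s l| ≤ 1) →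
    ∑ n ∈ FF (X / z), ∑ b ∈ n.divisors.filter (fun b => Rgh z (n / b)),
      |∑ q ∈ (pr z (X / n)).filter (fun q => ¬ q ∣ n), (ev b (f b) q - avg b (f b))| ≤
      ε * ((X : ℝ) / Real.log X) * DD X := by
  rcases Nat.eq_or_lt_of_le hk with hk1 | hk2
  · -- `k = 1`: the sum is empty
    subst hk1
    refine ⟨1, fun X hX z hz1 hz2 f _ => ?_⟩
    rw [pow_one] at hz1 hz2
    have hzX : z = X := by omega
    have hr : 0 ≤ ε * ((X : ℝ) / Real.log X) * DD X := by
      have h1 : 0 ≤ Real.log X := Real.log_natCast_nonneg X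
      have h2 : 0 ≤ DD X := le_trans zero_le_one (one_le_DD X)
      positivity
    refine le_trans (le_of_eq ?_) hr
    refine Finset.sum_eq_zero fun n _ => Finset.sum_eq_zero fun b _ => ?_
    have : pr z (X / n) = ∅ := by
      unfold pr
      rw [Finset.Ioc_eq_empty_of_le, Finset.filter_empty]
      rw [hzX]; exact Nat.div_le_self X n
    rw [this]; simp
  · have hk' : 2 ≤ k := hk2
    have hk0 : (0 : ℝ) < k := by exact_mod_cast (by omega : 0 < k)
    set P : ℝ := 2 ^ k with hP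
    have hP0 : 0 < P := by positivity
    set κ : ℝ := min (1 / 2) (ε / (64 * k * P)) with hκ
    have hκ0 : 0 < κ := lt_min (by norm_num) (by positivity)
    have hκ1 : κ ≤ 1 / 2 := min_le_left _ _
    have hκ2 : κ ≤ ε / (64 * k * P) := min_le_right _ _
    obtain ⟨Z1, h1⟩ := NS_T1 k hk' κ hκ0 hκ1 (ε / (4 * P)) (by positivity)
    obtain ⟨Z2, h2⟩ := NS_T2 k hk' (ε / (8 * P)) (by positivity)
    obtain ⟨Z3, h3⟩ := NS_T3 k hk' κ hκ0 hκ1
    obtain ⟨Z4, h4⟩ := NS_T4 k hk' (ε / (20 * P)) (by positivity)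
    set Z0 : ℕ := Z1 + Z2 + Z3 + Z4 + 2 with hZ0
    refine ⟨Z0 ^ k, fun X hX z hz1 hz2 f hf => ?_⟩
    have hz : Z0 ≤ z := by
      by_contra h
      have : z + 1 ≤ Z0 := by omega
      have := Nat.pow_le_pow_left this k
      omega
    have hz0 : 1 ≤ z := by omega
    have hX1 : 1 ≤ X := le_trans (Nat.one_le_pow _ _ hz0) hz1
    have g1 := h1 z (by omega) X hz1 hz2
    have g2 := h2 z (by omega) X hz1 hz2
    have g3 := h3 z (by omega) X hz1 hz2
    have g4 := h4 z (by omega) X hz1 hz2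
    have hQ : 0 ≤ (X : ℝ) / Real.log X * DD X := by
      have h1 : 0 ≤ Real.log X := Real.log_natCast_nonneg X
      have h2 : 0 ≤ DD X := le_trans zero_le_one (one_le_DD X)
      positivity
    set Q := (X : ℝ) / Real.log X * DD X with hQd
    -- one `n`
    have hn : ∀ n ∈ FF (X / z), ∑ b ∈ n.divisors.filter (fun b => Rgh z (n / b)),
        |∑ q ∈ (pr z (X / n)).filter (fun q => ¬ q ∣ n), (ev b (f b) q - avg b (f b))|
        ≤ P * (Real.sqrt (∑ d ∈ n.divisors, TT (gV κ (gi κ (X / n))) d) +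
          2 * (((pr 0 z).card : ℝ) + (pr (gV κ (gi κ (X / n))) (X / n)).card) +
          5 * n.primeFactors.card) := by
      intro n hn
      have hn' := mem_FF.mp hn
      have hn1 := hn'.1.1
      have hzy : z ≤ X / n := by
        rw [Nat.le_div_iff_mul_le (by omega)]
        have := (Nat.le_div_iff_mul_le (by omega : 0 < z)).mp hn'.1.2
        rw [mul_comm]; exact this
      have hnX : n ∈ FF X := by
        rw [mem_FF]
        exact ⟨⟨hn1, hn'.1.2.trans (Nat.div_le_self X z)⟩, hn'.2⟩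
      have hbig : big z n < k := big_lt X z k n hz2 hnX
      have hcard : ((n.divisors.filter (fun b => Rgh z (n / b))).card : ℝ) ≤ P := by
        have h5 := card_rough_div (z := z) hn'.2.1
        have h6 : 2 ^ big z n ≤ 2 ^ k := Nat.pow_le_pow_right (by norm_num) hbig.le
        rw [hP]
        exact_mod_cast h5.trans h6
      have hV : gV κ (gi κ (X / n)) ≤ X / n := gV_le hκ0 (by omega)
      have hb : ∀ b ∈ n.divisors.filter (fun b => Rgh z (n / b)),
          |∑ q ∈ (pr z (X / n)).filter (fun q => ¬ q ∣ n), (ev b (f b) q - avg b (f b))|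
          ≤ (Real.sqrt (∑ d ∈ n.divisors, TT (gV κ (gi κ (X / n))) d) +
            2 * (((pr 0 z).card : ℝ) + (pr (gV κ (gi κ (X / n))) (X / n)).card) +
            5 * n.primeFactors.card) := by
        intro b hb
        rw [mem_filter, Nat.mem_divisors] at hb
        exact ns_tl n b z _ _ hn'.2 hb.1.1 hV (f b) (hf b)
      refine (Finset.sum_le_sum hb).trans ?_
      rw [Finset.sum_const, nsmul_eq_mul]
      have : 0 ≤ Real.sqrt (∑ d ∈ n.divisors, TT (gV κ (gi κ (X / n))) d) +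
            2 * (((pr 0 z).card : ℝ) + (pr (gV κ (gi κ (X / n))) (X / n)).card) +
            5 * n.primeFactors.card := by positivity
      gcongr
    refine (Finset.sum_le_sum hn).trans ?_
    rw [← Finset.mul_sum, Finset.sum_add_distrib, Finset.sum_add_distrib, ← Finset.mul_sum,
      ← Finset.mul_sum, Finset.sum_add_distrib, Finset.sum_const, nsmul_eq_mul]
    have e3 : 8 * k * κ * Q ≤ ε / (8 * P) * Q := by
      gcongr
      calc 8 * k * κ ≤ 8 * k * (ε / (64 * k * P)) := by gcongr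
        _ = ε / (8 * P) := by field_simp; norm_num
    calc P * (∑ n ∈ FF (X / z), Real.sqrt (∑ d ∈ n.divisors, TT (gV κ (gi κ (X / n))) d) +
          2 * (((FF (X / z)).card : ℝ) * ((pr 0 z).card : ℝ) +
            ∑ n ∈ FF (X / z), ((pr (gV κ (gi κ (X / n))) (X / n)).card : ℝ)) +
          5 * ∑ n ∈ FF (X / z), (n.primeFactors.card : ℝ))
        ≤ P * (ε / (4 * P) * Q + 2 * (ε / (8 * P) * Q + ε / (8 * P) * Q) +
          5 * (ε / (20 * P) * Q)) := by
          gcongr
          exact g3.trans e3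
      _ = ε * Q := by field_simp; ring
      _ = _ := by rw [hQd]; ring

end Pool.Agent.GTL
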