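import Pool.Agent.GTL.Ifc
import Pool.Agent.TQG.Defs
import Pool.Agent.GTL.Defs
import Pool.Agent.TLW.Tun
set_option autoImplicit false
set_option linter.unnecessarySeqFocus false
set_option linter.unusedVariables false

/-! the determinant of the Redei matrix of `a * q` bordered by the class bits, as a function of
the symbols of `q` -/

namespace Pool.Agent.GTL

open Pool.Agent.TLW

open Finset

variable [Dat]

section ker

variable {ι : Type} [Fintype ι] [DecidableEq ι]

/-- the condition on the left kernel: the Redei matrix bordered by the class bits is invertible -/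
def LC (p : ι → ℕ) : Prop := ∀ x : ι → ZMod 2,
  Matrix.vecMul x (Pool.Agent.TQG.lap fun j i => sy (p j) (p i)) = 0 →
  x ⬝ᵥ (fun i => lam (p i)) = 0 → x = 0

theorem lap_row (a : ι → ι → ZMod 2) : (Pool.Agent.TQG.lap a).mulVec (fun _ => 1) = 0 := by
  funext j
  have e : (Pool.Agent.TQG.lap a).mulVec (fun _ => 1) j = ∑ i, Pool.Agent.TQG.lap a j i * 1 := rfl
  rw [e, ← Finset.add_sum_erase _ _ (Finset.mem_univ j)]
  simp only [mul_one]
  unfold Pool.Agent.TQG.lap
  rw [Matrix.of_apply, if_pos rfl]
  have h1 : ∑ i ∈ univ.erase j, Matrix.of (fun j i => if j = i then ∑ l ∈ univ.erase j, a j l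
      else a j i) j i = ∑ i ∈ univ.erase j, a j i := by
    refine Finset.sum_congr rfl fun i hi => ?_
    rw [Matrix.of_apply, if_neg (Finset.mem_erase.1 hi).1.symm]
  rw [h1]
  exact CharTwo.add_self_eq_zero _

theorem det_LC (p : ι → ℕ) (i0 : ι) :
    ((Pool.Agent.TQG.lap fun j i => sy (p j) (p i)).updateCol i0 fun i => lam (p i)).det ≠ 0 ↔
      LC p := by
  set A := Pool.Agent.TQG.lap fun j i => sy (p j) (p i) with hA
  set v : ι → ZMod 2 := fun i => lam (p i) with hv
  have e0 : ∀ x : ι → ZMod 2, Matrix.vecMul x (A.updateCol i0 v) i0 = x ⬝ᵥ v := by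
    intro x
    show ∑ j, x j * (A.updateCol i0 v) j i0 = ∑ j, x j * v j
    refine Finset.sum_congr rfl fun j _ => ?_
    rw [Matrix.updateCol_self]
  have e1 : ∀ (x : ι → ZMod 2) (i : ι), i ≠ i0 →
      Matrix.vecMul x (A.updateCol i0 v) i = Matrix.vecMul x A i := by
    intro x i hi
    show ∑ j, x j * (A.updateCol i0 v) j i = ∑ j, x j * A j i
    refine Finset.sum_congr rfl fun j _ => ?_
    rw [Matrix.updateCol_ne hi]
  have e2 : ∀ x : ι → ZMod 2, ∑ i, Matrix.vecMul x A i = 0 := by
    intro x
    have h1 : Matrix.vecMul x A ⬝ᵥ (fun _ => 1) = x ⬝ᵥ A.mulVec (fun _ => 1) :=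
      (Matrix.dotProduct_mulVec x A _).symm
    rw [hA, lap_row, dotProduct_zero, ← hA] at h1
    have h2 : Matrix.vecMul x A ⬝ᵥ (fun _ => 1) = ∑ i, Matrix.vecMul x A i * 1 := rfl
    rw [h2] at h1
    simpa using h1
  have e3 : ∀ x : ι → ZMod 2, Matrix.vecMul x (A.updateCol i0 v) = 0 ↔
      (Matrix.vecMul x A = 0 ∧ x ⬝ᵥ v = 0) := by
    intro x
    constructor
    · intro h
      have h1 : x ⬝ᵥ v = 0 := by rw [← e0 x, h]; rfl
      have h2 : ∀ i, i ≠ i0 → Matrix.vecMul x A i = 0 := by
        intro i hi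
        rw [← e1 x i hi, h]; rfl
      refine ⟨funext fun i => ?_, h1⟩
      by_cases hi : i = i0
      · subst hi
        have h3 := e2 x
        rw [← Finset.add_sum_erase _ _ (Finset.mem_univ i),
          Finset.sum_eq_zero fun j hj => h2 j (Finset.mem_erase.1 hj).1, add_zero] at h3
        exact h3
      · exact h2 i hi
    · rintro ⟨h1, h2⟩
      funext i
      by_cases hi : i = i0
      · subst hi; rw [e0 x, h2]; rfl
      · rw [e1 x i hi, h1]
  rw [not_iff_comm, ← Matrix.exists_vecMul_eq_zero_iff]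
  unfold LC
  push Not
  constructor
  · rintro ⟨x, h1, h2, h3⟩
    exact ⟨x, h3, (e3 x).2 ⟨h1, h2⟩⟩
  · rintro ⟨x, h3, h4⟩
    obtain ⟨h1, h2⟩ := (e3 x).1 h4
    exact ⟨x, h1, h2, h3⟩

theorem LC_equiv {κ : Type} [Fintype κ] [DecidableEq κ] (e : ι ≃ κ) (p : κ → ℕ) :
    LC (p ∘ e) ↔ LC p := by
  have hl : ∀ (x : κ → ZMod 2) (i : ι), Matrix.vecMul (x ∘ e)
      (Pool.Agent.TQG.lap fun j i => sy ((p ∘ e) j) ((p ∘ e) i)) i =
      Matrix.vecMul x (Pool.Agent.TQG.lap fun j i => sy (p j) (p i)) (e i) := by
    intro x i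
    show ∑ j, x (e j) * _ = ∑ j, x j * _
    rw [← Equiv.sum_comp e fun j => x j * Pool.Agent.TQG.lap (fun j i => sy (p j) (p i)) j (e i)]
    refine Finset.sum_congr rfl fun j _ => ?_
    congr 1
    unfold Pool.Agent.TQG.lap
    rw [Matrix.of_apply, Matrix.of_apply]
    by_cases h : j = i
    · rw [if_pos h, if_pos (congrArg e h)]
      refine Finset.sum_nbij' (fun l => e l) (fun l => e.symm l) ?_ ?_ ?_ ?_ ?_
      · intro l hl
        rw [Finset.mem_erase] at hl ⊢
        exact ⟨fun h => hl.1 (e.injective h), Finset.mem_univ _⟩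
      · intro l hl
        rw [Finset.mem_erase] at hl ⊢
        refine ⟨fun h => hl.1 ?_, Finset.mem_univ _⟩
        rw [← h, e.apply_symm_apply]
      · intro l _; exact e.symm_apply_apply l
      · intro l _; exact e.apply_symm_apply l
      · intro l _; rfl
    · rw [if_neg h, if_neg (fun h2 => h (e.injective h2))]
      rfl
  have hd : ∀ x : κ → ZMod 2, (x ∘ e) ⬝ᵥ (fun i => lam ((p ∘ e) i)) =
      x ⬝ᵥ (fun i => lam (p i)) := by
    intro x
    show ∑ j, x (e j) * lam (p (e j)) = ∑ j, x j * lam (p j)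
    exact Equiv.sum_comp e fun j => x j * lam (p j)
  constructor
  · intro h x h1 h2
    have h3 := h (x ∘ e) (funext fun i => by rw [hl, h1]; rfl) (by rw [hd, h2])
    funext k
    have h4 := congrFun h3 (e.symm k)
    simpa using h4
  · intro h y h1 h2
    set x : κ → ZMod 2 := y ∘ e.symm with hx
    have hxy : x ∘ e = y := by
      funext i; simp [hx]
    have h3 := h x (funext fun k => by
      have := hl x (e.symm k)
      rw [e.apply_symm_apply] at this
      rw [← this, hxy, h1]; rfl) (by rw [← hd x, hxy, h2])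
    rw [← hxy, h3]
    rfl

end ker

open Classical in
/-- indicator of the numbers whose bordered Redei matrix is invertible -/
noncomputable def gT (m : ℕ) : ℝ := if LC (fun i : Ix m => (i : ℕ)) then 1 else 0

/-- digit function -/
noncomputable def gPh (a : ℕ) : Ph a := fun w s l =>
  if s = ∑ i, sa a i then
    (if crk (CC (Ra a) (sa a) (la a) (fun i => w i + ∑ j ∈ univ.erase i, Ra a i j)
      ((∑ i, la a i) + l)) = 0 then 1 else 0)
  else 0

theorem gPh_abs (a : ℕ) (w : Ix a → ZMod 2) (s l : ZMod 2) : |gPh a w s l| ≤ 1 := by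
  unfold gPh
  split_ifs <;> simp

theorem prod_pf {a : ℕ} (ha : F1 a) : ∏ p ∈ a.primeFactors, p = a :=
  Nat.prod_primeFactors_of_squarefree ha.1

theorem class_iff {a q : ℕ} (ha : F1 a) (hq : P8 q) :
    (a * q) % 8 = 1 ↔ nn q = ∑ i, sa a i := by
  have h1 := prod_class a.primeFactors fun p hp => Dat.C_eight p (ha.2 p hp)
  rw [prod_pf ha] at h1
  have h2 : ∑ i, sa a i = ∑ p ∈ a.primeFactors, nn p := sum_Ix a nn
  rw [h2, Nat.mul_mod]
  unfold nn at h1 ⊢
  rcases h1 with ⟨a1, a2⟩ | ⟨a1, a2⟩ <;> rcases Dat.C_eight q hq.2 with b | b <;>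
    rw [a1, b, a2] <;> simp

theorem cPh_ev (a q : ℕ) (ha : F1 a) (hq : P8 q) (hqa : ¬ q ∣ a) :
    ev a (cPh a) q = if (a * q) % 8 = 1 then 1 else 0 := by
  unfold ev cPh
  simp only [class_iff ha hq]

theorem gPh_avg (a : ℕ) : avg a (gPh a) = Gf 0 a / 2 := by
  unfold avg gPh Gf GG
  set g : (Ix a → ZMod 2) → ZMod 2 → ℝ := fun u L =>
    if crk (CC (Ra a) (sa a) (la a) u L) = 0 then 1 else 0 with hg
  have h1 : ∀ w : Ix a → ZMod 2, ∑ s : ZMod 2, ∑ l : ZMod 2,
      (if s = ∑ i, sa a i then
        (if crk (CC (Ra a) (sa a) (la a) (fun i => w i + ∑ j ∈ univ.erase i, Ra a i j)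
          ((∑ i, la a i) + l)) = 0 then (1 : ℝ) else 0) else 0) =
      ∑ L : ZMod 2, g (fun i => w i + ∑ j ∈ univ.erase i, Ra a i j) L := by
    intro w
    rw [Finset.sum_comm]
    simp only [Finset.sum_ite_eq', Finset.mem_univ, if_true]
    rw [← sum_shift (fun L => g (fun i => w i + ∑ j ∈ univ.erase i, Ra a i j) L) (∑ i, la a i)]
    refine Finset.sum_congr rfl fun l _ => ?_
    rw [hg, add_comm]
  rw [Finset.sum_congr rfl fun w _ => h1 w]
  rw [sum_shift_vec (fun u => ∑ L : ZMod 2, g u L) fun i => ∑ j ∈ univ.erase i, Ra a i j]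
  simp only [hJ_zero, hg, card_Ix]
  rw [div_div, ← pow_succ]

theorem gPh_ev (a q : ℕ) (ha : F1 a) (hq : P8 q) (hqa : ¬ q ∣ a) :
    ev a (gPh a) q = if (a * q) % 8 = 1 then gT (a * q) else 0 := by
  classical
  unfold ev gPh
  by_cases h8 : (a * q) % 8 = 1
  swap
  · rw [if_neg h8, if_neg (fun h => h8 ((class_iff ha hq).2 h))]
  rw [if_pos h8, if_pos ((class_iff ha hq).1 h8)]
  set pf : Option (Ix a) → ℕ := fun o => o.elim q fun i => (i : ℕ) with hpf
  have hP8 : ∀ o, P8 (pf o) := by
    intro o
    rcases o with _ | i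
    · exact hq
    · exact F1_P8 ha i
  have hpinj : Function.Injective pf := by
    intro x y hxy
    rcases x with _ | x <;> rcases y with _ | y
    · rfl
    · exact absurd (Nat.dvd_of_mem_primeFactors y.2) (by
        have : q = (y : ℕ) := hxy
        rwa [← this])
    · exact absurd (Nat.dvd_of_mem_primeFactors x.2) (by
        have : (x : ℕ) = q := hxy
        rwa [this])
    · have : (x : ℕ) = y := hxy
      exact congrArg some (Subtype.ext this)
  -- the condition for `a * q`
  have hLC : LC pf ↔ LC (fun i : Ix (a * q) => (i : ℕ)) := by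
    have h := LC_equiv (ixe a q ha hq hqa) (fun i : Ix (a * q) => (i : ℕ))
    have e : (fun i : Ix (a * q) => (i : ℕ)) ∘ (ixe a q ha hq hqa) = pf := by
      funext o
      rcases o with _ | i
      · exact ixe_none ha hq hqa
      · exact ixe_some ha hq hqa i
    rw [e] at h
    exact h
  -- the determinant
  set N0 : Matrix (Option (Ix a)) (Option (Ix a)) (ZMod 2) :=
    (Pool.Agent.TQG.lap fun j i => sy (pf j) (pf i)).updateCol none fun i => lam (pf i) with hN0
  have hcol : ∀ o, N0 o none = lam (pf o) := by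
    intro o
    rw [hN0, Matrix.updateCol_self]
  have hent : ∀ (o : Option (Ix a)) (j : Ix a), N0 o (some j) =
      if o = some j then ∑ l ∈ univ.erase o, sy (pf o) (pf l) else sy (pf o) (pf (some j)) := by
    intro o j
    rw [hN0, Matrix.updateCol_ne (by simp)]
    rfl
  have hdet : (CC (Ra a) (sa a) (la a) (fun i => wq a q i + ∑ j ∈ univ.erase i, Ra a i j)
      ((∑ i, la a i) + lam q)).det = N0.det := by
    refine det_rows _ _ ?_ ?_
    · intro i o
      rcases o with _ | j
      · rw [hcol]; rfl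
      · rw [hent]
        have h0 : CC (Ra a) (sa a) (la a) (fun i => wq a q i + ∑ j ∈ univ.erase i, Ra a i j)
            ((∑ i, la a i) + lam q) (some i) (some j) =
            MM (Ra a) (fun i => wq a q i + ∑ j ∈ univ.erase i, Ra a i j) i j := rfl
        rw [h0]
        unfold MM
        rw [Matrix.of_apply]
        by_cases hij : i = j
        · subst hij
          rw [if_pos rfl, if_pos rfl]
          have h1 : (univ.erase (some i) : Finset (Option (Ix a))) =
              insert none ((univ.erase i).map Function.Embedding.some) := by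
            ext o
            rcases o with _ | o <;> simp
          rw [h1, Finset.sum_insert (by simp), Finset.sum_map]
          rfl
        · rw [if_neg hij, if_neg (fun h => hij (Option.some_injective _ h))]
          rfl
    · intro o
      rcases o with _ | j
      · rw [Finset.sum_congr rfl fun o _ => hcol o, Fintype.sum_option, add_comm]
        rfl
      · rw [Finset.sum_congr rfl fun o _ => hent o j]
        show sa a j = _
        have h1 : ∑ o : Option (Ix a), (if o = some j then ∑ l ∈ univ.erase o, sy (pf o) (pf l)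
            else sy (pf o) (pf (some j))) =
            ∑ o ∈ univ.erase (some j), (sy (pf (some j)) (pf o) + sy (pf o) (pf (some j))) := by
          rw [← Finset.add_sum_erase _ _ (Finset.mem_univ (some j)), if_pos rfl,
            Finset.sum_add_distrib]
          congr 1
          refine Finset.sum_congr rfl fun o ho => ?_
          rw [if_neg (Finset.mem_erase.1 ho).1]
        rw [h1]
        have h2 : ∀ o ∈ univ.erase (some j), sy (pf (some j)) (pf o) + sy (pf o) (pf (some j)) =
            nn (pf (some j)) * nn (pf o) := by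
          intro o ho
          rw [sy_rec (hP8 (some j)) (hP8 o) fun h => (Finset.mem_erase.1 ho).1 (hpinj h).symm,
            ← add_assoc, CharTwo.add_self_eq_zero, zero_add]
        rw [Finset.sum_congr rfl h2, ← Finset.mul_sum]
        have h3 : ∑ o : Option (Ix a), nn (pf o) = 0 := by
          rw [Fintype.sum_option]
          have h4 : nn (pf none) = ∑ i, sa a i := (class_iff ha hq).1 h8
          rw [h4]
          exact CharTwo.add_self_eq_zero _
        have h5 : ∑ o ∈ univ.erase (some j), nn (pf o) = nn (pf (some j)) := by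
          have h6 := Finset.add_sum_erase univ (fun o => nn (pf o)) (Finset.mem_univ (some j))
          rw [h3] at h6
          exact (CharTwo.add_eq_zero.1 h6).symm
        rw [h5]
        show nn j = nn j * nn j
        unfold nn
        split_ifs <;> simp
  unfold gT
  have hz : ∀ x : ZMod 2, x = 1 ↔ x ≠ 0 := by decide
  refine if_congr ?_ rfl rfl
  show crk (CC (Ra a) (sa a) (la a) (fun i => wq a q i + ∑ j ∈ univ.erase i, Ra a i j)
      ((∑ i, la a i) + lam q)) = 0 ↔ _
  rw [crk_eq_zero_iff, hdet, hz, ← hLC]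
  exact det_LC pf none

end Pool.Agent.GTL
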