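import Pool.Agent.GTL.HT
import Pool.Agent.GTL.PrdA
import Pool.Agent.GTL.Ifc
import Pool.Agent.GTL.Defs
import Pool.Agent.TLW.Cnt
set_option autoImplicit false

/-! counting multiples in `F1` relative to the yardstick -/

namespace Pool.Agent.GTL

open Pool.Agent.TLW

open Finset

variable [Dat]

private lemma cnt_FF : ∃ C : ℝ, 1 ≤ C ∧ ∀ y : ℕ, 2 ≤ y →
    ((FF y).card : ℝ) ≤ C * ((y : ℝ) / Real.log y) * DD y := by
  obtain ⟨C, hC, h⟩ := ht 1 zero_le_one
  refine ⟨max C 1, le_max_right _ _, fun y hy => ?_⟩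
  have h1 := h (fun _ => 1) (fun _ => zero_le_one) (fun _ _ _ _ => by norm_num) y hy
  rw [sum_const, nsmul_eq_mul, mul_one] at h1
  have hly : 0 < Real.log y := Real.log_pos (by exact_mod_cast (by omega : 1 < y))
  have h2 := sum_FF_le y
  have h3 : 0 ≤ C * ((y : ℝ) / Real.log y) := by positivity
  calc ((FF y).card : ℝ) ≤ C * ((y : ℝ) / Real.log y) * ∑ m ∈ FF y, 1 / (m : ℝ) := h1
    _ ≤ C * ((y : ℝ) / Real.log y) * DD y := mul_le_mul_of_nonneg_left h2 h3
    _ ≤ max C 1 * ((y : ℝ) / Real.log y) * DD y := by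
        have := one_le_DD y
        gcongr
        exact le_max_left _ _

theorem cnt_div : ∃ C : ℝ, 0 < C ∧ ∀ x d : ℕ, 2 ≤ x → F1 d →
    (((FF x).filter (fun n => d ∣ n)).card : ℝ) ≤
      C * ((x : ℝ) / d) * (1 + Real.log d) * (DD x / Real.log x) := by
  obtain ⟨C, hC, h⟩ := cnt_FF
  refine ⟨2 * C, by positivity, fun x d hx hd => ?_⟩
  have hd0 : 0 < d := Nat.pos_of_ne_zero hd.1.ne_zero
  have hdR : (1 : ℝ) ≤ d := by exact_mod_cast hd0
  have hxR : (2 : ℝ) ≤ x := by exact_mod_cast hx
  have hlx : 0 < Real.log x := Real.log_pos (by linarith)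
  have hld : 0 ≤ Real.log d := Real.log_nonneg hdR
  have hDx := one_le_DD x
  -- injection n ↦ n / d
  have hcard : ((FF x).filter (fun n => d ∣ n)).card ≤ (FF (x / d)).card := by
    refine card_le_card_of_injOn (fun n => n / d) ?_ ?_
    · intro n hn
      rw [mem_coe, mem_filter] at hn
      obtain ⟨hn1, hn2⟩ := hn
      unfold FF at hn1 ⊢
      rw [mem_filter, mem_Icc] at hn1
      rw [mem_coe, mem_filter, mem_Icc]
      refine ⟨⟨Nat.div_pos (Nat.le_of_dvd (by omega) hn2) hd0, Nat.div_le_div_right hn1.1.2⟩, ?_⟩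
      have hdv : n / d ∣ n := Nat.div_dvd_of_dvd hn2
      refine ⟨hn1.2.1.squarefree_of_dvd hdv, fun p hp => hn1.2.2 p ?_⟩
      rw [Nat.mem_primeFactors] at hp ⊢
      exact ⟨hp.1, hp.2.1.trans hdv, hn1.2.1.ne_zero⟩
    · intro n hn m hm hnm
      rw [mem_coe, mem_filter] at hn hm
      simp only at hnm
      rw [← Nat.div_mul_cancel hn.2, ← Nat.div_mul_cancel hm.2, hnm]
  have hcardR : (((FF x).filter (fun n => d ∣ n)).card : ℝ) ≤ ((FF (x / d)).card : ℝ) :=
    Nat.cast_le.mpr hcard
  refine hcardR.trans ?_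
  set y := x / d with hy
  rcases Nat.lt_or_ge y 2 with hy2 | hy2
  · rcases Nat.lt_or_ge y 1 with hy1 | hy1
    · have : (FF y).card = 0 := by
        have : y = 0 := Nat.lt_one_iff.mp hy1
        rw [this]; simp [FF]
      rw [this, Nat.cast_zero]
      positivity
    · have e1 : (FF y).card ≤ 1 := by
        have : y = 1 := by omega
        rw [this]
        unfold FF
        exact (card_filter_le _ _).trans (by simp)
      have e1R : ((FF y).card : ℝ) ≤ 1 := by exact_mod_cast e1
      refine e1R.trans ?_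
      have hdx : d ≤ x := by
        by_contra hcon
        push Not at hcon
        have := Nat.div_eq_of_lt hcon
        omega
      have hx2d : x < 2 * d := by
        have := Nat.lt_mul_div_succ x hd0
        have e : x / d + 1 = 2 := by omega
        rw [e] at this
        linarith
      have hxd : (1 : ℝ) ≤ (x : ℝ) / d := by
        rw [le_div_iff₀ (by linarith)]
        simpa using (Nat.cast_le (α := ℝ)).mpr hdx
      have hlog : Real.log x ≤ 1 + Real.log d := by
        have h1 : Real.log x ≤ Real.log (2 * d) := Real.log_le_log (by linarith) (by exact_mod_cast hx2d.le)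
        rw [Real.log_mul (by norm_num) (by linarith)] at h1
        have := Real.log_two_lt_d9
        linarith
      have h3 : 1 ≤ (1 + Real.log d) * (DD x / Real.log x) := by
        rw [← mul_div_assoc, le_div_iff₀ hlx, one_mul]
        calc Real.log x ≤ 1 + Real.log d := hlog
          _ = (1 + Real.log d) * 1 := by ring
          _ ≤ (1 + Real.log d) * DD x := mul_le_mul_of_nonneg_left hDx (by linarith)
      have h4 : (1 : ℝ) ≤ 2 * C * ((x : ℝ) / d) := by nlinarith
      calc (1 : ℝ) = 1 * 1 := by ring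
        _ ≤ (2 * C * ((x : ℝ) / d)) * ((1 + Real.log d) * (DD x / Real.log x)) :=
            mul_le_mul h4 h3 zero_le_one (by positivity)
        _ = _ := by ring
  · have hyx : y ≤ x := Nat.div_le_self _ _
    have hyR : (2 : ℝ) ≤ y := by exact_mod_cast hy2
    have hly : 0 < Real.log y := Real.log_pos (by linarith)
    have hlog2 : (1 : ℝ) / 2 ≤ Real.log y := by
      have := Real.log_le_log (by norm_num) hyR
      have := Real.log_two_gt_d9
      linarith
    have hyd : (y : ℝ) ≤ (x : ℝ) / d := Nat.cast_div_le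
    have hlogx : Real.log x ≤ 2 * Real.log y * (1 + Real.log d) := by
      have hlt : x < d * (y + 1) := Nat.lt_mul_div_succ x hd0
      have hle : x ≤ d * y ^ 2 := by
        refine hlt.le.trans (Nat.mul_le_mul_left _ ?_)
        nlinarith
      have h1 : Real.log x ≤ Real.log (d * (y : ℝ) ^ 2) :=
        Real.log_le_log (by linarith) (by exact_mod_cast hle)
      rw [Real.log_mul (by linarith) (by positivity), Real.log_pow] at h1
      push_cast at h1
      nlinarith
    refine (h y hy2).trans ?_
    have hDD : DD y ≤ DD x := DD_mono hyx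
    have hDy := one_le_DD y
    have hinv : 1 / Real.log y ≤ 2 * (1 + Real.log d) / Real.log x := by
      rw [div_le_div_iff₀ hly hlx]
      linarith
    calc C * ((y : ℝ) / Real.log y) * DD y = C * y * (1 / Real.log y) * DD y := by ring
      _ ≤ C * ((x : ℝ) / d) * (2 * (1 + Real.log d) / Real.log x) * DD x := by
          have h0 : 0 ≤ 1 / Real.log y := by positivity
          gcongr
      _ = _ := by ring

end Pool.Agent.GTL
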