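import Pool.Agent.GTL.DC
import Pool.Agent.GTL.Defs
import Pool.Agent.TLW.DCx
set_option autoImplicit false

/-! double counting: moving one prime -/

namespace Pool.Agent.GTL

open Pool.Agent.TLW

open Finset

variable [Dat]

private theorem dcx_mem_dv {z i n b : ℕ} (h : b ∈ dv z i n) :
    ∃ c, n = b * c ∧ b ≠ 0 ∧ c ≠ 0 ∧ Rgh z c ∧ c.primeFactors.card = i := by
  unfold dv at h
  rw [Finset.mem_filter, Nat.mem_divisors] at h
  obtain ⟨⟨⟨c, hc⟩, hn⟩, h1, h2⟩ := h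
  have hb : b ≠ 0 := by rintro rfl; simp at hc; exact hn hc
  have hc0 : c ≠ 0 := by rintro rfl; simp at hc; exact hn hc
  have hq : n / b = c := by rw [hc]; exact Nat.mul_div_cancel_left c (Nat.pos_of_ne_zero hb)
  rw [hq] at h1 h2
  exact ⟨c, hc, hb, hc0, h1, h2⟩

private theorem dcx_mem_dv' {z i b c : ℕ} (hb : b ≠ 0) (hc : c ≠ 0) (h1 : Rgh z c)
    (h2 : c.primeFactors.card = i) : b ∈ dv z i (b * c) := by
  unfold dv
  rw [Finset.mem_filter, Nat.mem_divisors]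
  have hq : b * c / b = c := Nat.mul_div_cancel_left c (Nat.pos_of_ne_zero hb)
  rw [hq]
  exact ⟨⟨dvd_mul_right b c, mul_ne_zero hb hc⟩, h1, h2⟩

private theorem dcx_big_mul {z a c : ℕ} (h : Nat.Coprime a c) :
    big z (a * c) = big z a + big z c := by
  unfold big
  rw [Nat.Coprime.primeFactors_mul h, Finset.filter_union, Finset.card_union_of_disjoint]
  exact Finset.disjoint_filter_filter h.disjoint_primeFactors

private theorem dcx_big_rgh {z c : ℕ} (h : Rgh z c) : big z c = c.primeFactors.card := by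
  unfold big
  rw [Finset.filter_true_of_mem h]

private theorem dcx_big_prime {z q : ℕ} (hq : q.Prime) (hz : z < q) : big z q = 1 := by
  unfold big
  rw [Nat.Prime.primeFactors hq, Finset.filter_singleton, if_pos hz, Finset.card_singleton]

private theorem dcx_F1_mul {a c : ℕ} (h : F1 (a * c)) : F1 a ∧ F1 c ∧ Nat.Coprime a c := by
  obtain ⟨hs, hp⟩ := h
  rw [Nat.squarefree_mul_iff] at hs
  obtain ⟨hc, ha, hb⟩ := hs
  refine ⟨⟨ha, fun p hpp => hp p ?_⟩, ⟨hb, fun p hpp => hp p ?_⟩, hc⟩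
  · rw [Nat.Coprime.primeFactors_mul hc]
    exact Finset.mem_union_left _ hpp
  · rw [Nat.Coprime.primeFactors_mul hc]
    exact Finset.mem_union_right _ hpp

private theorem dcx_F1_mul' {a c : ℕ} (ha : F1 a) (hc : F1 c) (h : Nat.Coprime a c) :
    F1 (a * c) := by
  refine ⟨(Nat.squarefree_mul_iff).2 ⟨h, ha.1, hc.1⟩, fun p hp => ?_⟩
  rw [Nat.Coprime.primeFactors_mul h, Finset.mem_union] at hp
  rcases hp with hp | hp
  · exact ha.2 p hp
  · exact hc.2 p hp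

private theorem dcx_F1_prime {q : ℕ} (h : P8 q) : F1 q := by
  refine ⟨h.1.squarefree, fun p hp => ?_⟩
  rw [Nat.Prime.primeFactors h.1, Finset.mem_singleton] at hp
  rw [hp]
  exact h.2

private theorem dcx_mem_FF {x n : ℕ} : n ∈ FF x ↔ (1 ≤ n ∧ n ≤ x) ∧ F1 n := by
  unfold FF
  rw [Finset.mem_filter, Finset.mem_Icc]

private theorem dcx_mem_pr {x y p : ℕ} : p ∈ pr x y ↔ (x < p ∧ p ≤ y) ∧ P8 p := by
  unfold pr
  rw [Finset.mem_filter, Finset.mem_Ioc]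

theorem AS_expand (X z J i : ℕ) (hz : 1 ≤ z) (hi : i ≤ J) (H : ℕ → ℝ) :
    ((J : ℝ) - i) * AS X z J i H = BS X z J i (fun b q => H (b * q)) := by
  unfold AS BS
  have h1 : ((J : ℝ) - i) * ∑ n ∈ (FF X).filter (fun n => big z n = J), ∑ b ∈ dv z i n, H b
      = ∑ n ∈ (FF X).filter (fun n => big z n = J), ∑ b ∈ dv z i n,
        ∑ _q ∈ b.primeFactors.filter (z < ·), H b := by
    rw [Finset.mul_sum]
    refine Finset.sum_congr rfl fun n hn => ?_
    rw [Finset.mul_sum]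
    refine Finset.sum_congr rfl fun b hb => ?_
    rw [Finset.sum_const, nsmul_eq_mul]
    congr 1
    rw [Finset.mem_filter, dcx_mem_FF] at hn
    obtain ⟨c, hc, hb0, hc0, hr, hcard⟩ := dcx_mem_dv hb
    rw [hc] at hn
    have hco := (dcx_F1_mul hn.1.2).2.2
    have h2 := hn.2
    rw [dcx_big_mul hco, dcx_big_rgh hr, hcard] at h2
    have h3 : (b.primeFactors.filter (z < ·)).card = big z b := rfl
    rw [h3, ← h2]
    push_cast
    ring
  rw [h1]
  simp only [Finset.sum_sigma']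
  refine Finset.sum_nbij'
    (fun x => ⟨x.1 / x.2.2, x.2.1 / x.2.2, x.2.2⟩)
    (fun y => ⟨y.1 * y.2.2, y.2.1 * y.2.2, y.2.2⟩) ?_ ?_ ?_ ?_ ?_
  · rintro ⟨n, b, q⟩ h
    simp only [Finset.mem_sigma, Finset.mem_filter] at h ⊢
    obtain ⟨⟨hn, hJ⟩, hb, hq, hzq⟩ := h
    obtain ⟨c, hc, hb0, hc0, hr, hcard⟩ := dcx_mem_dv hb
    have hqp := Nat.prime_of_mem_primeFactors hq
    obtain ⟨b', hb'⟩ := Nat.dvd_of_mem_primeFactors hq
    have hb'0 : b' ≠ 0 := by rintro rfl; simp at hb'; exact hb0 hb'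
    have hnq : n = q * (b' * c) := by rw [hc, hb']; ring
    have e1 : n / q = b' * c := by
      rw [hnq]; exact Nat.mul_div_cancel_left _ hqp.pos
    have e2 : b / q = b' := by
      rw [hb']; exact Nat.mul_div_cancel_left _ hqp.pos
    rw [e1, e2]
    rw [dcx_mem_FF] at hn ⊢
    rw [hnq] at hn hJ
    obtain ⟨hF1, hF2, hco⟩ := dcx_F1_mul hn.2
    rw [dcx_big_mul hco, dcx_big_prime hqp hzq] at hJ
    have hm0 : b' * c ≠ 0 := mul_ne_zero hb'0 hc0
    have hP8 : P8 q := ⟨hqp, hF1.2 q (by rw [Nat.Prime.primeFactors hqp]; simp)⟩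
    refine ⟨⟨⟨⟨Nat.pos_of_ne_zero hm0, ?_⟩, hF2⟩, by omega⟩, ?_, ?_, ?_⟩
    · rw [Nat.le_div_iff_mul_le (by omega)]
      calc b' * c * z ≤ b' * c * q := Nat.mul_le_mul_left _ hzq.le
        _ = q * (b' * c) := by ring
        _ ≤ X := hn.1.2
    · exact dcx_mem_dv' hb'0 hc0 hr hcard
    · rw [dcx_mem_pr]
      refine ⟨⟨hzq, ?_⟩, hP8⟩
      rw [Nat.le_div_iff_mul_le (Nat.pos_of_ne_zero hm0)]
      exact hn.1.2
    · intro hd
      have := Nat.Coprime.eq_one_of_dvd hco hd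
      exact hqp.one_lt.ne' this
  · rintro ⟨n, b, q⟩ h
    simp only [Finset.mem_sigma, Finset.mem_filter] at h ⊢
    obtain ⟨⟨hn, hJ⟩, hb, hq, hqn⟩ := h
    obtain ⟨c, hc, hb0, hc0, hr, hcard⟩ := dcx_mem_dv hb
    rw [dcx_mem_pr] at hq
    rw [dcx_mem_FF] at hn ⊢
    have hqp := hq.2.1
    have hn0 : 0 < n := hn.1.1
    have hco : Nat.Coprime n q := ((Nat.Prime.coprime_iff_not_dvd hqp).2 hqn).symm
    have hle : n * q ≤ X := by
      have := hq.1.2
      rw [Nat.le_div_iff_mul_le hn0] at this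
      rw [mul_comm]
      exact this
    refine ⟨⟨⟨⟨Nat.mul_pos hn0 hqp.pos, hle⟩,
      dcx_F1_mul' hn.2 (dcx_F1_prime hq.2) hco⟩, ?_⟩, ?_, ?_, hq.1.1⟩
    · rw [dcx_big_mul hco, dcx_big_prime hqp hq.1.1]
      exact hJ
    · have e : n * q = b * q * c := by rw [hc]; ring
      rw [e]
      exact dcx_mem_dv' (mul_ne_zero hb0 hqp.ne_zero) hc0 hr hcard
    · rw [Nat.mem_primeFactors]
      exact ⟨hqp, dvd_mul_left q b, mul_ne_zero hb0 hqp.ne_zero⟩
  · rintro ⟨n, b, q⟩ h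
    simp only [Finset.mem_sigma, Finset.mem_filter] at h ⊢
    obtain ⟨⟨hn, hJ⟩, hb, hq, hzq⟩ := h
    obtain ⟨c, hc, hb0, hc0, hr, hcard⟩ := dcx_mem_dv hb
    have hqb := Nat.dvd_of_mem_primeFactors hq
    have hqn : q ∣ n := hqb.trans ⟨c, hc⟩
    rw [Nat.div_mul_cancel hqb, Nat.div_mul_cancel hqn]
  · rintro ⟨n, b, q⟩ h
    simp only [Finset.mem_sigma, Finset.mem_filter] at h ⊢
    obtain ⟨⟨hn, hJ⟩, hb, hq, hqn⟩ := h
    rw [dcx_mem_pr] at hq
    have hqp := hq.2.1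
    rw [Nat.mul_div_cancel _ hqp.pos, Nat.mul_div_cancel _ hqp.pos]
  · rintro ⟨n, b, q⟩ h
    simp only [Finset.mem_sigma, Finset.mem_filter] at h ⊢
    obtain ⟨⟨hn, hJ⟩, hb, hq, hzq⟩ := h
    have hqb := Nat.dvd_of_mem_primeFactors hq
    rw [Nat.div_mul_cancel hqb]

end Pool.Agent.GTL
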