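import Mathlib
import Pool.Agent.C1M.FM3
import Pool.Agent.GTL.Defs
import Pool.Agent.C1M.FM4
import Pool.Agent.GTL.M1
set_option autoImplicit false

/-!
# Upper bound for the Euler products `EP z D`
-/

namespace Pool.Agent.GTLM

open Pool.Agent.C1M Pool.Agent.HyperWeil

open Pool.Agent.GTL (Dat)

open Finset Pool.Agent.HyperWeil

variable [Dat]

lemma P8_subset_PR (z : ℕ) : P8 z ⊆ PR z := by
  intro p hp
  rw [mem_P8] at hp
  exact mem_PR.mpr ⟨hp.1, hp.2.1⟩

lemma EP_nonneg (z : ℕ) (D : ℤ) : 0 ≤ EP z D := by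
  unfold EP
  refine Finset.prod_nonneg fun p _ => ?_
  have h4 : (-1 : ℝ) ≤ (psi D p : ℝ) := by
    have := (abs_le.mp (abs_psi_le D p)).1
    exact_mod_cast this
  have h5 : cc p ≤ 1 := by
    unfold cc
    rw [div_le_one (by positivity)]
    have : (0 : ℝ) ≤ p := Nat.cast_nonneg p
    linarith
  have h6 := cc_nonneg p
  nlinarith

lemma EP_le_QQ (z : ℕ) (D : ℤ) : EP z D ≤ QQ z := by
  unfold EP QQ
  refine Finset.prod_le_prod (fun p _ => ?_) (fun p _ => ?_)
  · have h4 : (-1 : ℝ) ≤ (psi D p : ℝ) := by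
      have := (abs_le.mp (abs_psi_le D p)).1
      exact_mod_cast this
    have h5 : cc p ≤ 1 := by
      unfold cc
      rw [div_le_one (by positivity)]
      have : (0 : ℝ) ≤ p := Nat.cast_nonneg p
      linarith
    have h6 := cc_nonneg p
    nlinarith
  · have h4 : (psi D p : ℝ) ≤ 1 := by
      have := (abs_le.mp (abs_psi_le D p)).2
      exact_mod_cast this
    have h6 := cc_nonneg p
    nlinarith

end Pool.Agent.GTLM
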