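import Mathlib
import Pool.Agent.C1M.FM6
import Pool.Agent.GTL.Defs
import Pool.Agent.GTL.M4
import Pool.Agent.C1M.FM7
set_option autoImplicit false

/-!
# Reciprocity, nonsquares, Euler products over the primes `1 mod 8`
-/

namespace Pool.Agent.GTLM

open Pool.Agent.C1M Pool.Agent.HyperWeil

open Pool.Agent.GTL (Dat)

open Finset Pool.Agent.HyperWeil

variable [Dat]

/-- the primes `2` and those of the modulus -/
def GS : Finset ℕ := insert 2 Dat.S

/-- product of the odd primes of the modulus -/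
def ND : ℕ := ∏ q ∈ Dat.S, q

lemma GS_prime {q : ℕ} (hq : q ∈ GS) : q.Prime := by
  unfold GS at hq
  rcases Finset.mem_insert.mp hq with h | h
  · rw [h]; exact Nat.prime_two
  · exact (Dat.S_pr q h).1

lemma ND_pos : 0 < ND := Finset.prod_pos fun q hq => (Dat.S_pr q hq).1.pos

lemma pr_GS_le {I : Finset ℕ} (hI : I ⊆ GS) : 0 < pr I ∧ pr I ≤ 2 * ND := by
  have h2 : (2 : ℕ) ∉ Dat.S := fun h => (Dat.S_pr 2 h).2.1 rfl
  constructor
  · exact pr_pos fun p hp => GS_prime (hI hp)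
  · have h1 : pr GS = 2 * ND := by
      unfold pr GS ND
      rw [Finset.prod_insert h2]
    rw [← h1]
    unfold pr
    exact Finset.prod_le_prod_of_subset_of_one_le' hI fun q hq _ => (GS_prime hq).one_le

lemma psi_mul_pr (D : ℤ) (I : Finset ℕ) (p : ℕ) :
    psi (D * (pr I : ℕ)) p = psi D p * ∏ q ∈ I, psi (q : ℤ) p := by
  unfold pr
  induction I using Finset.induction_on with
  | empty => simp
  | insert a s ha ih =>
    rw [Finset.prod_insert ha, Finset.prod_insert ha]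
    have e : D * ((a * ∏ q ∈ s, q : ℕ) : ℤ) = (a : ℤ) * (D * ((∏ q ∈ s, q : ℕ) : ℤ)) := by
      push_cast; ring
    rw [e, psi_mul_left, ih]
    ring

lemma sum_I_psi (D : ℤ) (p : ℕ) :
    ∑ I ∈ GS.powerset, (psi (D * (pr I : ℕ)) p : ℝ)
      = (psi D p : ℝ) * ∏ q ∈ GS, (1 + (psi (q : ℤ) p : ℝ)) := by
  rw [Finset.prod_one_add, Finset.mul_sum]
  refine Finset.sum_congr rfl fun I _ => ?_
  rw [psi_mul_pr]
  push_cast
  ring

lemma prod_P8 {z p : ℕ} (hp : p ∈ P8 z) :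
    ∏ q ∈ GS, (1 + (psi (q : ℤ) p : ℝ)) = 2 ^ GS.card := by
  have hp8 := mem_P8.mp hp
  have ho := odd_of_mem_P8 hp
  have hpS : p ∉ Dat.S := by
    intro h
    have h1 := Dat.C_cop p hp8.2.2
    have h2 := (Dat.S_pr p h).2.2
    have h3 : p ∣ Nat.gcd p (Dat.Q) := Nat.dvd_gcd dvd_rfl h2
    rw [h1] at h3
    exact hp8.2.1.one_lt.ne' (Nat.dvd_one.mp h3)
  have h2 : p ≠ 2 := by rintro rfl; omega
  have hC := (Dat.C_iff p hp8.2.1 h2 hpS).mp hp8.2.2
  rw [← Finset.prod_const]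
  refine Finset.prod_congr rfl fun q hq => ?_
  unfold GS at hq
  rcases Finset.mem_insert.mp hq with h | h
  · rw [h]
    have : psi ((2 : ℕ) : ℤ) p = 1 := by
      rw [show ((2 : ℕ) : ℤ) = 2 by norm_num, psi_two_eq ho, if_pos hC.1]
    rw [this]; norm_num
  · have : psi (q : ℤ) p = 1 := by
      unfold psi
      rw [if_pos ho]
      exact hC.2 q h
    rw [this]; norm_num

lemma prod_not_P8 {z p : ℕ} (hp : p ∈ PR z) (hn : p ∉ P8 z) (h2 : p % 2 = 1) (hS : p ∉ Dat.S) :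
    ∏ q ∈ GS, (1 + (psi (q : ℤ) p : ℝ)) = 0 := by
  rw [mem_PR] at hp
  have hp2 : p ≠ 2 := by rintro rfl; omega
  have hC : ¬ ((p % 8 = 1 ∨ p % 8 = 7) ∧ ∀ q ∈ Dat.S, jacobiSym (q : ℤ) p = 1) := by
    intro h
    exact hn (mem_P8.mpr ⟨hp.1, hp.2, (Dat.C_iff p hp.2 hp2 hS).mpr h⟩)
  by_cases h8 : p % 8 = 1 ∨ p % 8 = 7
  · have h3 : ¬ ∀ q ∈ Dat.S, jacobiSym (q : ℤ) p = 1 := fun h => hC ⟨h8, h⟩
    push Not at h3
    obtain ⟨q, hq, hj⟩ := h3
    refine Finset.prod_eq_zero (i := q) (Finset.mem_insert_of_mem hq) ?_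
    have hqp : Nat.Coprime q p := by
      rw [Nat.coprime_primes (Dat.S_pr q hq).1 hp.2]
      rintro rfl
      exact hS hq
    have h4 : jacobiSym (q : ℤ) p = -1 := by
      rcases jacobiSym.eq_one_or_neg_one (a := (q : ℤ)) (b := p) (by
        rw [Int.gcd_natCast_natCast]; exact hqp) with h | h
      · exact absurd h hj
      · exact h
    have h5 : psi (q : ℤ) p = -1 := by
      unfold psi
      rw [if_pos h2]
      exact h4
    rw [h5]; norm_num
  · refine Finset.prod_eq_zero (i := 2) (Finset.mem_insert_self _ _) ?_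
    have : psi ((2 : ℕ) : ℤ) p = -1 := by
      rw [show ((2 : ℕ) : ℤ) = 2 by norm_num, psi_two_eq h2, if_neg h8]
    rw [this]; norm_num

lemma prod_le_two_pow (p : ℕ) : 0 ≤ ∏ q ∈ GS, (1 + (psi (q : ℤ) p : ℝ)) ∧
    ∏ q ∈ GS, (1 + (psi (q : ℤ) p : ℝ)) ≤ 2 ^ GS.card := by
  constructor
  · refine Finset.prod_nonneg fun q _ => ?_
    have := psi_ge (q : ℤ) p
    linarith
  · rw [← Finset.prod_const]
    refine Finset.prod_le_prod (fun q _ => ?_) fun q _ => ?_
    · have := psi_ge (q : ℤ) p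
      linarith
    · have := psi_le' (q : ℤ) p
      linarith

lemma sum_P8_psi_le {D : ℤ} (hD : Squarefree D) (h1 : D.natAbs ≠ 1) (hodd : D.natAbs % 2 = 1)
    (hcop : ∀ q ∈ Dat.S, ¬ q ∣ D.natAbs) (z : ℕ) :
    ∑ p ∈ P8 z, (psi D p : ℝ) / p ≤
      Real.log (3 + Real.log (8 * ND * D.natAbs : ℕ)) + 20 + (Dat.S.card : ℝ) := by
  have hD0 : D ≠ 0 := hD.ne_zero
  have hDa : 0 < D.natAbs := Int.natAbs_pos.mpr hD0
  have hlq0 : 0 ≤ Real.log (8 * ND * D.natAbs : ℕ) := Real.log_natCast_nonneg _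
  set A := 3 + Real.log (8 * ND * D.natAbs : ℕ) with hA
  -- the bound for all twists
  have key : ∀ I ∈ GS.powerset,
      ∑ p ∈ PR z, (psi (D * (pr I : ℕ)) p : ℝ) / p ≤ Real.log A + 20 := by
    intro I hI
    rw [mem_powerset] at hI
    obtain ⟨hI0, hIle⟩ := pr_GS_le hI
    have htD : (D * (pr I : ℕ)).natAbs = D.natAbs * pr I := by
      rw [Int.natAbs_mul, Int.natAbs_natCast]
    have hsq : Squarefree (D * (pr I : ℕ)) := by
      rw [← Int.squarefree_natAbs, htD, Nat.squarefree_mul]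
      · exact ⟨Int.squarefree_natAbs.mpr hD, pr_squarefree fun p hp => GS_prime (hI hp)⟩
      · unfold pr
        refine Nat.Coprime.prod_right fun q hq => ?_
        rw [Nat.coprime_comm, Nat.Prime.coprime_iff_not_dvd (GS_prime (hI hq))]
        have hq' := hI hq
        unfold GS at hq'
        rcases Finset.mem_insert.mp hq' with h | h
        · rw [h]; omega
        · exact hcop q h
    have hne1 : (D * (pr I : ℕ)).natAbs ≠ 1 := by
      rw [htD]
      intro h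
      exact h1 (Nat.eq_one_of_mul_eq_one_right h)
    have h2 := sum_psi_div_le hsq.ne_zero (not_isSquare_of_squarefree hsq hne1) z
    refine h2.trans ?_
    have h3 : Real.log (4 * (D * (pr I : ℕ)).natAbs : ℕ) ≤ Real.log (8 * ND * D.natAbs : ℕ) := by
      rw [htD]
      apply Real.log_le_log
      · exact_mod_cast (by positivity : 0 < 4 * (D.natAbs * pr I))
      · have : 4 * (D.natAbs * pr I) ≤ 8 * ND * D.natAbs := by
          calc 4 * (D.natAbs * pr I) ≤ 4 * (D.natAbs * (2 * ND)) := by gcongr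
            _ = 8 * ND * D.natAbs := by ring
        exact_mod_cast this
    have h4 : 0 ≤ Real.log (4 * (D * (pr I : ℕ)).natAbs : ℕ) := Real.log_natCast_nonneg _
    have h5 : Real.log (3 + Real.log (4 * (D * (pr I : ℕ)).natAbs : ℕ)) ≤ Real.log A :=
      Real.log_le_log (by linarith) (by linarith)
    linarith
  set c : ℝ := (2 ^ GS.card)⁻¹ with hc
  have hc0 : 0 < c := by positivity
  have hcc : c * 2 ^ GS.card = 1 := inv_mul_cancel₀ (by positivity)
  set f : ℕ → ℝ := fun p => c * ((psi D p : ℝ) * ∏ q ∈ GS, (1 + (psi (q : ℤ) p : ℝ))) / p +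
    (if p ∈ Dat.S then 1 else 0) with hf
  have hf1 : ∀ p ∈ P8 z, (psi D p : ℝ) / p ≤ f p := by
    intro p hp
    simp only [hf]
    rw [prod_P8 hp]
    have e : c * ((psi D p : ℝ) * 2 ^ GS.card) = psi D p := by
      calc c * ((psi D p : ℝ) * 2 ^ GS.card) = (c * 2 ^ GS.card) * psi D p := by ring
        _ = _ := by rw [hcc, one_mul]
    rw [e]
    have : (0 : ℝ) ≤ if p ∈ Dat.S then 1 else 0 := by split_ifs <;> norm_num
    linarith
  have hf2 : ∀ p ∈ PR z, p ∉ P8 z → 0 ≤ f p := by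
    intro p hp hn
    simp only [hf]
    by_cases h2 : p % 2 = 1
    · by_cases hS : p ∈ Dat.S
      · rw [if_pos hS]
        have hp1 : (1 : ℝ) ≤ p := by exact_mod_cast (mem_PR.mp hp).2.one_le
        obtain ⟨g1, g2⟩ := prod_le_two_pow p
        have h3 := psi_ge D p
        have h4 : -1 ≤ c * ((psi D p : ℝ) * ∏ q ∈ GS, (1 + (psi (q : ℤ) p : ℝ))) := by
          have h5 : -(∏ q ∈ GS, (1 + (psi (q : ℤ) p : ℝ))) ≤
              (psi D p : ℝ) * ∏ q ∈ GS, (1 + (psi (q : ℤ) p : ℝ)) := by nlinarith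
          have h6 : -(2 ^ GS.card : ℝ) ≤ (psi D p : ℝ) * ∏ q ∈ GS, (1 + (psi (q : ℤ) p : ℝ)) := by
            linarith
          have h7 := mul_le_mul_of_nonneg_left h6 hc0.le
          have h8 : c * -(2 ^ GS.card : ℝ) = -1 := by
            rw [mul_neg, hcc]
          linarith
        have h5 : -1 ≤ c * ((psi D p : ℝ) * ∏ q ∈ GS, (1 + (psi (q : ℤ) p : ℝ))) / p := by
          rw [le_div_iff₀ (by linarith)]
          linarith
        linarith
      · rw [prod_not_P8 hp hn h2 hS, if_neg hS]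
        simp
    · have e : psi D p = 0 := if_neg h2
      rw [e]
      have : (0 : ℝ) ≤ if p ∈ Dat.S then 1 else 0 := by split_ifs <;> norm_num
      simpa using this
  have h2 : ∑ p ∈ P8 z, (psi D p : ℝ) / p ≤ ∑ p ∈ PR z, f p :=
    (Finset.sum_le_sum hf1).trans
      (Finset.sum_le_sum_of_subset_of_nonneg (P8_subset_PR z) hf2)
  refine h2.trans ?_
  simp only [hf]
  rw [Finset.sum_add_distrib]
  have h3 : ∑ p ∈ PR z, c * ((psi D p : ℝ) * ∏ q ∈ GS, (1 + (psi (q : ℤ) p : ℝ))) / p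
      = c * ∑ I ∈ GS.powerset, ∑ p ∈ PR z, (psi (D * (pr I : ℕ)) p : ℝ) / p := by
    rw [Finset.sum_comm, Finset.mul_sum]
    refine Finset.sum_congr rfl fun p _ => ?_
    rw [← sum_I_psi, ← Finset.sum_div]
    ring
  have h4 : ∑ I ∈ GS.powerset, ∑ p ∈ PR z, (psi (D * (pr I : ℕ)) p : ℝ) / p
      ≤ 2 ^ GS.card * (Real.log A + 20) := by
    refine (Finset.sum_le_sum key).trans (le_of_eq ?_)
    rw [Finset.sum_const, card_powerset, nsmul_eq_mul]
    push_cast
    rfl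
  have h5 : c * ∑ I ∈ GS.powerset, ∑ p ∈ PR z, (psi (D * (pr I : ℕ)) p : ℝ) / p
      ≤ Real.log A + 20 := by
    refine (mul_le_mul_of_nonneg_left h4 hc0.le).trans (le_of_eq ?_)
    rw [← mul_assoc, hcc, one_mul]
  have h6 : ∑ p ∈ PR z, (if p ∈ Dat.S then (1 : ℝ) else 0) ≤ (Dat.S.card : ℝ) := by
    rw [← Finset.sum_filter, Finset.sum_const, nsmul_eq_mul, mul_one]
    exact_mod_cast Finset.card_le_card fun p hp => (Finset.mem_filter.mp hp).2
  rw [h3]
  linarith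

lemma sum_P1_psi_le {D : ℤ} (hD : Squarefree D) (h1 : D.natAbs ≠ 1) (hodd : D.natAbs % 2 = 1)
    (hcop : ∀ q ∈ Dat.S, ¬ q ∣ D.natAbs) (z : ℕ) :
    ∑ p ∈ (P8 z).filter (fun p => p % 8 = 1), (psi D p : ℝ) / p ≤
      Real.log (3 + Real.log (8 * ND * D.natAbs : ℕ)) + 20 + (Dat.S.card : ℝ) := by
  have e1 := sum_P8_psi_le hD h1 hodd hcop z
  have hD' : Squarefree (-D) := by
    rw [← Int.squarefree_natAbs, Int.natAbs_neg, Int.squarefree_natAbs]; exact hD
  have e2 := sum_P8_psi_le (D := -D) hD' (by rw [Int.natAbs_neg]; exact h1)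
    (by rw [Int.natAbs_neg]; exact hodd) (by rw [Int.natAbs_neg]; exact hcop) z
  rw [Int.natAbs_neg] at e2
  have h2 : ∑ p ∈ (P8 z).filter (fun p => p % 8 = 1), (psi D p : ℝ) / p
      = (1 / 2) * (∑ p ∈ P8 z, (psi D p : ℝ) / p + ∑ p ∈ P8 z, (psi (-D) p : ℝ) / p) := by
    rw [← Finset.sum_add_distrib, Finset.mul_sum, Finset.sum_filter]
    refine Finset.sum_congr rfl fun p hp => ?_
    have ho := odd_of_mem_P8 hp
    have h8 := Dat.C_eight p (mem_P8.mp hp).2.2
    have e3 : psi (-D) p = psi (-1) p * psi D p := by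
      rw [← psi_mul_left, neg_one_mul]
    have e4 : psi (-1) p = if p % 8 = 1 then 1 else -1 := by
      unfold psi
      rw [if_pos ho, jacobiSym.at_neg_one (Nat.odd_iff.mpr ho)]
      split_ifs with h
      · exact ZMod.χ₄_nat_one_mod_four (by omega)
      · exact ZMod.χ₄_nat_three_mod_four (by omega)
    rw [e3, e4]
    split_ifs
    · push_cast; ring
    · push_cast; ring
  rw [h2]
  linarith

/-- constant of the Euler product bound -/
noncomputable def kS : ℝ := 11 + (Dat.S.card : ℝ) / 2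

lemma kS_nonneg : 0 ≤ kS := by unfold kS; positivity

/-- Euler product bound for both sets of primes. -/
theorem EPs_le {D : ℤ} (hD : Squarefree D) (h1 : D.natAbs ≠ 1) (hodd : D.natAbs % 2 = 1)
    (hcop : ∀ q ∈ Dat.S, ¬ q ∣ D.natAbs) (z : ℕ)
    {P : Finset ℕ} (hP : P = P8 z ∨ P = (P8 z).filter (fun p => p % 8 = 1)) :
    EPs P D ≤ Real.exp kS * (3 + Real.log (8 * ND * D.natAbs : ℕ)) ^ ((1 : ℝ) / 2) := by
  have hlq0 : 0 ≤ Real.log (8 * ND * D.natAbs : ℕ) := Real.log_natCast_nonneg _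
  set A := 3 + Real.log (8 * ND * D.natAbs : ℕ) with hA
  have hA0 : 0 < A := by linarith
  have hsub : P ⊆ P8 z := by
    rcases hP with h | h
    · rw [h]
    · rw [h]; exact Finset.filter_subset _ _
  have hPp : ∀ p ∈ P, p.Prime := fun p hp => (mem_P8.mp (hsub hp)).2.1
  have h2 := EPs_le_exp hPp D (hsub.trans (P8_subset_PR z))
  have h3 : ∑ p ∈ P, (psi D p : ℝ) / p ≤ Real.log A + 20 + (Dat.S.card : ℝ) := by
    rcases hP with h | h
    · rw [h]; exact sum_P8_psi_le hD h1 hodd hcop z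
    · rw [h]; exact sum_P1_psi_le hD h1 hodd hcop z
  calc EPs P D ≤ Real.exp ((1 / 2) * ∑ p ∈ P, (psi D p : ℝ) / p + 1 / 2) := h2
    _ ≤ Real.exp ((1 / 2) * Real.log A + kS) := Real.exp_le_exp.mpr (by unfold kS; linarith)
    _ = Real.exp kS * A ^ ((1 : ℝ) / 2) := by
        rw [Real.exp_add, Real.rpow_def_of_pos hA0]
        ring_nf

lemma S_not_dvd_pr {z : ℕ} {T : Finset ℕ} (hT : T ⊆ P8 z) {q : ℕ} (hq : q ∈ Dat.S) :
    ¬ q ∣ pr T := by
  intro h
  unfold pr at h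
  obtain ⟨p, hp, hqp⟩ := (Nat.Prime.prime (Dat.S_pr q hq).1).exists_mem_finset_dvd h
  have hp8 := mem_P8.mp (hT hp)
  have he : q = p := (Nat.prime_dvd_prime_iff_eq (Dat.S_pr q hq).1 hp8.2.1).mp hqp
  have h1 := Dat.C_cop p hp8.2.2
  have h2 := (Dat.S_pr q hq).2.2
  rw [he] at h2
  have h3 : p ∣ Nat.gcd p (Dat.Q) := Nat.dvd_gcd dvd_rfl h2
  rw [h1] at h3
  exact hp8.2.1.one_lt.ne' (Nat.dvd_one.mp h3)

/-! ### Reciprocity -/

lemma pr_odd {z : ℕ} {U : Finset ℕ} (hU : U ⊆ P8 z) : pr U % 2 = 1 := by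
  unfold pr
  rw [← Nat.odd_iff]
  induction U using Finset.induction_on with
  | empty => simp
  | insert a s ha ih =>
    rw [Finset.prod_insert ha]
    refine Odd.mul ?_ (ih fun p hp => hU (Finset.mem_insert_of_mem hp))
    rw [Nat.odd_iff]
    exact odd_of_mem_P8 (hU (Finset.mem_insert_self _ _))

lemma reciprocity {z : ℕ} {T U : Finset ℕ} (hT : T ⊆ P8 z) (hU : U ⊆ P8 z) :
    psi (pr T : ℤ) (pr U) = psi (fs U) (pr T) := by
  have hTo := pr_odd hT
  have hUo := pr_odd hU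
  unfold psi
  rw [if_pos hUo, if_pos hTo]
  rw [jacobiSym.quadratic_reciprocity (Nat.odd_iff.mpr hTo) (Nat.odd_iff.mpr hUo)]
  unfold fs
  split_ifs with h
  · have : Even (pr U / 2) := by
      rw [Nat.even_iff]; omega
    rw [(this.mul_left (pr T / 2)).neg_one_pow, one_mul]
  · have hodd : Odd (pr U / 2) := by
      rw [Nat.odd_iff]; omega
    rw [show -((pr U : ℕ) : ℤ) = -1 * ((pr U : ℕ) : ℤ) by ring, jacobiSym.mul_left,
      jacobiSym.at_neg_one (Nat.odd_iff.mpr hTo)]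
    congr 1
    rw [ZMod.χ₄_eq_neg_one_pow hTo, mul_comm, pow_mul, hodd.neg_one_pow]

end Pool.Agent.GTLM
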