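import Mathlib
import Pool.Agent.GTL.M7
import Pool.Agent.GTL.Defs
import Pool.Agent.C1M.FM8
set_option autoImplicit false

/-!
# Estimate of the double sum: pieces
-/

namespace Pool.Agent.GTLM

open Pool.Agent.C1M Pool.Agent.HyperWeil

open Pool.Agent.GTL (Dat)

open Finset Pool.Agent.HyperWeil

variable [Dat]

/-- The block sums are small. -/
lemma block_bound {z : ℕ} {G F : Finset (Finset ℕ)} (hG : ∀ T ∈ G, T ⊆ P8 z)
    (hF : ∀ U ∈ F, U ⊆ P8 z) (w i j : ℕ) (hi : w ≤ i) (hj : w ≤ j) :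
    |∑ T ∈ blk G i, ∑ U ∈ blk F j, cw T * cw U * (psi (pr T : ℤ) (pr U) : ℝ)| ^ 6 * 2 ^ w
      ≤ 1280 * (ZZ z) ^ 4 := by
  have hP : ∀ p ∈ P8 z, p.Prime := fun p hp => (mem_P8.mp hp).2.1
  have hGp : ∀ T ∈ G, ∀ p ∈ T, p.Prime := fun T hT p hp => hP p (hG T hT hp)
  have hFp : ∀ T ∈ F, ∀ p ∈ T, p.Prime := fun T hT p hp => hP p (hF T hT hp)
  have hGb := mem_blk_bounds (i := i) hGp
  have hFb := mem_blk_bounds (i := j) hFp
  have hGs : ∀ T ∈ blk G i, T ⊆ P8 z := fun T hT => hG T (Finset.mem_filter.mp hT).1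
  have hFs : ∀ T ∈ blk F j, T ⊆ P8 z := fun T hT => hF T (Finset.mem_filter.mp hT).1
  rw [ZZ_eq_prod]
  set X := ∑ T ∈ blk G i, ∑ U ∈ blk F j, cw T * cw U * (psi (pr T : ℤ) (pr U) : ℝ) with hX
  have key : ∀ k : ℕ, w ≤ k → |X| ^ 6 * ((2 ^ k : ℕ) : ℝ)
      ≤ 1280 * (∏ p ∈ P8 z, (1 + 1 / (p : ℝ))) ^ 4 →
      |X| ^ 6 * 2 ^ w ≤ 1280 * (∏ p ∈ P8 z, (1 + 1 / (p : ℝ))) ^ 4 := by
    intro k hk h
    refine le_trans ?_ h
    push_cast
    gcongr
    norm_num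
  rcases le_total i j with hij | hij
  · refine key i hi ?_
    have h1 := bil2 hP hGs hFs (fun T => (pr T : ℤ)) (fun T => Int.natAbs_natCast _)
      (D := 2 ^ i) (A := 2 ^ j) Nat.one_le_two_pow (Nat.pow_le_pow_right (by norm_num) hij) hGb hFb
    have h2 : X = ∑ T ∈ blk G i, cw T * BB (blk F j) ((pr T : ℕ) : ℤ) := by
      rw [hX]
      refine Finset.sum_congr rfl fun T _ => ?_
      unfold BB
      rw [Finset.mul_sum]
      exact Finset.sum_congr rfl fun U _ => by ring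
    rw [h2]
    exact h1
  · refine key j hj ?_
    have h1 := bil2 hP hFs hGs fs fs_natAbs
      (D := 2 ^ j) (A := 2 ^ i) Nat.one_le_two_pow (Nat.pow_le_pow_right (by norm_num) hij) hFb hGb
    have h2 : X = ∑ U ∈ blk F j, cw U * BB (blk G i) (fs U) := by
      rw [hX, Finset.sum_comm]
      refine Finset.sum_congr rfl fun U hU => ?_
      unfold BB
      rw [Finset.mul_sum]
      refine Finset.sum_congr rfl fun T hT => ?_
      rw [reciprocity (hGs T hT) (hFs U hU)]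
      ring
    rw [h2]
    exact h1

lemma prod_cc_le {z : ℕ} {P : Finset ℕ} (hP : P ⊆ P8 z) : ∏ p ∈ P, (1 + cc p) ≤ QQ z := by
  unfold QQ
  rw [Finset.prod_one_add, Finset.prod_one_add]
  exact Finset.sum_le_sum_of_subset_of_nonneg (Finset.powerset_mono.mpr hP)
    fun U _ _ => Finset.prod_nonneg fun p _ => cc_nonneg p

/-- Tail of the weights. -/
lemma tail_cw {z : ℕ} (hz : 3 ≤ z) {P : Finset ℕ} (hP : P ⊆ P8 z) {Y : ℝ} (hY : 0 < Y) :
    ∑ S ∈ P.powerset.filter (fun S => Y < ((pr S : ℕ) : ℝ)), cw S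
      ≤ Y ^ (-(1 / Real.log z)) * (Real.exp (5 / 2) * QQ z) := by
  have hlz := one_le_log hz
  have h1 := rankin (P := P) (b := cc) (fun p _ => cc_nonneg p) (σ := 1 / Real.log z)
    (by positivity) hY
  have h2 := prod_rpow_le hz (b := cc) (β := 1 / 2) (by norm_num) (hP.trans (P8_subset_PR z))
    (fun p _ => cc_nonneg p) (fun p hp => cc_le_half (mem_P8.mp (hP hp)).2.1.pos)
  have h3 : ∏ p ∈ P, (1 + cc p) ≤ QQ z := prod_cc_le hP
  have hYp : 0 ≤ Y ^ (-(1 / Real.log z)) := Real.rpow_nonneg hY.le _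
  calc _ ≤ Y ^ (-(1 / Real.log z)) * ∏ p ∈ P, (1 + cc p * (p : ℝ) ^ (1 / Real.log z)) := h1
    _ ≤ Y ^ (-(1 / Real.log z)) * (Real.exp (5 * (1 / 2)) * ∏ p ∈ P, (1 + cc p)) :=
        mul_le_mul_of_nonneg_left h2 hYp
    _ ≤ Y ^ (-(1 / Real.log z)) * (Real.exp (5 / 2) * QQ z) := by
        rw [show (5 : ℝ) * (1 / 2) = 5 / 2 by norm_num]
        gcongr

end Pool.Agent.GTLM
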