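import Pool.Agent.GTL.PrdA
import Pool.Agent.PNTAP.Main
import Pool.Agent.GTL.Defs
import Pool.Agent.TLW.RegA
set_option autoImplicit false

/-! counting primes of `P8` -/

namespace Pool.Agent.GTL

open Pool.Agent.TLW

open Finset Filter Topology

variable [Dat]

instance : NeZero (Dat.Q) := ⟨(Dat.Q_pos).ne'⟩

open Classical in
/-- the residues of the class that are `r` modulo `8` -/
noncomputable def cls (r : ℕ) : Finset (ZMod Dat.Q) :=
  univ.filter fun b => IsUnit b ∧ Dat.C b.val ∧ b.val % 8 = r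

/-- the density of the primes of the class that are `r` modulo `8` -/
noncomputable def dns (r : ℕ) : ℝ := ((cls r).card : ℝ) * ((Dat.Q).totient : ℝ)⁻¹

/-- the density of the primes of the class -/
noncomputable def dn : ℝ := dns 1 + dns 7

lemma mod_Q_mod (n : ℕ) : n % Dat.Q % 8 = n % 8 := Nat.mod_mod_of_dvd _ Dat.eight

lemma pr_class_card (r : ℕ) (x : ℕ) :
    (((pr 0 x).filter (fun q => q % 8 = r)).card : ℝ) = ∑ b ∈ cls r, PNTAP.piC b (x : ℝ) := by
  have h1 : (pr 0 x).filter (fun q => q % 8 = r) =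
      (cls r).biUnion fun b => PNTAP.primesC (q := Dat.Q) b (x : ℝ) := by
    ext p
    rw [mem_filter, mem_pr, mem_biUnion]
    constructor
    · rintro ⟨⟨h0, hp, hC⟩, hr⟩
      refine ⟨((p : ℕ) : ZMod Dat.Q), ?_, ?_⟩
      · rw [cls, mem_filter]
        refine ⟨mem_univ _, (ZMod.isUnit_iff_coprime p Dat.Q).mpr (Dat.C_cop p hC), ?_, ?_⟩
        · rw [ZMod.val_natCast]; exact (Dat.C_mod p).2 hC
        · rw [ZMod.val_natCast, mod_Q_mod]; exact hr
      · rw [PNTAP.primesC, mem_filter, Nat.floor_natCast, mem_Ioc]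
        exact ⟨h0, hp, rfl⟩
    · rintro ⟨b, hb, hp⟩
      rw [cls, mem_filter] at hb
      rw [PNTAP.primesC, mem_filter, Nat.floor_natCast, mem_Ioc] at hp
      obtain ⟨h0, hp1, hp2⟩ := hp
      obtain ⟨_, _, hC, hr⟩ := hb
      rw [← hp2, ZMod.val_natCast] at hC hr
      rw [mod_Q_mod] at hr
      exact ⟨⟨h0, hp1, (Dat.C_mod p).1 hC⟩, hr⟩
  rw [h1, card_biUnion]
  · push_cast
    rfl
  · intro b _ c _ hbc
    show Disjoint (PNTAP.primesC (q := Dat.Q) b (x : ℝ)) (PNTAP.primesC (q := Dat.Q) c (x : ℝ))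
    rw [Finset.disjoint_left]
    intro p hp hp'
    rw [PNTAP.primesC, mem_filter] at hp hp'
    exact hbc (hp.2.2.symm.trans hp'.2.2)

/-- primes in a fixed class -/
theorem pr_class (r : ℕ) :
    Tendsto (fun x : ℕ => (((pr 0 x).filter (fun q => q % 8 = r)).card : ℝ) / (x / Real.log x))
      atTop (𝓝 (dns r)) := by
  have h1 : ∀ b ∈ cls r, Tendsto (fun x : ℕ => PNTAP.piC b (x : ℝ) * Real.log x / x) atTop
      (𝓝 (((Dat.Q).totient : ℝ)⁻¹)) := by
    intro b hb
    rw [cls, mem_filter] at hb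
    exact (PNTAP.tendsto_primeCounting_class (q := Dat.Q) hb.2.1).comp
      tendsto_natCast_atTop_atTop
  have h2 := tendsto_finsetSum (cls r) h1
  rw [Finset.sum_const, nsmul_eq_mul] at h2
  refine h2.congr fun x => ?_
  rw [pr_class_card, Finset.sum_div]
  refine Finset.sum_congr rfl fun b _ => ?_
  rw [div_div_eq_mul_div]

theorem pr_count : Tendsto (fun x : ℕ => ((pr 0 x).card : ℝ) / (x / Real.log x)) atTop
    (𝓝 dn) := by
  have h := (pr_class 1).add (pr_class 7)
  refine h.congr fun x => ?_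
  rw [← add_div]
  congr 1
  have hd : Disjoint ((pr 0 x).filter (fun q => q % 8 = 1))
      ((pr 0 x).filter (fun q => q % 8 = 7)) := by
    rw [Finset.disjoint_filter]
    intro q _ h1 h7
    omega
  have hU : pr 0 x = (pr 0 x).filter (fun q => q % 8 = 1) ∪
      (pr 0 x).filter (fun q => q % 8 = 7) := by
    ext q
    simp only [Finset.mem_union, Finset.mem_filter]
    constructor
    · intro h
      rcases Dat.C_eight q (mem_pr.1 h).2.2 with h3 | h3
      · exact Or.inl ⟨h, h3⟩
      · exact Or.inr ⟨h, h3⟩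
    · rintro (h | h) <;> exact h.1
  have hc := Finset.card_union_of_disjoint hd
  rw [← hU] at hc
  rw [hc]
  push_cast
  rfl

lemma dns_pos (r : ℕ) (hr : r = 1 ∨ r = 7) : 0 < dns r := by
  have hne : (cls r).Nonempty := by
    obtain ⟨n, hC, h1, _⟩ := Dat.surj (if r = 7 then 1 else 0) 0
    have h8 : n % 8 = r := by
      have h10 : (1 : ZMod 2) ≠ 0 := by decide
      rcases hr with rfl | rfl
      · rw [if_neg (by norm_num : ¬ (1 : ℕ) = 7)] at h1
        have : ¬ n % 8 = 7 := by
          intro h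
          rw [if_pos h] at h1
          exact h10 h1
        rcases Dat.C_eight n hC with h | h
        · exact h
        · exact absurd h this
      · rw [if_pos rfl] at h1
        by_contra h
        rw [if_neg h] at h1
        exact h10 h1.symm
    refine ⟨((n : ℕ) : ZMod Dat.Q), ?_⟩
    rw [cls, mem_filter]
    refine ⟨mem_univ _, (ZMod.isUnit_iff_coprime n Dat.Q).mpr (Dat.C_cop n hC), ?_, ?_⟩
    · rw [ZMod.val_natCast]; exact (Dat.C_mod n).2 hC
    · rw [ZMod.val_natCast, mod_Q_mod]; exact h8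
  have h2 : (0 : ℝ) < ((cls r).card : ℝ) := by exact_mod_cast hne.card_pos
  have h3 : (0 : ℝ) < ((Dat.Q).totient : ℝ) := by exact_mod_cast Nat.totient_pos.2 Dat.Q_pos
  unfold dns
  positivity

lemma dn_pos : 0 < dn := add_pos (dns_pos 1 (Or.inl rfl)) (dns_pos 7 (Or.inr rfl))

lemma dn_le : dn ≤ 1 / 2 := by
  refine le_of_tendsto_of_tendsto pr_count Pool.Agent.TLW.pr_count ?_
  filter_upwards with x
  refine div_le_div_of_nonneg_right ?_ (div_nonneg (Nat.cast_nonneg _) (Real.log_natCast_nonneg _))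
  refine Nat.cast_le.2 (Finset.card_le_card ?_)
  intro q hq
  rw [mem_pr] at hq
  rw [Pool.Agent.TLW.mem_pr]
  exact ⟨hq.1, hq.2.1, Dat.C_eight q hq.2.2⟩

/-- short intervals -/
theorem pr_short (κ : ℝ) (h0 : 0 < κ) (h1 : κ ≤ 1) : ∃ V0 : ℕ, ∀ V y : ℕ, V0 ≤ V → V ≤ y →
    (y : ℝ) ≤ (1 + κ) * V → ((pr V y).card : ℝ) ≤ κ * (V / Real.log V) := by
  have hδ : (0:ℝ) < κ / 6 := by positivity
  have h := (Metric.tendsto_atTop.1 pr_count) (κ / 6) hδ
  obtain ⟨N, hN⟩ := h
  refine ⟨max N 3, ?_⟩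
  intro V y hV hVy hy
  have hNV : N ≤ V := le_trans (le_max_left _ _) hV
  have h3V : 3 ≤ V := le_trans (le_max_right _ _) hV
  have hV1 : (1:ℝ) < V := by exact_mod_cast (by omega : 1 < V)
  have hy1 : (1:ℝ) < y := by exact_mod_cast (by omega : 1 < y)
  have hlV : 0 < Real.log V := Real.log_pos hV1
  have hly : 0 < Real.log y := Real.log_pos hy1
  have hVy' : (V:ℝ) ≤ y := by exact_mod_cast hVy
  have hll : Real.log V ≤ Real.log y := Real.log_le_log (by linarith) hVy'
  have hA : ∀ z : ℕ, N ≤ z → (1:ℝ) < z →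
      (dn - κ / 6) * (z / Real.log z) ≤ ((pr 0 z).card : ℝ) ∧
      ((pr 0 z).card : ℝ) ≤ (dn + κ / 6) * (z / Real.log z) := by
    intro z hz hz1
    have hlz : 0 < Real.log z := Real.log_pos hz1
    have hq : 0 < (z : ℝ) / Real.log z := div_pos (by linarith) hlz
    have h2 := hN z hz
    rw [Real.dist_eq, abs_lt] at h2
    constructor
    · have h3 : dn - κ / 6 ≤ ((pr 0 z).card : ℝ) / (z / Real.log z) := by linarith [h2.1]
      exact (le_div_iff₀ hq).1 h3
    · have h3 : ((pr 0 z).card : ℝ) / (z / Real.log z) ≤ dn + κ / 6 := by linarith [h2.2]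
      exact (div_le_iff₀ hq).1 h3
  have hcard : ((pr V y).card : ℝ) = ((pr 0 y).card : ℝ) - ((pr 0 V).card : ℝ) := by
    have hd : Disjoint (pr 0 V) (pr V y) := by
      unfold pr
      refine Finset.disjoint_filter_filter ?_
      rw [Finset.disjoint_left]
      intro a ha hb
      rw [Finset.mem_Ioc] at ha hb
      omega
    have hU : pr 0 y = pr 0 V ∪ pr V y := by
      unfold pr
      rw [← Finset.filter_union, Finset.Ioc_union_Ioc_eq_Ioc (Nat.zero_le _) hVy]
    have hc := Finset.card_union_of_disjoint hd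
    rw [← hU] at hc
    rw [hc]
    push_cast
    ring
  have hup := (hA y (le_trans hNV hVy) hy1).2
  have hlo := (hA V hNV hV1).1
  have hyq : (y : ℝ) / Real.log y ≤ (1 + κ) * (V / Real.log V) := by
    rw [mul_div_assoc']
    exact div_le_div₀ (by positivity) hy hlV hll
  have hq : 0 < (V : ℝ) / Real.log V := div_pos (by linarith) hlV
  rw [hcard]
  have h5 : (dn + κ / 6) * (y / Real.log y) ≤ (dn + κ / 6) * ((1 + κ) * (V / Real.log V)) :=
    mul_le_mul_of_nonneg_left hyq (by have := dn_pos; positivity)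
  have h6 : (dn + κ / 6) * ((1 + κ) * (V / Real.log V)) -
      (dn - κ / 6) * (V / Real.log V) ≤ κ * (V / Real.log V) := by
    have h7 : (dn + κ / 6) * (1 + κ) - (dn - κ / 6) ≤ κ := by
      have h8 := dn_le
      have h9 := mul_le_mul_of_nonneg_right h8 h0.le
      nlinarith
    calc (dn + κ / 6) * ((1 + κ) * (V / Real.log V)) - (dn - κ / 6) * (V / Real.log V)
        = ((dn + κ / 6) * (1 + κ) - (dn - κ / 6)) * (V / Real.log V) := by ring
      _ ≤ κ * (V / Real.log V) := mul_le_mul_of_nonneg_right h7 hq.le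
  linarith

end Pool.Agent.GTL
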