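import Mathlib
import Pool.Agent.PNTAP.Main
import Pool.Agent.GTL.RegA
import Pool.Agent.GTL.M10
import Pool.Agent.GTL.Defs
import Pool.Agent.C1M.FM11
set_option autoImplicit false

/-!
# Growth of the Euler products
-/

namespace Pool.Agent.GTLM

open Pool.Agent.C1M Pool.Agent.HyperWeil

open Pool.Agent.GTL (Dat)

open Finset Filter Topology

variable [Dat]

/-- Primes `≤ z` congruent to `7` modulo `8`. -/
def P7 (z : ℕ) : Finset ℕ := (P8 z).filter (fun p => ¬ p % 8 = 1)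

lemma mem_P7 {z p : ℕ} : p ∈ P7 z ↔ p ≤ z ∧ p.Prime ∧ Dat.C p ∧ p % 8 = 7 := by
  unfold P7
  rw [mem_filter, mem_P8]
  constructor
  · rintro ⟨⟨h1, h2, h3⟩, h4⟩
    exact ⟨h1, h2, h3, (Dat.C_eight p h3).resolve_left h4⟩
  · rintro ⟨h1, h2, h3, h4⟩; exact ⟨⟨h1, h2, h3⟩, by omega⟩

noncomputable def S7 (z : ℕ) : ℝ := ∑ p ∈ P7 z, 1 / (p : ℝ)

/-- half of the density of the primes `7` modulo `8` of the class -/
noncomputable def d7 : ℝ := Pool.Agent.GTL.dns 7 / 2

lemma d7_pos : 0 < d7 := by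
  have := Pool.Agent.GTL.dns_pos 7 (Or.inr rfl)
  unfold d7; linarith

lemma card_P7_lower : ∃ n0 : ℕ, 2 ≤ n0 ∧ ∀ n : ℕ, n0 ≤ n →
    d7 * (n : ℝ) / Real.log n ≤ ((P7 n).card : ℝ) := by
  have h := Pool.Agent.GTL.pr_class 7
  have hd : d7 < Pool.Agent.GTL.dns 7 := by
    have := Pool.Agent.GTL.dns_pos 7 (Or.inr rfl)
    unfold d7; linarith
  have h3 := h.eventually (lt_mem_nhds hd)
  obtain ⟨N, hN⟩ := eventually_atTop.mp h3
  refine ⟨max N 2, le_max_right _ _, fun n hn => ?_⟩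
  have hn2 : 2 ≤ n := (le_max_right _ _).trans hn
  have h5 := hN n ((le_max_left _ _).trans hn)
  have hset : (Pool.Agent.GTL.pr 0 n).filter (fun q => q % 8 = 7) = P7 n := by
    ext p
    rw [mem_filter, Pool.Agent.GTL.mem_pr, mem_P7]
    constructor
    · rintro ⟨⟨h1, h2, h3⟩, h4⟩; exact ⟨h1.2, h2, h3, h4⟩
    · rintro ⟨h1, h2, h3, h4⟩; exact ⟨⟨⟨h2.pos, h1⟩, h2, h3⟩, h4⟩
  rw [hset] at h5
  have hn0 : (0 : ℝ) < n := by exact_mod_cast (by omega : 0 < n)
  have hl : 0 < Real.log n := Real.log_pos (by exact_mod_cast (by omega : 1 < n))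
  rw [lt_div_iff₀ (by positivity)] at h5
  have e : d7 * (n : ℝ) / Real.log n = d7 * (n / Real.log n) := by ring
  rw [e]
  exact h5.le

lemma P7_succ (z : ℕ) : ∃ t : ℝ, 0 ≤ t ∧ S7 (z + 1) = S7 z + t / (z + 1) ∧
    ((P7 (z + 1)).card : ℝ) = ((P7 z).card : ℝ) + t := by
  by_cases h : (z + 1).Prime ∧ Dat.C (z + 1) ∧ (z + 1) % 8 = 7
  · have hset : P7 (z + 1) = insert (z + 1) (P7 z) := by
      ext p
      rw [mem_insert, mem_P7, mem_P7]
      constructor
      · rintro ⟨h1, h2, h3⟩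
        rcases Nat.lt_or_ge z p with h4 | h4
        · left; omega
        · right; exact ⟨h4, h2, h3⟩
      · rintro (h1 | ⟨h1, h2, h3⟩)
        · rw [h1]; exact ⟨le_rfl, h.1, h.2⟩
        · exact ⟨by omega, h2, h3⟩
    have hn : z + 1 ∉ P7 z := by
      rw [mem_P7]; rintro ⟨h1, _⟩; omega
    refine ⟨1, zero_le_one, ?_, ?_⟩
    · unfold S7
      rw [hset, Finset.sum_insert hn]
      push_cast; ring
    · rw [hset, Finset.card_insert_of_notMem hn]
      push_cast; ring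
  · have hset : P7 (z + 1) = P7 z := by
      ext p
      rw [mem_P7, mem_P7]
      constructor
      · rintro ⟨h1, h2, h3⟩
        refine ⟨?_, h2, h3⟩
        by_contra h4
        have : p = z + 1 := by omega
        subst this
        exact h ⟨h2, h3⟩
      · rintro ⟨h1, h2, h3⟩
        exact ⟨by omega, h2, h3⟩
    refine ⟨0, le_rfl, ?_, ?_⟩
    · unfold S7; rw [hset]; simp
    · rw [hset]; simp

lemma S7_lower : ∃ C : ℝ, 0 ≤ C ∧ ∀ z : ℕ, 3 ≤ z →
    d7 * Real.log (Real.log z) - C ≤ S7 z := by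
  obtain ⟨n0, hn0, hcard⟩ := card_P7_lower
  set Dd : ℕ → ℝ := fun z => S7 z - ((P7 z).card : ℝ) / (z + 1) with hDd
  have hstep : ∀ z : ℕ, Dd (z + 1) = Dd z + ((P7 (z + 1)).card : ℝ) / ((z + 1) * (z + 2)) := by
    intro z
    obtain ⟨t, _, h1, h2⟩ := P7_succ z
    simp only [hDd]
    rw [h1, h2]
    have hz1 : (z : ℝ) + 1 ≠ 0 := by positivity
    have hz2 : (z : ℝ) + 2 ≠ 0 := by positivity
    push_cast
    have hz3 : (z : ℝ) + 1 + 1 ≠ 0 := by positivity
    field_simp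
    ring
  have hnn : ∀ z : ℕ, 0 ≤ Dd z := by
    intro z
    induction z with
    | zero =>
      simp only [hDd]
      have : P7 0 = ∅ := by
        ext p; rw [mem_P7]
        constructor
        · rintro ⟨h1, h2, _⟩; exact absurd h2.pos (by omega)
        · intro h; exact absurd h (Finset.notMem_empty _)
      unfold S7
      rw [this]; simp
    | succ z ih =>
      rw [hstep]
      have : 0 ≤ ((P7 (z + 1)).card : ℝ) / ((z + 1) * (z + 2)) := by positivity
      linarith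
  set n1 := max n0 3 with hn1
  have hn13 : 3 ≤ n1 := le_max_right _ _
  have hn10 : n0 ≤ n1 := le_max_left _ _
  have hlow : ∀ z : ℕ, n1 ≤ z →
      d7 * (Real.log (Real.log (z + 2 : ℕ)) - Real.log (Real.log (n1 + 2 : ℕ))) ≤ Dd z := by
    intro z hz
    induction z, hz using Nat.le_induction with
    | base => rw [sub_self, mul_zero]; exact hnn _
    | succ z hz ih =>
      rw [hstep]
      have h1 := hcard (z + 1) (by omega)
      have hz1 : (0 : ℝ) < ((z + 1 : ℕ) : ℝ) := by exact_mod_cast (by omega : 0 < z + 1)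
      have hz2 : (0 : ℝ) < ((z + 2 : ℕ) : ℝ) := by exact_mod_cast (by omega : 0 < z + 2)
      have hl1 := one_le_log (z := z + 1) (by omega)
      have hl2 := one_le_log (z := z + 2) (by omega)
      have hl12 : Real.log (z + 1 : ℕ) ≤ Real.log (z + 2 : ℕ) :=
        Real.log_le_log hz1 (by exact_mod_cast (by omega : z + 1 ≤ z + 2))
      have h2 := loglog_succ (m := z + 2) (by omega)
      have hd7 := d7_pos
      have h3 : d7 * (1 / (((z + 2 : ℕ) : ℝ) * Real.log (z + 2 : ℕ)))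
          ≤ ((P7 (z + 1)).card : ℝ) / (((z : ℝ) + 1) * (z + 2)) := by
        calc d7 * (1 / (((z + 2 : ℕ) : ℝ) * Real.log (z + 2 : ℕ)))
            ≤ d7 * (1 / (((z + 2 : ℕ) : ℝ) * Real.log (z + 1 : ℕ))) := by gcongr
          _ = (d7 * ((z + 1 : ℕ) : ℝ) / (Real.log (z + 1 : ℕ))) /
              (((z + 1 : ℕ) : ℝ) * ((z + 2 : ℕ) : ℝ)) := by
              have : Real.log (z + 1 : ℕ) ≠ 0 := by linarith
              field_simp
          _ ≤ ((P7 (z + 1)).card : ℝ) / (((z + 1 : ℕ) : ℝ) * ((z + 2 : ℕ) : ℝ)) := by gcongr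
          _ = _ := by push_cast; ring
      have e : z + 1 + 2 = z + 2 + 1 := by ring
      rw [e]
      have h6 := mul_le_mul_of_nonneg_left h2 hd7.le
      linarith
  have hn12 := one_le_log (z := n1 + 2) (by omega)
  have hd7 := d7_pos
  refine ⟨d7 * Real.log (Real.log (n1 + 2 : ℕ)), by
    have := Real.log_nonneg hn12
    positivity, fun z hz => ?_⟩
  have hS : Dd z ≤ S7 z := by
    simp only [hDd]
    have : 0 ≤ ((P7 z).card : ℝ) / (z + 1) := by positivity
    linarith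
  have hlz := one_le_log hz
  have hz0 : (0 : ℝ) < z := by exact_mod_cast (by omega : 0 < z)
  rcases lt_or_ge z n1 with h | h
  · have h1 : Real.log (Real.log z) ≤ Real.log (Real.log (n1 + 2 : ℕ)) := by
      apply Real.log_le_log (by linarith)
      exact Real.log_le_log hz0 (by exact_mod_cast (by omega : z ≤ n1 + 2))
    have h2 := hnn z
    have h3 := mul_le_mul_of_nonneg_left h1 hd7.le
    linarith
  · have h1 := hlow z h
    have h2 : Real.log (Real.log z) ≤ Real.log (Real.log (z + 2 : ℕ)) := by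
      apply Real.log_le_log (by linarith)
      exact Real.log_le_log hz0 (by exact_mod_cast (by omega : z ≤ z + 2))
    have h3 := mul_le_mul_of_nonneg_left h2 hd7.le
    linarith

noncomputable def Q7 (z : ℕ) : ℝ := ∏ p ∈ P7 z, (1 + cc p)

noncomputable def Q1 (z : ℕ) : ℝ := ∏ p ∈ (P8 z).filter (fun p => p % 8 = 1), (1 + cc p)

lemma Q1_mul_Q7 (z : ℕ) : Q1 z * Q7 z = QQ z := by
  unfold Q1 Q7 QQ P7
  rw [Finset.prod_filter_mul_prod_filter_not]

lemma Q7_lower : ∃ C : ℝ, ∀ z : ℕ, 3 ≤ z →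
    Real.exp ((d7 / 2) * Real.log (Real.log z) - C) ≤ Q7 z := by
  obtain ⟨C, _, hC⟩ := S7_lower
  refine ⟨C / 2 + 1, fun z hz => ?_⟩
  have h1 : ∀ p ∈ P7 z, Real.exp ((1 / 2) * (1 / (p : ℝ)) - (1 / 2) * (1 / (p : ℝ) ^ 2)) ≤ 1 + cc p := by
    intro p hp
    have hp0 : (0 : ℝ) < p := by exact_mod_cast (mem_P7.mp hp).2.1.pos
    have hc := cc_nonneg p
    have h2 := Real.one_sub_inv_le_log_of_pos (show (0 : ℝ) < 1 + cc p by linarith)
    rw [← Real.le_log_iff_exp_le (by linarith)]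
    refine le_trans ?_ h2
    have e : 1 - (1 + cc p)⁻¹ = 1 / (2 * p + 2) := by
      unfold cc; field_simp; ring
    rw [e]
    have e2 : (1 / 2) * (1 / (p : ℝ)) - (1 / 2) * (1 / (p : ℝ) ^ 2) = (p - 1) / (2 * (p : ℝ) ^ 2) := by
      field_simp
    rw [e2, div_le_div_iff₀ (by positivity) (by positivity)]
    nlinarith
  have h2 : Real.exp (∑ p ∈ P7 z, ((1 / 2) * (1 / (p : ℝ)) - (1 / 2) * (1 / (p : ℝ) ^ 2))) ≤ Q7 z := by
    rw [Real.exp_sum]
    exact Finset.prod_le_prod (fun p _ => (Real.exp_pos _).le) h1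
  refine le_trans ?_ h2
  rw [Real.exp_le_exp, Finset.sum_sub_distrib, ← Finset.mul_sum, ← Finset.mul_sum]
  have hsub : P7 z ⊆ PR z := (Finset.filter_subset _ _).trans (P8_subset_PR z)
  have h3 : ∑ p ∈ P7 z, 1 / (p : ℝ) ^ 2 ≤ 2 :=
    (Finset.sum_le_sum_of_subset_of_nonneg hsub fun p _ _ => by positivity).trans
      (sum_PR_inv_sq_le z)
  have h4 := hC z hz
  unfold S7 at h4
  linarith

lemma one_le_Q1 (z : ℕ) : 1 ≤ Q1 z := by
  unfold Q1
  rw [Finset.prod_one_add]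
  have : ∏ p ∈ (∅ : Finset ℕ), cc p ≤ ∑ t ∈ ((P8 z).filter (fun p => p % 8 = 1)).powerset, ∏ i ∈ t, cc i :=
    Finset.single_le_sum (f := fun t => ∏ i ∈ t, cc i)
      (fun t _ => Finset.prod_nonneg fun p _ => cc_nonneg p) (Finset.empty_mem_powerset _)
  simpa using this

/-- Growth: the double sum is negligible. -/
lemma growth (C : ℝ) (hC : 0 ≤ C) (ε : ℝ) (hε : 0 < ε) : ∃ z0 : ℕ, 3 ≤ z0 ∧ ∀ z : ℕ, z0 ≤ z →
    Q1 z + C * (1 + Real.log (Real.log z)) ^ 2 ≤ ε * QQ z := by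
  obtain ⟨C7, h7⟩ := Q7_lower
  have hd7 := d7_pos
  -- a function of `L = log log z`
  have hlim : Tendsto (fun L : ℝ => Real.exp ((d7 / 2) * L - C7)) atTop atTop := by
    apply Real.tendsto_exp_atTop.comp
    have := (tendsto_id (α := ℝ) (x := atTop)).const_mul_atTop (show (0 : ℝ) < d7 / 2 by positivity)
    exact tendsto_atTop_add_const_right _ _ this
  have h1 : ∀ᶠ L : ℝ in atTop, 2 / ε ≤ Real.exp ((d7 / 2) * L - C7) :=
    hlim.eventually_ge_atTop _
  have h2 : ∀ᶠ L : ℝ in atTop, (2 * C / ε) * (1 + L) ^ 2 ≤ Real.exp ((d7 / 2) * L - C7) := by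
    have ho := isLittleO_pow_exp_pos_mul_atTop 2 (show (0 : ℝ) < d7 / 2 by positivity)
    have hpos : 0 < Real.exp (-(d7 / 2) - C7) / (2 * C / ε + 1) := by positivity
    have h3 := ho.bound hpos
    have h4 : Tendsto (fun L : ℝ => 1 + L) atTop atTop := tendsto_atTop_add_const_left _ _ tendsto_id
    filter_upwards [h4.eventually h3] with L hL
    rw [Real.norm_eq_abs, Real.norm_eq_abs, abs_of_nonneg (sq_nonneg _),
      abs_of_pos (Real.exp_pos _)] at hL
    have hk : 0 ≤ 2 * C / ε := by positivity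
    calc (2 * C / ε) * (1 + L) ^ 2 ≤ (2 * C / ε + 1) * (1 + L) ^ 2 := by
          have := sq_nonneg (1 + L); nlinarith
      _ ≤ (2 * C / ε + 1) * (Real.exp (-(d7 / 2) - C7) / (2 * C / ε + 1) *
          Real.exp (d7 / 2 * (1 + L))) := by gcongr
      _ = Real.exp (-(d7 / 2) - C7) * Real.exp (d7 / 2 * (1 + L)) := by field_simp
      _ = Real.exp ((d7 / 2) * L - C7) := by rw [← Real.exp_add]; congr 1; ring
  have hLL : Tendsto (fun z : ℕ => Real.log (Real.log (z : ℝ))) atTop atTop :=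
    Real.tendsto_log_atTop.comp (Real.tendsto_log_atTop.comp tendsto_natCast_atTop_atTop)
  obtain ⟨N, hN⟩ := eventually_atTop.mp (hLL.eventually (h1.and h2))
  refine ⟨max N 3, le_max_right _ _, fun z hz => ?_⟩
  obtain ⟨g1, g2⟩ := hN z ((le_max_left _ _).trans hz)
  have hz3 : 3 ≤ z := (le_max_right _ _).trans hz
  have g3 := h7 z hz3
  have hQ1 := one_le_Q1 z
  have g4 : 2 / ε ≤ Q7 z := g1.trans g3
  have g5 : (2 * C / ε) * (1 + Real.log (Real.log z)) ^ 2 ≤ Q7 z := g2.trans g3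
  rw [← Q1_mul_Q7]
  have g6 : Q1 z ≤ (ε / 2) * (Q1 z * Q7 z) := by
    have : 1 ≤ (ε / 2) * Q7 z := by
      have h := mul_le_mul_of_nonneg_left g4 (show 0 ≤ ε / 2 by positivity)
      have e : ε / 2 * (2 / ε) = 1 := by field_simp
      linarith
    nlinarith
  have g7 : C * (1 + Real.log (Real.log z)) ^ 2 ≤ (ε / 2) * (Q1 z * Q7 z) := by
    have h := mul_le_mul_of_nonneg_left g5 (show 0 ≤ ε / 2 by positivity)
    have e : ε / 2 * ((2 * C / ε) * (1 + Real.log (Real.log z)) ^ 2)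
        = C * (1 + Real.log (Real.log z)) ^ 2 := by field_simp
    rw [e] at h
    have h8 : 0 ≤ ε / 2 * Q7 z := by
      have : 0 ≤ Q7 z := le_trans (by positivity) g4
      positivity
    nlinarith
  linarith

end Pool.Agent.GTLM
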