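import Pool.Agent.GTL.RegA
import Pool.Agent.GTL.RegC
import Pool.Agent.GTL.Ifc
import Pool.Agent.PnMn.SumInv
import Pool.Agent.GTL.Defs
import Pool.Agent.TLW.Low
set_option autoImplicit false

/-! lower bound for the family -/

namespace Pool.Agent.GTL

open Pool.Agent.TLW

open Finset

variable [Dat]

private lemma low_mem_pr {x y p : ℕ} : p ∈ pr x y ↔ x < p ∧ p ≤ y ∧ P8 p := by
  unfold pr; rw [mem_filter, mem_Ioc]; tauto

private lemma low_mem_FF {x n : ℕ} : n ∈ FF x ↔ 1 ≤ n ∧ n ≤ x ∧ F1 n := by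
  unfold FF; rw [mem_filter, mem_Icc]; tauto

private lemma low_primeFactors_PP (Y : ℕ) : (PP Y).primeFactors = pr 0 Y := by
  unfold PP
  exact Nat.primeFactors_prod fun p hp => (low_mem_pr.mp hp).2.2.1

private lemma low_squarefree_PP (Y : ℕ) : Squarefree (PP Y) := by
  unfold PP
  refine Finset.squarefree_prod_of_pairwise_isCoprime ?_ fun p hp =>
    (low_mem_pr.mp (mem_coe.mp hp)).2.2.1.squarefree
  intro p hp q hq hpq
  have h1 := (low_mem_pr.mp (mem_coe.mp hp)).2.2.1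
  have h2 := (low_mem_pr.mp (mem_coe.mp hq)).2.2.1
  exact Nat.coprime_iff_isRelPrime.mp ((Nat.coprime_primes h1 h2).mpr hpq)

/-- sums of powers over the divisors of `PP Y` -/
private lemma low_sum_rpow (Y : ℕ) (t : ℝ) :
    ∑ a ∈ (PP Y).divisors, (a : ℝ) ^ t = ∏ p ∈ pr 0 Y, (1 + (p : ℝ) ^ t) := by
  set f : ArithmeticFunction ℝ := ⟨fun n => if n = 0 then 0 else (n : ℝ) ^ t, by simp⟩ with hf
  have hmul : f.IsMultiplicative := by
    refine ⟨by simp [hf], fun {m n} hmn => ?_⟩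
    simp only [hf, ArithmeticFunction.coe_mk]
    by_cases hm : m = 0
    · simp [hm]
    by_cases hn : n = 0
    · simp [hn]
    rw [if_neg (mul_ne_zero hm hn), if_neg hm, if_neg hn, Nat.cast_mul,
      Real.mul_rpow (by positivity) (by positivity)]
  have h := hmul.prodPrimeFactors_one_add_of_squarefree (low_squarefree_PP Y)
  rw [low_primeFactors_PP] at h
  have e1 : ∏ p ∈ pr 0 Y, (1 + (p : ℝ) ^ t) = ∏ p ∈ pr 0 Y, (1 + f p) := by
    refine prod_congr rfl fun p hp => ?_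
    have := (low_mem_pr.mp hp).2.2.1.ne_zero
    simp [hf, this]
  have e2 : ∑ a ∈ (PP Y).divisors, (a : ℝ) ^ t = ∑ a ∈ (PP Y).divisors, f a := by
    refine sum_congr rfl fun a ha => ?_
    have := (Nat.pos_of_mem_divisors ha).ne'
    simp [hf, this]
  rw [e1, e2, h]

private lemma low_rankin : ∃ C : ℝ, 0 < C ∧ ∀ Y : ℕ, 3 ≤ Y →
    ∑ a ∈ (PP Y).divisors, (a : ℝ) ^ (1 / Real.log Y - 1) ≤ C * DD Y := by
  refine ⟨Real.exp (2 * (1 + Real.log 4)), Real.exp_pos _, fun Y hY => ?_⟩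
  have hYR : (3 : ℝ) ≤ Y := by exact_mod_cast hY
  have hL : 1 ≤ Real.log Y := by
    have h3 : Real.exp 1 ≤ Y := (Real.exp_one_lt_d9.le.trans (by norm_num)).trans hYR
    rw [Real.le_log_iff_exp_le (by linarith)]
    exact h3
  rw [low_sum_rpow]
  have hterm : ∀ p ∈ pr 0 Y, 1 + (p : ℝ) ^ (1 / Real.log Y - 1) ≤
      (1 + 1 / (p : ℝ)) * Real.exp (2 / Real.log Y * (Real.log p / p)) := by
    intro p hp
    obtain ⟨-, hpY, hp8⟩ := low_mem_pr.mp hp
    have hp1 : (1 : ℝ) < p := by exact_mod_cast hp8.1.one_lt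
    have hp0 : (0 : ℝ) < p := by linarith
    have hlp : 0 < Real.log p := Real.log_pos hp1
    have hlpY : Real.log p ≤ Real.log Y := Real.log_le_log hp0 (by exact_mod_cast hpY)
    set t : ℝ := Real.log p / Real.log Y with ht
    have ht0 : 0 ≤ t := by positivity
    have ht1 : t ≤ 1 := by rw [ht, div_le_one (by linarith)]; exact hlpY
    have e1 : (p : ℝ) ^ (1 / Real.log Y - 1) = Real.exp t / p := by
      rw [Real.rpow_sub hp0, Real.rpow_one, Real.rpow_def_of_pos hp0]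
      congr 2
      rw [ht]; ring
    rw [e1]
    -- exp t ≤ 1 + 2 t
    have h2 : Real.exp t ≤ 1 + 2 * t := by
      have := Real.abs_exp_sub_one_sub_id_le (x := t) (by rw [abs_of_nonneg ht0]; exact ht1)
      have h := (abs_le.mp this).2
      nlinarith
    have h3 : 1 + Real.exp t / p ≤ (1 + 1 / (p : ℝ)) + 2 * t / p := by
      have : Real.exp t / p ≤ (1 + 2 * t) / p := div_le_div_of_nonneg_right h2 hp0.le
      calc 1 + Real.exp t / p ≤ 1 + (1 + 2 * t) / p := by linarith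
        _ = _ := by ring
    have h4 : (1 + 1 / (p : ℝ)) + 2 * t / p ≤ (1 + 1 / (p : ℝ)) * (1 + 2 * t / p) := by
      have : 0 ≤ 1 / (p : ℝ) * (2 * t / p) := by positivity
      nlinarith
    have h5 : 1 + 2 * t / p ≤ Real.exp (2 / Real.log Y * (Real.log p / p)) := by
      have := Real.add_one_le_exp (2 / Real.log Y * (Real.log p / p))
      have e : 2 / Real.log Y * (Real.log p / p) = 2 * t / p := by rw [ht]; ring
      rw [e] at this ⊢
      linarith
    exact h3.trans (h4.trans (mul_le_mul_of_nonneg_left h5 (by positivity)))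
  have hprod : ∏ p ∈ pr 0 Y, (1 + (p : ℝ) ^ (1 / Real.log Y - 1)) ≤
      ∏ p ∈ pr 0 Y, ((1 + 1 / (p : ℝ)) * Real.exp (2 / Real.log Y * (Real.log p / p))) :=
    prod_le_prod (fun p _ => by positivity) hterm
  refine hprod.trans ?_
  rw [prod_mul_distrib, ← Real.exp_sum, ← mul_sum]
  have hs : ∑ p ∈ pr 0 Y, Real.log p / p ≤ Real.log Y + Real.log 4 := by
    refine le_trans ?_ (Pool.Agent.PnMn.sum_log_div_le Y (by omega))
    refine sum_le_sum_of_subset_of_nonneg ?_ fun p _ _ => ?_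
    · intro p hp
      obtain ⟨h1, h2, h3⟩ := low_mem_pr.mp hp
      rw [mem_filter, mem_Icc]
      exact ⟨⟨h1, h2⟩, h3.1⟩
    · exact div_nonneg (Real.log_natCast_nonneg _) (Nat.cast_nonneg _)
  have hl4 : 0 < Real.log 4 := Real.log_pos (by norm_num)
  have hexp : 2 / Real.log Y * ∑ p ∈ pr 0 Y, Real.log p / p ≤ 2 * (1 + Real.log 4) := by
    have h1 : 2 / Real.log Y * ∑ p ∈ pr 0 Y, Real.log p / p ≤
        2 / Real.log Y * (Real.log Y + Real.log 4) := mul_le_mul_of_nonneg_left hs (by positivity)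
    refine h1.trans ?_
    rw [div_mul_eq_mul_div, div_le_iff₀ (by linarith)]
    nlinarith
  have hDD : 0 ≤ ∏ p ∈ pr 0 Y, (1 + 1 / (p : ℝ)) := prod_nonneg fun p _ => by positivity
  calc (∏ p ∈ pr 0 Y, (1 + 1 / (p : ℝ))) * Real.exp (2 / Real.log Y * ∑ p ∈ pr 0 Y, Real.log p / p)
      ≤ (∏ p ∈ pr 0 Y, (1 + 1 / (p : ℝ))) * Real.exp (2 * (1 + Real.log 4)) :=
        mul_le_mul_of_nonneg_left (Real.exp_le_exp.mpr hexp) hDD
    _ = _ := by unfold DD; ring

theorem sum_FF_lower : ∃ c : ℝ, 0 < c ∧ ∃ B : ℕ, 1 ≤ B ∧ ∃ Y0 : ℕ, ∀ Y : ℕ, Y0 ≤ Y →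
    c * DD Y ≤ ∑ a ∈ FF (Y ^ B), 1 / (a : ℝ) := by
  obtain ⟨C, hC, hR⟩ := low_rankin
  obtain ⟨B, hB⟩ : ∃ B : ℕ, 2 * C ≤ Real.exp 1 ^ B := by
    obtain ⟨B, hB⟩ := pow_unbounded_of_one_lt (2 * C) (Real.one_lt_exp_iff.mpr one_pos)
    exact ⟨B, hB.le⟩
  refine ⟨1 / 2, by norm_num, B + 1, by omega, 3, fun Y hY => ?_⟩
  have hYR : (3 : ℝ) ≤ Y := by exact_mod_cast hY
  have hL : 0 < Real.log Y := Real.log_pos (by linarith)
  have hDD := DD_eq Y
  -- split the divisors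
  have hsplit := sum_filter_add_sum_filter_not (PP Y).divisors (fun a => a ≤ Y ^ (B + 1))
    (fun a => 1 / (a : ℝ))
  have h1 : ∑ a ∈ (PP Y).divisors.filter (fun a => a ≤ Y ^ (B + 1)), 1 / (a : ℝ) ≤
      ∑ a ∈ FF (Y ^ (B + 1)), 1 / (a : ℝ) := by
    refine sum_le_sum_of_subset_of_nonneg ?_ fun _ _ _ => by positivity
    intro a ha
    rw [mem_filter] at ha
    exact low_mem_FF.mpr ⟨Nat.pos_of_mem_divisors ha.1, ha.2, ((mem_PP_divisors Y a).mp ha.1).1⟩
  have h2 : ∑ a ∈ (PP Y).divisors.filter (fun a => ¬ a ≤ Y ^ (B + 1)), 1 / (a : ℝ) ≤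
      1 / 2 * DD Y := by
    have hE : (0 : ℝ) < Real.exp 1 ^ (B + 1) := by positivity
    have hstep : ∑ a ∈ (PP Y).divisors.filter (fun a => ¬ a ≤ Y ^ (B + 1)), 1 / (a : ℝ) ≤
        ∑ a ∈ (PP Y).divisors, (a : ℝ) ^ (1 / Real.log Y - 1) / Real.exp 1 ^ (B + 1) := by
      refine (sum_le_sum fun a ha => ?_).trans
        (sum_le_sum_of_subset_of_nonneg (filter_subset _ _) fun _ _ _ => by positivity)
      rw [mem_filter, not_le] at ha
      have ha0 : (0 : ℝ) < a := by exact_mod_cast Nat.pos_of_mem_divisors ha.1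
      rw [Real.rpow_sub ha0, Real.rpow_one, div_div, mul_comm (a : ℝ), ← div_div]
      refine div_le_div_of_nonneg_right ?_ ha0.le
      rw [one_le_div hE]
      have hlog : (B + 1 : ℝ) * Real.log Y ≤ Real.log a := by
        have : ((Y : ℝ) ^ (B + 1)) ≤ a := by exact_mod_cast ha.2.le
        have h3 := Real.log_le_log (by positivity) this
        rw [Real.log_pow] at h3
        exact_mod_cast h3
      rw [Real.rpow_def_of_pos ha0, ← Real.exp_nat_mul, mul_one]
      refine Real.exp_le_exp.mpr ?_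
      push_cast
      rw [mul_one_div, le_div_iff₀ hL]
      exact hlog
    refine hstep.trans ?_
    rw [← sum_div, div_le_iff₀ hE]
    refine (hR Y hY).trans ?_
    have hDD1 := one_le_DD Y
    have h5 : Real.exp 1 ^ B ≤ Real.exp 1 ^ (B + 1) :=
      pow_le_pow_right₀ (Real.one_le_exp (by norm_num)) (by omega)
    have h6 : C ≤ 1 / 2 * Real.exp 1 ^ (B + 1) := by linarith
    calc C * DD Y ≤ (1 / 2 * Real.exp 1 ^ (B + 1)) * DD Y :=
          mul_le_mul_of_nonneg_right h6 (by linarith)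
      _ = _ := by ring
  linarith

/-- many primes in a class between `sqrt X` and `X / a` -/
private lemma low_primes (r : ℕ) (hr : r = 1 ∨ r = 7) : ∃ X0 : ℕ, ∀ X : ℕ, X0 ≤ X → ∀ a : ℕ,
    1 ≤ a → a ^ 4 ≤ X →
    dns r / 8 * ((X : ℝ) / a) / Real.log X ≤
      (((pr (Nat.sqrt X) (X / a)).filter (fun q => q % 8 = r)).card : ℝ) := by
  have h1 := pr_class r
  have hd := dns_pos r hr
  set c : ℝ := dns r / 8 with hc
  have hc0 : 0 < c := by positivity
  have h2 := h1.eventually (lt_mem_nhds (show 4 * c < dns r by rw [hc]; linarith))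
  obtain ⟨N, hN⟩ := Filter.eventually_atTop.mp h2
  -- log X ≤ X^(1/8) eventually
  have h3 : ∀ᶠ X : ℕ in Filter.atTop, Real.log X * c⁻¹ ≤ (X : ℝ) ^ (1 / 4 : ℝ) := by
    have h := isLittleO_log_rpow_atTop (show (0 : ℝ) < 1 / 4 by norm_num)
    have h' := (h.bound hc0)
    have h'' := tendsto_natCast_atTop_atTop.eventually h'
    filter_upwards [h'', Filter.eventually_ge_atTop 1] with X hX hX1
    have hX1' : (1 : ℝ) ≤ X := by exact_mod_cast hX1
    rw [Real.norm_of_nonneg (Real.log_nonneg hX1'), Real.norm_of_nonneg (by positivity)] at hX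
    rw [← div_eq_mul_inv, div_le_iff₀ hc0]
    linarith
  obtain ⟨N', hN'⟩ := Filter.eventually_atTop.mp h3
  refine ⟨max (max ((N + 1) ^ 2) N') 16, fun X hX a ha haX => ?_⟩
  simp only [max_le_iff] at hX
  obtain ⟨⟨hXN, hXN'⟩, hX16⟩ := hX
  specialize hN' X hXN'
  have hXR : (16 : ℝ) ≤ X := by exact_mod_cast hX16
  have hX0 : (0 : ℝ) < X := by linarith
  have haR : (1 : ℝ) ≤ a := by exact_mod_cast ha
  have hlX : 1 ≤ Real.log X := by
    have h3 : Real.exp 1 ≤ X := (Real.exp_one_lt_d9.le.trans (by norm_num)).trans hXR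
    rw [Real.le_log_iff_exp_le hX0]
    exact h3
  have ha4 : (a : ℝ) ≤ (X : ℝ) ^ (1 / 4 : ℝ) := by
    have h : ((a : ℝ) ^ 4) ≤ X := by exact_mod_cast haX
    calc (a : ℝ) = ((a : ℝ) ^ (4 : ℕ)) ^ (1 / 4 : ℝ) := by
          rw [← Real.rpow_natCast, ← Real.rpow_mul (by linarith)]; norm_num
      _ ≤ (X : ℝ) ^ (1 / 4 : ℝ) := Real.rpow_le_rpow (by positivity) h (by norm_num)
  have hXa : (X : ℝ) ^ (3 / 4 : ℝ) ≤ X / a := by
    rw [le_div_iff₀ (by linarith)]
    calc (X : ℝ) ^ (3 / 4 : ℝ) * a ≤ (X : ℝ) ^ (3 / 4 : ℝ) * (X : ℝ) ^ (1 / 4 : ℝ) :=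
          mul_le_mul_of_nonneg_left ha4 (by positivity)
      _ = X := by rw [← Real.rpow_add hX0]; norm_num
  have hsqrtX : (Nat.sqrt X : ℝ) ≤ (X : ℝ) ^ (1 / 2 : ℝ) := by
    rw [← Real.sqrt_eq_rpow]
    exact Real.le_sqrt_of_sq_le (by exact_mod_cast Nat.sqrt_le' X)
  have h34 : (X : ℝ) ^ (1 / 2 : ℝ) * (X : ℝ) ^ (1 / 4 : ℝ) = (X : ℝ) ^ (3 / 4 : ℝ) := by
    rw [← Real.rpow_add hX0]; norm_num
  set y : ℕ := X / a with hy
  have hyR : (X : ℝ) / a / 2 ≤ y := by
    have h1 : (X : ℝ) / a < y + 1 := by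
      have := Nat.lt_floor_add_one ((X : ℝ) / a)
      rwa [Nat.floor_div_eq_div] at this
    have h2 : (2 : ℝ) ≤ X / a := by
      refine le_trans ?_ hXa
      calc (2 : ℝ) ≤ (16 : ℝ) ^ (3 / 4 : ℝ) := by
            have : (16 : ℝ) ^ (3 / 4 : ℝ) = 8 := by
              rw [show (16 : ℝ) = 2 ^ (4 : ℝ) by norm_num, ← Real.rpow_mul (by norm_num)]
              norm_num
            rw [this]; norm_num
        _ ≤ (X : ℝ) ^ (3 / 4 : ℝ) := Real.rpow_le_rpow (by norm_num) hXR (by norm_num)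
    linarith
  have hyX : y ≤ X := Nat.div_le_self _ _
  have hsy : Nat.sqrt X ≤ y := by
    have haa : a * Nat.sqrt X ≤ X := by
      have h1 : a ≤ Nat.sqrt X := by
        rw [Nat.le_sqrt']
        exact (Nat.pow_le_pow_right ha (by norm_num : 2 ≤ 4)).trans haX
      exact (Nat.mul_le_mul_right _ h1).trans (by rw [← sq]; exact Nat.sqrt_le' X)
    rw [hy, Nat.le_div_iff_mul_le ha, mul_comm]
    exact haa
  have hNy : N ≤ y := by
    refine le_trans ?_ hsy
    rw [Nat.le_sqrt']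
    exact (Nat.pow_le_pow_left (Nat.le_succ N) 2).trans hXN
  have hy1 : (1 : ℝ) < y := by
    have : 4 ≤ Nat.sqrt X := by rw [Nat.le_sqrt']; exact hX16
    exact_mod_cast (by omega : 1 < y)
  have hly : 0 < Real.log y := Real.log_pos hy1
  have hlyX : Real.log y ≤ Real.log X := Real.log_le_log (by linarith) (by exact_mod_cast hyX)
  have hcount := hN y hNy
  rw [lt_div_iff₀ (by positivity)] at hcount
  -- card splits
  have hcard : ((pr 0 y).filter (fun q => q % 8 = r)).card ≤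
      ((pr (Nat.sqrt X) y).filter (fun q => q % 8 = r)).card + Nat.sqrt X := by
    have hsub : (pr 0 y).filter (fun q => q % 8 = r) ⊆
        (pr (Nat.sqrt X) y).filter (fun q => q % 8 = r) ∪ Ioc 0 (Nat.sqrt X) := by
      intro q hq
      rw [mem_filter, low_mem_pr] at hq
      rw [mem_union, mem_filter, low_mem_pr, mem_Ioc]
      by_cases h : Nat.sqrt X < q
      · exact Or.inl ⟨⟨h, hq.1.2⟩, hq.2⟩
      · exact Or.inr ⟨hq.1.1, not_lt.mp h⟩
    refine (card_le_card hsub).trans ((card_union_le _ _).trans ?_)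
    simp
  have hcardR : (((pr 0 y).filter (fun q => q % 8 = r)).card : ℝ) ≤
      (((pr (Nat.sqrt X) y).filter (fun q => q % 8 = r)).card : ℝ) + Nat.sqrt X := by
    exact_mod_cast hcard
  have hmain : 2 * c * ((X : ℝ) / a) / Real.log X ≤ 4 * c * (y / Real.log y) := by
    have e1 : 2 * c * ((X : ℝ) / a) / Real.log X ≤ 4 * c * y / Real.log X := by
      refine div_le_div_of_nonneg_right ?_ (by linarith)
      have := mul_le_mul_of_nonneg_left hyR (show 0 ≤ 4 * c by positivity)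
      linarith
    refine e1.trans ?_
    rw [mul_div_assoc]
    refine mul_le_mul_of_nonneg_left ?_ (by positivity)
    exact div_le_div_of_nonneg_left (by linarith) hly hlyX
  have hsmall : (Nat.sqrt X : ℝ) ≤ c * ((X : ℝ) / a) / Real.log X := by
    rw [le_div_iff₀ (by linarith)]
    have hlc : Real.log X ≤ c * (X : ℝ) ^ (1 / 4 : ℝ) := by
      rw [← div_eq_mul_inv, div_le_iff₀ hc0] at hN'
      linarith
    calc (Nat.sqrt X : ℝ) * Real.log X ≤ (X : ℝ) ^ (1 / 2 : ℝ) * (c * (X : ℝ) ^ (1 / 4 : ℝ)) := by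
          refine mul_le_mul hsqrtX hlc (by linarith) (by positivity)
      _ = c * (X : ℝ) ^ (3 / 4 : ℝ) := by rw [← h34]; ring
      _ ≤ c * ((X : ℝ) / a) := mul_le_mul_of_nonneg_left hXa hc0.le
  have e5 : 2 * c * ((X : ℝ) / a) / Real.log X = 2 * (c * ((X : ℝ) / a) / Real.log X) := by
    ring
  linarith

theorem F_lower : ∃ c : ℝ, 0 < c ∧ ∃ X0 : ℕ, ∀ X : ℕ, X0 ≤ X →
    c * ((X : ℝ) / Real.log X) * DD X ≤
      (((FF X).filter (fun m => 1 < m ∧ m % 8 = 1)).card : ℝ) := by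
  obtain ⟨c, hc, B, hB, Y0, hlow⟩ := sum_FF_lower
  obtain ⟨C, hC, hreg⟩ := DD_reg
  obtain ⟨X1, hX1⟩ := low_primes 1 (Or.inl rfl)
  obtain ⟨X7, hX7⟩ := low_primes 7 (Or.inr rfl)
  set c0 : ℝ := min (dns 1 / 8) (dns 7 / 8) with hc0
  have hc0pos : 0 < c0 := by
    have h1 := dns_pos 1 (Or.inl rfl)
    have h7 := dns_pos 7 (Or.inr rfl)
    exact lt_min (by positivity) (by positivity)
  -- choice of Y
  set c1 : ℝ := c / (C * (8 * B) ^ (3 / 5 : ℝ)) with hc1
  have hBR : (1 : ℝ) ≤ B := by exact_mod_cast hB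
  have hc1pos : 0 < c1 := by positivity
  refine ⟨c0 * c1, by positivity, max (max X1 X7) (max ((Y0 + 2) ^ (4 * B)) (4 ^ (8 * B))),
    fun X hX => ?_⟩
  simp only [max_le_iff] at hX
  obtain ⟨⟨hXX1, hXX7⟩, hXY, hX2⟩ := hX
  -- Y = largest with Y^(4B) ≤ X
  obtain ⟨Y, hY1, hY2⟩ : ∃ Y : ℕ, Y ^ (4 * B) ≤ X ∧ X < (Y + 1) ^ (4 * B) := by
    have hex : ∃ Y : ℕ, X < (Y + 1) ^ (4 * B) := by
      refine ⟨X, ?_⟩
      calc X < X + 1 := Nat.lt_succ_self X
        _ = (X + 1) ^ 1 := (pow_one _).symm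
        _ ≤ (X + 1) ^ (4 * B) := Nat.pow_le_pow_right (Nat.succ_pos _) (by omega)
    refine ⟨Nat.find hex, ?_, Nat.find_spec hex⟩
    rcases Nat.eq_zero_or_pos (Nat.find hex) with h0 | h0
    · rw [h0, zero_pow (by omega)]; exact Nat.zero_le _
    · have := Nat.find_min hex (Nat.sub_lt h0 one_pos)
      have e : Nat.find hex - 1 + 1 = Nat.find hex := by omega
      rw [not_lt, e] at this
      exact this
  have hYY0 : Y0 + 2 ≤ Y + 1 := by
    by_contra hcon
    push Not at hcon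
    have := Nat.pow_le_pow_left hcon.le (4 * B)
    omega
  have hYY0' : Y0 ≤ Y := by omega
  have hY1' : 2 ≤ Y + 1 := by omega
  -- Y ≥ 4
  have hY4 : 4 ≤ Y := by
    by_contra hcon
    push Not at hcon
    have h1 : (Y + 1) ^ (4 * B) ≤ 4 ^ (4 * B) := Nat.pow_le_pow_left (by omega) _
    have h2 : 4 ^ (4 * B) ≤ 4 ^ (8 * B) := Nat.pow_le_pow_right (by norm_num) (by omega)
    omega
  have hYR : (4 : ℝ) ≤ Y := by exact_mod_cast hY4
  have hYX : Y ≤ X := by
    calc Y = Y ^ 1 := (pow_one _).symm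
      _ ≤ Y ^ (4 * B) := Nat.pow_le_pow_right (by omega) (by omega)
      _ ≤ X := hY1
  have hXR : (4 : ℝ) ≤ X := hYR.trans (by exact_mod_cast hYX)
  have hlX : 0 < Real.log X := Real.log_pos (by linarith)
  have hlY : 0 < Real.log Y := Real.log_pos (by linarith)
  have hlogs : Real.log X ≤ 8 * B * Real.log Y := by
    have h1 : (X : ℝ) ≤ ((Y : ℝ) ^ 2) ^ (4 * B) := by
      have : (Y + 1) ^ (4 * B) ≤ (Y ^ 2) ^ (4 * B) := Nat.pow_le_pow_left (by nlinarith) _
      exact_mod_cast hY2.le.trans this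
    have h2 := Real.log_le_log (by linarith) h1
    rw [Real.log_pow, Real.log_pow] at h2
    push_cast at h2
    linarith
  have hDDle : DD X ≤ C * (8 * B) ^ (3 / 5 : ℝ) * DD Y := by
    have h1 := (hreg Y X (by omega) hYX).2
    refine h1.trans ?_
    have hDY := one_le_DD Y
    have h2 : (Real.log X / Real.log Y) ^ (3 / 5 : ℝ) ≤ (8 * B) ^ (3 / 5 : ℝ) := by
      refine Real.rpow_le_rpow (by positivity) ?_ (by norm_num)
      rw [div_le_iff₀ hlY]; exact hlogs
    gcongr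
  have hDDc : c1 * DD X ≤ c * DD Y := by
    have hpos : 0 < C * (8 * (B : ℝ)) ^ (3 / 5 : ℝ) := by positivity
    calc c1 * DD X ≤ c1 * (C * (8 * B) ^ (3 / 5 : ℝ) * DD Y) :=
          mul_le_mul_of_nonneg_left hDDle hc1pos.le
      _ = c * DD Y := by rw [hc1]; field_simp
  have hsum := hlow Y hYY0'
  -- the injection
  set S : Finset (Σ _ : ℕ, ℕ) := (FF (Y ^ B)).sigma fun a =>
    (pr (Nat.sqrt X) (X / a)).filter (fun q => q % 8 = a % 8) with hS
  have hmem : ∀ u ∈ S, 1 ≤ u.1 ∧ F1 u.1 ∧ u.1 ^ 4 ≤ X ∧ P8 u.2 ∧ Nat.sqrt X < u.2 ∧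
      u.1 * u.2 ≤ X ∧ u.2 % 8 = u.1 % 8 ∧ ¬ u.2 ∣ u.1 := by
    intro u hu
    rw [hS, mem_sigma, mem_filter, low_mem_FF, low_mem_pr] at hu
    obtain ⟨⟨h1, h2, h3⟩, ⟨h4, h5, h6⟩, h7⟩ := hu
    have h8 : u.1 ^ 4 ≤ X := by
      calc u.1 ^ 4 ≤ (Y ^ B) ^ 4 := Nat.pow_le_pow_left h2 4
        _ = Y ^ (4 * B) := by rw [← pow_mul, mul_comm]
        _ ≤ X := hY1
    have h9 : u.1 ≤ Nat.sqrt X := by
      rw [Nat.le_sqrt']
      exact (Nat.pow_le_pow_right h1 (by norm_num : 2 ≤ 4)).trans h8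
    refine ⟨h1, h3, h8, h6, h4, ?_, h7, ?_⟩
    · calc u.1 * u.2 ≤ u.1 * (X / u.1) := Nat.mul_le_mul_left _ h5
        _ ≤ X := Nat.mul_div_le X u.1
    · intro hdvd
      have := Nat.le_of_dvd h1 hdvd
      omega
  have hcardS : (S.card : ℝ) ≤ (((FF X).filter (fun m => 1 < m ∧ m % 8 = 1)).card : ℝ) := by
    refine Nat.cast_le.mpr (card_le_card_of_injOn (fun u => u.1 * u.2) ?_ ?_)
    · intro u hu
      obtain ⟨h1, h2, h3, h4, h5, h6, h7, h8⟩ := hmem u (mem_coe.mp hu)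
      rw [mem_coe, mem_filter, low_mem_FF]
      have hprod : 1 < u.1 * u.2 := by
        calc 1 < u.2 := h4.1.one_lt
          _ = 1 * u.2 := (one_mul _).symm
          _ ≤ u.1 * u.2 := Nat.mul_le_mul_right _ h1
      refine ⟨⟨hprod.le, h6, F1_mul h2 h4 h8⟩, hprod, ?_⟩
      show u.1 * u.2 % 8 = 1
      rw [Nat.mul_mod, ← h7]
      rcases Dat.C_eight _ h4.2 with h | h <;> rw [h]
    · intro u hu v hv huv
      obtain ⟨h1, h2, h3, h4, h5, h6, h7, h8⟩ := hmem u (mem_coe.mp hu)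
      obtain ⟨k1, k2, k3, k4, k5, k6, k7, k8⟩ := hmem v (mem_coe.mp hv)
      simp only at huv
      have hv1 : v.1 ≤ Nat.sqrt X := by
        rw [Nat.le_sqrt']
        exact (Nat.pow_le_pow_right k1 (by norm_num : 2 ≤ 4)).trans k3
      have hdvd : u.2 ∣ v.1 * v.2 := huv ▸ Dvd.intro_left _ rfl
      have hq : u.2 = v.2 := by
        rcases (h4.1.dvd_mul).mp hdvd with h | h
        · exfalso
          have := Nat.le_of_dvd k1 h
          omega
        · exact (Nat.prime_dvd_prime_iff_eq h4.1 k4.1).mp h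
      have ha : u.1 = v.1 := by
        rw [hq] at huv
        exact Nat.eq_of_mul_eq_mul_right k4.1.pos huv
      cases u; cases v
      simp only at hq ha
      subst hq; subst ha; rfl
  refine le_trans ?_ hcardS
  have hScard : (S.card : ℝ) = ∑ a ∈ FF (Y ^ B),
      (((pr (Nat.sqrt X) (X / a)).filter (fun q => q % 8 = a % 8)).card : ℝ) := by
    rw [hS, card_sigma]; push_cast; rfl
  rw [hScard]
  have hterm : ∀ a ∈ FF (Y ^ B), c0 * ((X : ℝ) / Real.log X) * (1 / (a : ℝ)) ≤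
      (((pr (Nat.sqrt X) (X / a)).filter (fun q => q % 8 = a % 8)).card : ℝ) := by
    intro a ha
    obtain ⟨h1, h2, h3⟩ := low_mem_FF.mp ha
    have h8 : a ^ 4 ≤ X := by
      calc a ^ 4 ≤ (Y ^ B) ^ 4 := Nat.pow_le_pow_left h2 4
        _ = Y ^ (4 * B) := by rw [← pow_mul, mul_comm]
        _ ≤ X := hY1
    have hmod : a % 8 = 1 ∨ a % 8 = 7 := by
      have key : ∀ S : Finset ℕ, (∀ p ∈ S, p % 8 = 1 ∨ p % 8 = 7) →
          (∏ p ∈ S, p) % 8 = 1 ∨ (∏ p ∈ S, p) % 8 = 7 := by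
        intro S
        induction S using Finset.induction_on with
        | empty => intro _; left; simp
        | insert q S hq ih =>
          intro h
          rw [prod_insert hq, Nat.mul_mod]
          have h1 := h q (mem_insert_self _ _)
          have h2 := ih fun p hp => h p (mem_insert_of_mem hp)
          rcases h1 with h1 | h1 <;> rcases h2 with h2 | h2 <;> rw [h1, h2] <;> simp
      have := key a.primeFactors fun p hp => Dat.C_eight p (h3.2 p hp)
      rwa [Nat.prod_primeFactors_of_squarefree h3.1] at this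
    have e : c0 * ((X : ℝ) / Real.log X) * (1 / (a : ℝ)) =
        c0 * ((X : ℝ) / a / Real.log X) := by ring
    have hnn : 0 ≤ (X : ℝ) / a / Real.log X := by positivity
    rw [e]
    rcases hmod with h | h
    · rw [h]
      refine le_trans ?_ (hX1 X hXX1 a h1 h8)
      rw [mul_div_assoc]
      exact mul_le_mul_of_nonneg_right (min_le_left _ _) hnn
    · rw [h]
      refine le_trans ?_ (hX7 X hXX7 a h1 h8)
      rw [mul_div_assoc]
      exact mul_le_mul_of_nonneg_right (min_le_right _ _) hnn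
  refine le_trans ?_ (sum_le_sum hterm)
  rw [← mul_sum]
  have hXl : 0 ≤ c0 * ((X : ℝ) / Real.log X) := by positivity
  calc c0 * c1 * ((X : ℝ) / Real.log X) * DD X
      = c0 * ((X : ℝ) / Real.log X) * (c1 * DD X) := by ring
    _ ≤ c0 * ((X : ℝ) / Real.log X) * (c * DD Y) := mul_le_mul_of_nonneg_left hDDc hXl
    _ ≤ _ := mul_le_mul_of_nonneg_left hsum hXl

end Pool.Agent.GTL
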