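import Mathlib
import Pool.Agent.GTL.Defs
import Pool.Agent.GTL.L2a
import Pool.Agent.PNTAP.Main
import Pool.Agent.TLW.L2b
set_option autoImplicit false

/-!
# S6 / L2b: the character sums for a fixed modulus (prime number theorem in progressions)
-/

namespace Pool.Agent.GTL

open Pool.Agent.TLW

open Finset Filter Topology

variable [Dat]

lemma C_one : Dat.C 1 := by
  obtain ⟨n, hn, _⟩ := Dat.surj 0 0
  have := (Dat.C_mul n 1 hn).1 (by rw [mul_one]; exact hn)
  exact this

lemma lam_one : lam 1 = 0 := by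
  have h := Dat.lam_mul 1 1 C_one C_one
  rw [mul_one] at h
  have h2 : Dat.lam 1 = Dat.lam 1 + Dat.lam 1 := h
  have h3 : (Dat.lam 1) + Dat.lam 1 = Dat.lam 1 + 0 := by rw [add_zero]; exact h2.symm
  exact add_left_cancel h3

/-- the summand as a function of the residue modulo `Q d` -/
noncomputable def fv (d : ℕ) (i j : ZMod 2) (n : ℕ) : ℝ :=
  if Dat.C n then (jacobiSym (n : ℤ) d : ℝ) * sg (i * nn n + j * lam n) else 0

lemma fv_mod (d : ℕ) (i j : ZMod 2) (n : ℕ) : fv d i j (n % (Dat.Q * d)) = fv d i j n := by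
  have hQ : n % (Dat.Q * d) % Dat.Q = n % Dat.Q := Nat.mod_mod_of_dvd _ (Dvd.intro _ rfl)
  have h8 : n % (Dat.Q * d) % 8 = n % 8 :=
    Nat.mod_mod_of_dvd _ (Dvd.dvd.mul_right Dat.eight _)
  have hnn : nn (n % (Dat.Q * d)) = nn n := by unfold nn; rw [h8]
  have hlam : lam (n % (Dat.Q * d)) = lam n := by
    unfold lam
    rw [← Dat.lam_mod (n % (Dat.Q * d)), hQ, Dat.lam_mod]
  have hC : Dat.C (n % (Dat.Q * d)) ↔ Dat.C n := by
    rw [← Dat.C_mod (n % (Dat.Q * d)), hQ, Dat.C_mod]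
  have hJ : jacobiSym ((n % (Dat.Q * d) : ℕ) : ℤ) d = jacobiSym (n : ℤ) d := by
    rw [jacobiSym.mod_left, jacobiSym.mod_left (n : ℤ)]
    congr 1
    push_cast
    exact Int.emod_emod_of_dvd _ (Dvd.intro_left _ rfl)
  unfold fv
  rw [hnn, hlam, hJ]
  by_cases h : Dat.C n
  · rw [if_pos h, if_pos (hC.2 h)]
  · rw [if_neg h, if_neg fun h' => h (hC.1 h')]

/-- multiplicativity on the class -/
lemma fv_mul (d : ℕ) (i j : ZMod 2) {U : ℕ} (hU : Dat.C U) (n : ℕ) :
    fv d i j (U * n) = fv d i j U * fv d i j n := by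
  have hiff := Dat.C_mul U n hU
  by_cases hn : Dat.C n
  · unfold fv
    rw [if_pos hU, if_pos hn, if_pos (hiff.mpr hn)]
    have hnn : nn (U * n) = nn U + nn n := by
      unfold nn
      rw [Nat.mul_mod]
      rcases Dat.C_eight U hU with h | h <;> rcases Dat.C_eight n hn with h' | h' <;> rw [h, h'] <;>
        norm_num <;> decide
    have hlam : lam (U * n) = lam U + lam n := Dat.lam_mul U n hU hn
    rw [hnn, hlam]
    have : i * (nn U + nn n) + j * (lam U + lam n) = (i * nn U + j * lam U) + (i * nn n + j * lam n) := by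
      ring
    rw [this, sg_add]
    push_cast
    rw [jacobiSym.mul_left]
    push_cast
    ring
  · have h0 : fv d i j n = 0 := by unfold fv; rw [if_neg hn]
    have h1 : fv d i j (U * n) = 0 := by
      unfold fv; rw [if_neg (fun h => hn (hiff.mp h))]
    rw [h0, h1, mul_zero]

lemma exists_U {d : ℕ} (hd : F1 d) (i j : ZMod 2) (h : ¬ (d = 1 ∧ i = 0 ∧ j = 0)) :
    ∃ U : ℕ, Nat.Coprime U (Dat.Q * d) ∧ Dat.C U ∧ fv d i j U = -1 := by
  by_cases hd1 : d = 1
  · subst hd1
    have hij : ¬ (i = 0 ∧ j = 0) := fun h' => h ⟨rfl, h'⟩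
    have key : ∀ s l : ZMod 2, i * s + j * l = 1 →
        ∃ U : ℕ, Nat.Coprime U (Dat.Q * 1) ∧ Dat.C U ∧ fv 1 i j U = -1 := by
      intro s l hsl
      obtain ⟨U, hC, h1, h2⟩ := Dat.surj s l
      refine ⟨U, by rw [mul_one]; exact Dat.C_cop U hC, hC, ?_⟩
      have h3 : nn U = s := h1
      have h4 : lam U = l := h2
      unfold fv
      rw [if_pos hC, h3, h4, hsl]
      have h10 : (1 : ZMod 2) ≠ 0 := by decide
      simp [sg]
    rcases zmod2_cases i with rfl | rfl <;> rcases zmod2_cases j with rfl | rfl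
    · exact absurd ⟨rfl, rfl⟩ hij
    · exact key 0 1 (by decide)
    · exact key 1 0 (by decide)
    · exact key 1 0 (by decide)
  · -- a prime of `d`
    obtain ⟨p, hp, hpd⟩ := Nat.exists_prime_and_dvd hd1
    have hCp : Dat.C p := hd.2 p (Nat.mem_primeFactors.2 ⟨hp, hpd, hd.ne_zero⟩)
    obtain ⟨e, rfl⟩ := hpd
    have hsq : Squarefree (p * e) := hd.1
    have hodd : Odd (p * e) := hd.odd
    have hpo : Odd p := (Nat.odd_mul.mp hodd).1
    have heo : Odd e := (Nat.odd_mul.mp hodd).2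
    have hcop : Nat.Coprime p e := (Nat.squarefree_mul_iff.mp hsq).1
    have : Fact p.Prime := ⟨hp⟩
    have hp2 : ringChar (ZMod p) ≠ 2 := by
      rw [ZMod.ringChar_zmod_n]
      rintro rfl
      exact absurd hpo (by decide)
    obtain ⟨a, ha⟩ := FiniteField.exists_nonsquare hp2
    -- CRT
    have hcop2 : Nat.Coprime p (Dat.Q * e) := Nat.Coprime.mul_right (Dat.C_cop p hCp) hcop
    obtain ⟨U, hU1, hU2⟩ := Nat.chineseRemainder hcop2 a.val 1
    have hUp : ((U : ℕ) : ZMod p) = a := by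
      have := (ZMod.natCast_eq_natCast_iff U a.val p).mpr hU1
      rw [this, ZMod.natCast_zmod_val]
    have hUQ : U % Dat.Q = 1 % Dat.Q := hU2.of_mul_right e
    have hUC : Dat.C U := by
      rw [← Dat.C_mod, hUQ, Dat.C_mod]; exact C_one
    have hU8 : U % 8 = 1 := by
      have h1 : U % Dat.Q % 8 = 1 % Dat.Q % 8 := by rw [hUQ]
      rw [Nat.mod_mod_of_dvd _ Dat.eight, Nat.mod_mod_of_dvd _ Dat.eight] at h1
      exact h1
    have hUe : U ≡ 1 [MOD e] := hU2.of_mul_left Dat.Q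
    have hJp : jacobiSym (U : ℤ) p = -1 := by
      rw [← jacobiSym.legendreSym.to_jacobiSym]
      rw [legendreSym.eq_neg_one_iff]
      push_cast
      rw [hUp]
      exact ha
    have hJe : jacobiSym (U : ℤ) e = 1 := by
      rw [jacobiSym.mod_left, show (U : ℤ) % e = (1 : ℤ) % e from ?_, ← jacobiSym.mod_left,
        jacobiSym.one_left]
      have := (Int.natCast_modEq_iff (a := U) (b := 1) (n := e)).mpr hUe
      exact_mod_cast this
    have hJ : jacobiSym (U : ℤ) (p * e) = -1 := by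
      rw [jacobiSym.mul_right' _ hp.ne_zero heo.pos.ne', hJp, hJe, mul_one]
    refine ⟨U, ?_, hUC, ?_⟩
    · refine Nat.Coprime.mul_right (Dat.C_cop U hUC) ?_
      have : jacobiSym (U : ℤ) (p * e) ≠ 0 := by rw [hJ]; norm_num
      by_contra hnc
      apply this
      rw [jacobiSym.eq_zero_iff]
      refine ⟨hd.ne_zero, ?_⟩
      intro hg
      apply hnc
      rw [Nat.Coprime, ← hg]
      rfl
    · unfold fv
      rw [if_pos hUC]
      have h1 : nn U = 0 := by unfold nn; rw [if_neg (by omega)]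
      have h2 : lam U = 0 := by
        have h3 : lam U = lam 1 := by
          unfold lam
          rw [← Dat.lam_mod U, hUQ, Dat.lam_mod]
        rw [h3, lam_one]
      rw [h1, h2, hJ]
      simp [sg]

open Classical in
/-- the weight of a class -/
noncomputable def gv (d : ℕ) (i j : ZMod 2) (b : ZMod (Dat.Q * d)) : ℝ :=
  if IsUnit b then fv d i j b.val else 0

lemma sum_gv {d : ℕ} (hd : F1 d) (i j : ZMod 2) (h : ¬ (d = 1 ∧ i = 0 ∧ j = 0)) [NeZero (Dat.Q * d)] :
    ∑ b : ZMod (Dat.Q * d), gv d i j b = 0 := by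
  obtain ⟨U, hUc, hUC, hfU⟩ := exists_U hd i j h
  have hUu : IsUnit ((U : ℕ) : ZMod (Dat.Q * d)) := (ZMod.isUnit_iff_coprime U (Dat.Q * d)).mpr hUc
  obtain ⟨u, hu⟩ := hUu
  have h1 : ∑ b : ZMod (Dat.Q * d), gv d i j b = ∑ b : ZMod (Dat.Q * d), gv d i j (u * b) :=
    (Equiv.sum_comp (Units.mulLeft u) (gv d i j)).symm
  have h2 : ∀ b : ZMod (Dat.Q * d), gv d i j (u * b) = - gv d i j b := by
    intro b
    by_cases hb : IsUnit b
    · have hb' : IsUnit ((u : ZMod (Dat.Q * d)) * b) := (Units.isUnit_units_mul u b).mpr hb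
      have : ((u : ZMod (Dat.Q * d)) * b).val = (U * b.val) % (Dat.Q * d) := by
        rw [ZMod.val_mul, hu, ZMod.val_natCast, Nat.mod_mul_mod]
      unfold gv
      rw [if_pos hb, if_pos hb', this, fv_mod, fv_mul d i j hUC, hfU]
      ring
    · have hb' : ¬ IsUnit ((u : ZMod (Dat.Q * d)) * b) := fun h' =>
        hb ((Units.isUnit_units_mul u b).mp h')
      unfold gv
      rw [if_neg hb, if_neg hb', neg_zero]
  rw [Finset.sum_congr rfl fun b _ => h2 b, Finset.sum_neg_distrib] at h1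
  linarith

lemma SS_eq_sum {d : ℕ} (hd : F1 d) (i j : ZMod 2) [NeZero (Dat.Q * d)] (x : ℕ) :
    SS (pr 0 x) (fun _ => 1) d i j
      = ∑ b : ZMod (Dat.Q * d), gv d i j b * PNTAP.piC b (x : ℝ) := by
  have h1 : ∀ b : ZMod (Dat.Q * d), gv d i j b * PNTAP.piC b (x : ℝ)
      = ∑ q ∈ (Ioc 0 x).filter Nat.Prime, if ((q : ℕ) : ZMod (Dat.Q * d)) = b then gv d i j q else 0 := by
    intro b
    unfold PNTAP.piC PNTAP.primesC
    rw [Nat.floor_natCast, ← Finset.sum_filter, Finset.filter_filter]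
    rw [Finset.sum_congr rfl (g := fun _ => gv d i j b), Finset.sum_const, nsmul_eq_mul, mul_comm]
    intro q hq
    rw [mem_filter] at hq
    rw [hq.2.2]
  rw [Finset.sum_congr rfl fun b _ => h1 b, Finset.sum_comm]
  have h2 : ∀ q ∈ (Ioc 0 x).filter Nat.Prime,
      (∑ b : ZMod (Dat.Q * d), if ((q : ℕ) : ZMod (Dat.Q * d)) = b then gv d i j q else 0)
        = if P8 q then (1 : ℝ) * (jacobiSym (q : ℤ) d : ℝ) * sg (i * nn q + j * lam q) else 0 := by
    intro q hq
    rw [Finset.sum_ite_eq]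
    simp only [mem_univ, if_true]
    rw [mem_filter] at hq
    have hqp := hq.2
    unfold gv
    by_cases hu : IsUnit ((q : ℕ) : ZMod (Dat.Q * d))
    · rw [if_pos hu, ZMod.val_natCast, fv_mod]
      unfold fv
      by_cases h8 : Dat.C q
      · have hP : P8 q := ⟨hqp, h8⟩
        rw [if_pos h8, if_pos hP, one_mul]
      · have hP : ¬ P8 q := fun h => h8 h.2
        rw [if_neg h8, if_neg hP]
    · rw [if_neg hu]
      by_cases hP : P8 q
      · rw [if_pos hP]
        have hnc : ¬ Nat.Coprime q (Dat.Q * d) := fun h => hu ((ZMod.isUnit_iff_coprime q (Dat.Q * d)).mpr h)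
        have hncd : ¬ Nat.Coprime q d := fun h =>
          hnc (Nat.Coprime.mul_right (Dat.C_cop q hP.2) h)
        have : jacobiSym (q : ℤ) d = 0 := by
          rw [jacobiSym.eq_zero_iff]
          refine ⟨hd.ne_zero, fun hg => hncd ?_⟩
          rw [Nat.Coprime, ← hg]
          rfl
        rw [this]; simp
      · rw [if_neg hP]
  rw [Finset.sum_congr rfl h2, ← Finset.sum_filter, Finset.filter_filter]
  unfold SS pr
  refine Finset.sum_congr ?_ fun _ _ => rfl
  ext q
  simp only [mem_filter]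
  constructor
  · rintro ⟨h, h'⟩
    exact ⟨h, h'.1, h'⟩
  · rintro ⟨h, _, h'⟩
    exact ⟨h, h'⟩

/-- **fixed modulus** -/
theorem SS_fixed {d : ℕ} (hd : F1 d) (i j : ZMod 2) (h : ¬ (d = 1 ∧ i = 0 ∧ j = 0)) :
    Tendsto (fun x : ℕ => SS (pr 0 x) (fun _ => 1) d i j * Real.log x / x) atTop (𝓝 0) := by
  have : NeZero (Dat.Q * d) := ⟨mul_ne_zero Dat.Q_pos.ne' hd.ne_zero⟩
  have h1 : ∀ b : ZMod (Dat.Q * d), Tendsto (fun x : ℕ => gv d i j b * (PNTAP.piC b (x : ℝ) *
      Real.log x / x)) atTop (𝓝 (gv d i j b * (((Dat.Q * d).totient : ℝ)⁻¹))) := by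
    intro b
    by_cases hb : IsUnit b
    · exact ((PNTAP.tendsto_primeCounting_class hb).comp tendsto_natCast_atTop_atTop).const_mul _
    · have : gv d i j b = 0 := by unfold gv; rw [if_neg hb]
      rw [this]; simp
  have h2 := tendsto_finsetSum (univ : Finset (ZMod (Dat.Q * d))) fun b _ => h1 b
  rw [← Finset.sum_mul, sum_gv hd i j h, zero_mul] at h2
  refine h2.congr fun x => ?_
  rw [SS_eq_sum hd i j x, Finset.sum_mul, Finset.sum_div]
  refine Finset.sum_congr rfl fun b _ => ?_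
  ring

end Pool.Agent.GTL
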