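import Pool.Agent.GTL.RegA
import Pool.Agent.GTL.Defs
import Pool.Agent.TLW.RegB
set_option autoImplicit false

/-! sum of reciprocals over `(Y, Y^2]` -/

namespace Pool.Agent.GTL

open Pool.Agent.TLW

open Finset Filter Topology

variable [Dat]

lemma pr_succ {y z : ℕ} (hyz : y ≤ z) (g : ℕ → ℝ) :
    ∑ p ∈ pr y (z + 1), g p = ∑ p ∈ pr y z, g p + if P8 (z + 1) then g (z + 1) else 0 := by
  unfold pr
  rw [Finset.sum_filter, Finset.sum_filter, Finset.sum_Ioc_succ_top hyz]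

lemma pr_card_succ (z : ℕ) :
    ((pr 0 (z + 1)).card : ℝ) = (pr 0 z).card + if P8 (z + 1) then 1 else 0 := by
  have := pr_succ (Nat.zero_le z) (fun _ => 1)
  simpa using this

/-- Abel summation -/
lemma pr_abel (Y : ℕ) : ∀ Z : ℕ, Y ≤ Z → ∑ p ∈ pr Y Z, 1 / (p : ℝ) =
    ((pr 0 Z).card : ℝ) / (Z + 1) - ((pr 0 Y).card : ℝ) / (Y + 1) +
      ∑ n ∈ Ioc Y Z, ((pr 0 n).card : ℝ) / (n * (n + 1)) := by
  intro Z hZ
  induction Z, hZ using Nat.le_induction with
  | base =>
    have : pr Y Y = ∅ := by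
      unfold pr
      rw [Finset.Ioc_self, Finset.filter_empty]
    rw [this, Finset.Ioc_self]
    simp
  | succ Z hZ ih =>
    rw [pr_succ hZ, ih, Finset.sum_Ioc_succ_top hZ, pr_card_succ Z]
    have h1 : (0 : ℝ) < (Z : ℝ) + 1 := by positivity
    have h2 : (0 : ℝ) < (Z : ℝ) + 2 := by positivity
    push_cast
    split_ifs
    · field_simp
      ring
    · field_simp
      ring

/-- ratio of the count to its size -/
noncomputable def rat (n : ℕ) : ℝ := ((pr 0 n).card : ℝ) / (n / Real.log n)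

lemma rat_wt {n : ℕ} (hn : 2 ≤ n) :
    ((pr 0 n).card : ℝ) / (n * (n + 1)) = rat n * wt n := by
  have h1 : (2 : ℝ) ≤ n := by exact_mod_cast hn
  have ha : 0 < Real.log n := Real.log_pos (by linarith)
  unfold rat wt
  field_simp

lemma edge_lim : Tendsto (fun n : ℕ => ((pr 0 n).card : ℝ) / (n + 1)) atTop (𝓝 0) := by
  have h1 : Tendsto (fun n : ℕ => rat n * (Real.log n)⁻¹) atTop (𝓝 (dn * 0)) := by
    apply Tendsto.mul pr_count
    exact (Real.tendsto_log_atTop.comp tendsto_natCast_atTop_atTop).inv_tendsto_atTop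
  rw [mul_zero] at h1
  refine tendsto_of_tendsto_of_tendsto_of_le_of_le' tendsto_const_nhds h1 ?_ ?_
  · filter_upwards with n
    positivity
  · filter_upwards [eventually_ge_atTop 2] with n hn
    have h2 : (2 : ℝ) ≤ n := by exact_mod_cast hn
    have ha : 0 < Real.log n := Real.log_pos (by linarith)
    have h3 : rat n * (Real.log n)⁻¹ = ((pr 0 n).card : ℝ) / n := by
      unfold rat
      field_simp
    rw [h3]
    apply div_le_div_of_nonneg_left (by positivity) (by linarith) (by linarith)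

theorem pr_sum_sq : Tendsto (fun Y : ℕ => ∑ p ∈ pr Y (Y ^ 2), 1 / (p : ℝ)) atTop
    (𝓝 (dn * Real.log 2)) := by
  have hsq : Tendsto (fun Y : ℕ => Y ^ 2) atTop atTop :=
    tendsto_pow_atTop (by norm_num)
  have hA : Tendsto (fun Y : ℕ => ((pr 0 (Y ^ 2)).card : ℝ) / ((Y ^ 2 : ℕ) + 1)) atTop (𝓝 0) :=
    edge_lim.comp hsq
  have hB := edge_lim
  have hT := sum_wt_lim
  -- the error
  have hE : Tendsto (fun Y : ℕ => ∑ n ∈ Ioc Y (Y ^ 2), (rat n - dn) * wt n) atTop (𝓝 0) := by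
    rw [Metric.tendsto_atTop]
    intro ε hε
    obtain ⟨N, hN⟩ := (Metric.tendsto_atTop.1 pr_count) ε hε
    refine ⟨max N 2, fun Y hY => ?_⟩
    have hY2 : 2 ≤ Y := (le_max_right _ _).trans hY
    have hYN : N ≤ Y := (le_max_left _ _).trans hY
    have hYY : Y ≤ Y ^ 2 := by nlinarith
    rw [Real.dist_eq, sub_zero]
    have h1 : |∑ n ∈ Ioc Y (Y ^ 2), (rat n - dn) * wt n| ≤
        ∑ n ∈ Ioc Y (Y ^ 2), ε * wt n := by
      refine (Finset.abs_sum_le_sum_abs _ _).trans (Finset.sum_le_sum fun n hn => ?_)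
      rw [Finset.mem_Ioc] at hn
      rw [abs_mul, abs_of_nonneg (wt_nonneg n)]
      apply mul_le_mul_of_nonneg_right _ (wt_nonneg n)
      have := hN n (by omega)
      rw [Real.dist_eq] at this
      exact this.le
    have h2 := sum_wt_le hY2 (Y ^ 2) hYY
    rw [loglog_sq hY2] at h2
    rw [← Finset.mul_sum] at h1
    have h3 : Real.log 2 < 1 := by linarith [Real.log_two_lt_d9]
    have h4 : ε * ∑ n ∈ Ioc Y (Y ^ 2), wt n ≤ ε * Real.log 2 :=
      mul_le_mul_of_nonneg_left (by linarith) hε.le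
    nlinarith
  have hsum := ((hA.sub hB).add hE).add (hT.const_mul dn)
  simp only [sub_zero, add_zero, zero_add] at hsum
  refine hsum.congr' ?_
  filter_upwards [eventually_ge_atTop 2] with Y hY
  have hYY : Y ≤ Y ^ 2 := by nlinarith
  rw [pr_abel Y (Y ^ 2) hYY]
  have h1 : ∑ n ∈ Ioc Y (Y ^ 2), ((pr 0 n).card : ℝ) / (n * (n + 1)) =
      ∑ n ∈ Ioc Y (Y ^ 2), (rat n - dn) * wt n + dn * (∑ n ∈ Ioc Y (Y ^ 2), wt n) := by
    rw [Finset.mul_sum, ← Finset.sum_add_distrib]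
    apply Finset.sum_congr rfl
    intro n hn
    rw [Finset.mem_Ioc] at hn
    rw [rat_wt (by omega)]
    ring
  rw [h1]
  ring

end Pool.Agent.GTL
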